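import Pool.Agent.Lib.Pa7c826n.Defs
import Pool.Agent.Lib.Pa7c826y.Main2
import Pool.Agent.Lib.P8e91ed.PolyBin

/-!
Definitions used in the proofs of the smoothed threshold.
-/

namespace Pool.Agent.Lib.Pa7c826n

open Pool.Agent.Lib.Pa7c826 Pool.Agent.Lib.Pa7c826y Finset
open Pool.Agent.Lib.PolyTime (afterTrue)

/-! ### The algorithm above the threshold -/

/-- the sum of `2 ^ (number of vertices of the other side without neighbours in S)` over all sets
`S` of at most `k` vertices -/
def algB (n m : ℕ) (F : ℕ → ℕ → Bool) (k I : ℕ) : ℕ :=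
  ∑ p ∈ range I,
    if decide (∃ p' < p, eqB n (tup n k p') (tup n k p) = true) = true then 0
    else 2 ^ (freeN n m F (tup n k p)).card

/-- truncation parameter -/
def kOf (e : ℕ) (w : List Bool) : ℕ := LL e (tOf w) / (lg (aOf w) + 1)

/-- the algorithm -/
def algoN (e : ℕ) (w : List Bool) : ℕ :=
  if decide (1 ≤ JJ e (tOf w) / 2 ^ aOf w) = true then
    algA (aOf w) (bOf w) (FA w) (bOf w) 0 (KK e (tOf w)) (JJ e (tOf w))
  else
    algB (aOf w) (bOf w) (FA w) (kOf e w) (KK e (tOf w)) +
    algB (bOf w) (aOf w) (fun i j => FA w j i) (kOf e w) (KK e (tOf w))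

/-- pairs of sets larger than `k` without edges of `F` between them -/
def Big {N : ℕ} (F : Fin N → Fin N → Bool) (k : ℕ) : Finset (Finset (Fin N) × Finset (Fin N)) :=
  (Ind F).filter fun P => k < P.1.card ∧ k < P.2.card

/-- the random edges are as expected -/
def GoodNoise (κ η : ℝ) {N : ℕ} (F : Fin N → Fin N → Bool) : Prop :=
  ∀ k : ℕ, ((Big F k).card : ℝ) *
    Real.exp (κ * min (((k + 1 : ℕ) : ℝ) * Real.log N) (η * N)) ≤ 2 ^ N

/-- the weighted sum over pairs of sizes -/
noncomputable def Phi (κ η q : ℝ) (N : ℕ) : ℝ :=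
  ∑ s ∈ Icc 1 N, ∑ t ∈ Icc 1 N, (N.choose s : ℝ) * N.choose t * q ^ (s * t) *
    Real.exp (κ * min ((min s t : ℕ) * Real.log N) (η * N))

/-! ### Medians of three outputs -/

/-- number of leading ones -/
def exo (o : List Bool) : ℕ := (o.takeWhile id).length

/-- comparison of the values of two outputs -/
def leV (o o' : List Bool) : Bool :=
  decide (bval (List.replicate (exo o') false ++ afterTrue o) ≤
    bval (List.replicate (exo o) false ++ afterTrue o'))

/-- an output whose value is the median of the values of three outputs -/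
def med3 (x y z : List Bool) : List Bool :=
  if leV x y = true then
    (if leV y z = true then y else if leV x z = true then z else x)
  else
    (if leV x z = true then x else if leV y z = true then z else y)

/-- a randomised scheme for all bipartite graphs with success probability `7 / 10` -/
def WeakFPRAS : Prop :=
  ∃ (m : Polynomial ℕ) (f : BGraph → ℕ → List Bool → List Bool),
    Nonempty (Turing.TM2ComputableInPolyTime
      (α := {x : BGraph × ℕ × List Bool //
        1 ≤ x.2.1 ∧ x.2.2.length = m.eval (inCode x.1 x.2.1).length})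
      (αΓ := Bool) (βΓ := Bool) (fun x => inCode x.1.1 x.1.2.1 ++ x.1.2.2) id
      (fun x => f x.1.1 x.1.2.1 x.1.2.2)) ∧
    ∀ G t, 1 ≤ t →
      7 * 2 ^ m.eval (inCode G t).length ≤
        10 * Nat.card {r : Fin (m.eval (inCode G t).length) → Bool //
          Good G t (f G t (List.ofFn r))}

/-! ### Clones -/

section clones

variable {a s n b : ℕ}

/-- number of random neighbours of a clone -/
def dgc (F : Fin a × Fin s → Fin n → Bool) (v : Fin a × Fin s) : ℕ :=
  (univ.filter fun w => F v w = true).card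

/-- number of random neighbours of a set of clones -/
def dgs (F : Fin a × Fin s → Fin n → Bool) (X : Finset (Fin a × Fin s)) : ℕ :=
  (univ.filter fun w => ∃ v ∈ X, F v w = true).card

/-- number of neighbours of a set of vertices of the given graph -/
def nbA (M : Fin a → Fin b → Bool) (A : Finset (Fin a)) : ℕ :=
  (univ.filter fun j => ∃ u ∈ A, M u j = true).card

/-- the vertices of which `X` contains a clone -/
def prA (X : Finset (Fin a × Fin s)) : Finset (Fin a) := X.image Prod.fst

/-- the normalised partition function -/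
noncomputable def Yp (M : Fin a → Fin b → Bool) (F : Fin a × Fin s → Fin n → Bool) : ℝ :=
  ∑ X : Finset (Fin a × Fin s), (1 / 2) ^ dgs F X * (1 / 2) ^ nbA M (prA X)

/-- the same for clones with disjoint neighbourhoods -/
noncomputable def Lp (M : Fin a → Fin b → Bool) (F : Fin a × Fin s → Fin n → Bool) : ℝ :=
  ∑ X : Finset (Fin a × Fin s), (1 / 2) ^ (∑ v ∈ X, dgc F v) * (1 / 2) ^ nbA M (prA X)

/-- total weight of the sets of clones of a vertex -/
noncomputable def Pu (F : Fin a × Fin s → Fin n → Bool) (u : Fin a) : ℝ :=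
  ∏ i : Fin s, (1 + (1 / 2 : ℝ) ^ dgc F (u, i))

/-- the normalised number of independent sets of the given graph -/
noncomputable def ZB (M : Fin a → Fin b → Bool) : ℝ :=
  ∑ A : Finset (Fin a), (1 / 2) ^ nbA M A

/-- numbering of the clones -/
def cl {N a s : ℕ} (h : a * s ≤ N) : Fin a × Fin s ↪ Fin N where
  toFun v := ⟨v.1 * s + v.2, by
    have h1 := v.1.2
    have h2 := v.2.2
    have h3 : ((v.1 : ℕ) + 1) * s ≤ a * s := Nat.mul_le_mul_right _ h1
    rw [Nat.succ_mul] at h3
    omega⟩
  inj' := by
    rintro ⟨u, i⟩ ⟨u', i'⟩ h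
    simp only [Fin.mk.injEq] at h
    have h2 := i.2
    have h2' := i'.2
    have hs : 0 < s := by omega
    have e1 : ((u : ℕ) * s + i) / s = u := by
      rw [mul_comm, Nat.mul_add_div hs, Nat.div_eq_of_lt h2, add_zero]
    have e2 : ((u' : ℕ) * s + i') / s = u' := by
      rw [mul_comm, Nat.mul_add_div hs, Nat.div_eq_of_lt h2', add_zero]
    have e3 : (u : ℕ) = u' := by rw [← e1, ← e2, h]
    rw [e3] at h
    refine Prod.ext (Fin.ext e3) (Fin.ext ?_)
    show (i : ℕ) = i'
    omega

/-- numbering of the other right vertices -/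
def pd {N b : ℕ} (h : b ≤ N) : Fin (N - b) ↪ Fin N where
  toFun w := ⟨b + w, by have := w.2; omega⟩
  inj' := by
    intro w w' h
    simp only [Fin.mk.injEq] at h
    exact Fin.ext (by omega)

/-- the random edges between clones and the other right vertices -/
def res {N a s b : ℕ} (has : a * s ≤ N) (hb : b ≤ N) (F : Fin N → Fin N → Bool) :
    Fin a × Fin s → Fin (N - b) → Bool := fun v w => F (cl has v) (pd hb w)

end clones

/-- adjacency of the given graph with `t + 4` isolated left vertices added -/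
def MG (G : BGraph) (t : ℕ) : Fin (G.a + t + 4) → Fin G.b → Bool := fun u j => G.F u j

/-! ### Parameters of the reduction -/

/-- about `2 ^ k log 2` -/
def lnN (k : ℕ) : ℕ := ∑ i ∈ range k, 2 ^ (k - 1 - i) / (i + 1)

/-- `N = 2 ^ Lx e l` vertices on each side -/
def Lx (e l : ℕ) : ℕ := 2 * e * l

/-- about `2 ^ Jx u l log 2` clones of each vertex -/
def Jx (u l : ℕ) : ℕ := 2 * u * l

/-- number of clones -/
def sx (u l : ℕ) : ℕ := lnN (Jx u l)

/-- numerator of the density of the random edges -/
def Xx (e u l : ℕ) : ℕ := 2 * Jx u l * lnN (Lx e l)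

/-- the density of the random edges -/
noncomputable def px (e u l : ℕ) : ℝ := (Xx e u l : ℝ) / 2 ^ (2 * Lx e l)

/-- size parameter -/
def nn (G : BGraph) (t : ℕ) : ℕ := G.a + G.b + t + 16

/-- logarithmic size parameter -/
def ll (l₀ : ℕ) (G : BGraph) (t : ℕ) : ℕ := 40 * lg (nn G t) + l₀

/-- adjacency of the new graph without the random edges: the left vertices `0, …, a s - 1` are
the clones, `s` for every vertex of the given graph and for `t + 4` isolated vertices; the others
are adjacent to all right vertices -/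
def e0 (G : BGraph) (t s i j : ℕ) : Bool :=
  if decide (i < (G.a + t + 4) * s) = true then G.F (i / s) j else true

/-- the number with binary digits `r (k κ), …, r (k κ + κ - 1)` -/
def nv (κ : ℕ) (r : List Bool) (k : ℕ) : ℕ :=
  ∑ i ∈ range κ, if r.getD (k * κ + i) false = true then 2 ^ i else 0

/-- a random bit that is `true` with probability `X / 2 ^ κ` -/
def nz (κ X : ℕ) (r : List Bool) (k : ℕ) : Bool := decide (nv κ r k < X)

/-- the new graph with the random edges read off `r` -/
def redN (e u l₀ : ℕ) (G : BGraph) (t : ℕ) (r : List Bool) : BGraph :=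
  mkGraph (2 ^ Lx e (ll l₀ G t)) (2 ^ Lx e (ll l₀ G t)) (fun i j =>
    e0 G t (sx u (ll l₀ G t)) i j ||
      nz (2 * Lx e (ll l₀ G t)) (Xx e u (ll l₀ G t)) r (i * 2 ^ Lx e (ll l₀ G t) + j))

/-- the exponent -/
def KN (e l₀ : ℕ) (G : BGraph) (t : ℕ) : ℕ := 2 ^ Lx e (ll l₀ G t) - G.b + (t + 4)

/-- number of random bits for the edges -/
def RN (e l₀ : ℕ) (G : BGraph) (t : ℕ) : ℕ :=
  2 ^ Lx e (ll l₀ G t) * 2 ^ Lx e (ll l₀ G t) * (2 * Lx e (ll l₀ G t))

/-- number of random bits of the given machine -/
def MN (e l₀ : ℕ) (m : Polynomial ℕ) (G : BGraph) (t : ℕ) : ℕ :=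
  m.eval (2 * t + (2 ^ Lx e (ll l₀ G t) + (2 ^ Lx e (ll l₀ G t) +
    2 ^ Lx e (ll l₀ G t) * 2 ^ Lx e (ll l₀ G t))) + 3)

/-- the new machine -/
def fN (e u l₀ : ℕ) (m : Polynomial ℕ) (f : BGraph → ℕ → List Bool → List Bool) (G : BGraph)
    (t : ℕ) (r : List Bool) : List Bool :=
  List.replicate (KN e l₀ G t) true ++
    f (redN e u l₀ G t r) (2 * t) ((r.drop (RN e l₀ G t)).take (MN e l₀ m G t))

end Pool.Agent.Lib.Pa7c826n
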