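import Pool.Agent.Lib.Pa7c826n.Base
import Pool.Agent.Lib.Pa7c826q.Ln2

/-!
`lnN k` is close to `2 ^ k log 2`; simple facts about the density `px`.

`lnN_le`, `lnN_ge`: as `mS_up`, `mS_lo` in Lib/Pa7c826q/Ln2.lean (namespace `Ln2Aux`: `part_le`,
`part_ge`), with `2 ^ (k - 1 - i) / (i + 1)` instead of `N * 2 ^ (N - 1 - k) / (k + 1)`.
`lnN_le_pow`: `log 2 < 1`. `px_le`: `lnN (Lx e l) ≤ 2 ^ Lx e l`. `Xx_le`:
`2 * Jx u l ≤ 2 * Lx e l ≤ 2 ^ Lx e l` (as `2 m ≤ 2 ^ m` for `m ≥ 1`; for `Lx e l = 0` both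
sides of the claim are easy: `Jx u l = 0`).
-/

namespace Pool.Agent.Lib.Pa7c826n

open Pool.Agent.Lib.Pa7c826q.Ln2Aux

private theorem termEq {N k : ℕ} (hk : k < N) :
    ((2 ^ (N - 1 - k) : ℕ) : ℝ) / (k + 1) = 2 ^ N * ((1 / 2 : ℝ) ^ (k + 1) / (k + 1)) := by
  have h : N = (N - 1 - k) + (k + 1) := by omega
  have e : (2 : ℝ) ^ N = 2 ^ (N - 1 - k) * 2 ^ (k + 1) := by
    rw [← pow_add, ← h]
  have e2 : (2 : ℝ) ^ (k + 1) * (1 / 2) ^ (k + 1) = 1 := by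
    rw [← mul_pow]; norm_num
  push_cast
  rw [e]
  have : ((2 : ℝ) ^ (N - 1 - k) * 2 ^ (k + 1)) * ((1 / 2) ^ (k + 1) / (k + 1))
      = 2 ^ (N - 1 - k) * (2 ^ (k + 1) * (1 / 2) ^ (k + 1)) / (k + 1) := by ring
  rw [this, e2, mul_one]

theorem lnN_le (k : ℕ) : (lnN k : ℝ) ≤ 2 ^ k * Real.log 2 := by
  have h1 : (lnN k : ℝ) ≤ ∑ i ∈ Finset.range k, 2 ^ k * ((1 / 2 : ℝ) ^ (i + 1) / (i + 1)) := by
    unfold lnN
    rw [Nat.cast_sum]
    apply Finset.sum_le_sum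
    intro i hi
    rw [← termEq (Finset.mem_range.mp hi)]
    have := @Nat.cast_div_le ℝ _ _ _ (2 ^ (k - 1 - i)) (i + 1)
    push_cast at this ⊢
    exact this
  rw [← Finset.mul_sum] at h1
  exact h1.trans (mul_le_mul_of_nonneg_left (part_le k) (by positivity))

theorem lnN_ge (k : ℕ) : 2 ^ k * Real.log 2 - (k + 1) ≤ (lnN k : ℝ) := by
  have h1 : ∑ i ∈ Finset.range k, (2 ^ k * ((1 / 2 : ℝ) ^ (i + 1) / (i + 1)) - 1) ≤
      (lnN k : ℝ) := by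
    unfold lnN
    rw [Nat.cast_sum]
    apply Finset.sum_le_sum
    intro i hi
    rw [← termEq (Finset.mem_range.mp hi)]
    have hlt := Nat.lt_div_mul_add (a := 2 ^ (k - 1 - i)) (b := i + 1) (by omega)
    have h2 : ((2 ^ (k - 1 - i) : ℕ) : ℝ) ≤
        ((2 ^ (k - 1 - i) / (i + 1) : ℕ) : ℝ) * (i + 1) + (i + 1) := by
      have := hlt.le
      exact_mod_cast this
    have hk0 : (0 : ℝ) < i + 1 := by positivity
    rw [sub_le_iff_le_add, div_le_iff₀ hk0]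
    linarith
  rw [Finset.sum_sub_distrib, ← Finset.mul_sum] at h1
  have h3 : (2 : ℝ) ^ k * Real.log 2 ≤ 2 ^ k *
      ((∑ i ∈ Finset.range k, (1 / 2 : ℝ) ^ (i + 1) / (i + 1)) + (1 / 2 : ℝ) ^ k / (k + 1)) :=
    mul_le_mul_of_nonneg_left (part_ge k) (by positivity)
  have h4 : (2 : ℝ) ^ k * ((1 / 2 : ℝ) ^ k / (k + 1)) ≤ 1 := by
    have e2 : (2 : ℝ) ^ k * (1 / 2) ^ k = 1 := by
      rw [← mul_pow]; norm_num
    have e : (2 : ℝ) ^ k * ((1 / 2 : ℝ) ^ k / (k + 1))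
        = (2 ^ k * (1 / 2 : ℝ) ^ k) / (k + 1) := by ring
    have hk : (0 : ℝ) ≤ k := Nat.cast_nonneg k
    rw [e, e2, div_le_one (by positivity)]
    linarith
  rw [mul_add] at h3
  simp only [Finset.sum_const, Finset.card_range, nsmul_eq_mul, mul_one] at h1
  linarith

theorem lnN_le_pow (k : ℕ) : lnN k ≤ 2 ^ k := by
  have h := lnN_le k
  have h2 : (2 : ℝ) ^ k * Real.log 2 ≤ 2 ^ k := by
    have h3 : Real.log 2 ≤ 1 := by
      have := Real.log_two_lt_d9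
      linarith
    have := mul_le_mul_of_nonneg_left h3 (by positivity : (0 : ℝ) ≤ 2 ^ k)
    linarith
  have h4 : (lnN k : ℝ) ≤ ((2 ^ k : ℕ) : ℝ) := by
    push_cast
    exact h.trans h2
  exact_mod_cast h4

theorem px_nonneg (e u l : ℕ) : 0 ≤ px e u l := by
  unfold px
  positivity

theorem px_le (e u l : ℕ) : px e u l ≤ 2 * Jx u l / 2 ^ Lx e l := by
  unfold px Xx
  rw [div_le_div_iff₀ (by positivity) (by positivity)]
  have h : (lnN (Lx e l) : ℝ) ≤ 2 ^ Lx e l := by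
    exact_mod_cast lnN_le_pow (Lx e l)
  have e1 : (2 : ℝ) ^ (2 * Lx e l) = 2 ^ Lx e l * 2 ^ Lx e l := by
    rw [two_mul, pow_add]
  push_cast
  rw [e1]
  have h2 : (0 : ℝ) ≤ 2 * (Jx u l : ℝ) * 2 ^ Lx e l := by positivity
  nlinarith [mul_le_mul_of_nonneg_left h h2]

theorem Xx_le {e u : ℕ} (h : u ≤ e) (l : ℕ) : Xx e u l ≤ 2 ^ (2 * Lx e l) := by
  have hJ : Jx u l ≤ Lx e l := by
    unfold Jx Lx
    exact Nat.mul_le_mul_right _ (Nat.mul_le_mul_left _ h)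
  have h1 := lnN_le_pow (Lx e l)
  unfold Xx
  rw [two_mul (Lx e l), pow_add]
  refine Nat.mul_le_mul ?_ h1
  rcases Nat.eq_zero_or_pos (Lx e l) with h0 | h0
  · have : Jx u l = 0 := by omega
    rw [this]
    simp
  · obtain ⟨m, hm⟩ : ∃ m, Lx e l = m + 1 := ⟨Lx e l - 1, by omega⟩
    have h2 : m < 2 ^ m := Nat.lt_two_pow_self
    rw [hm, pow_succ]
    omega

end Pool.Agent.Lib.Pa7c826n
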