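import Pool.Agent.Lib.Pa7c826n.Bits
import Pool.Agent.Lib.Pa7c826n.LnN

/-!
Counting the random strings on which the new machine succeeds.

Proof. `l = ll l₀ G t`, `N = 2 ^ Lx e l`, `κ = 2 * Lx e l`, `X = Xx e u l ≤ 2 ^ κ` (`Xx_le`),
`px e u l = X / 2 ^ κ`, `RN = N * N * κ`. `m' = RN + (MN + j)` for some `j`. The string
`fN … (List.ofFn r)` is `replicate KN true ++ f (redN … (List.ofFn r)) (2 t) (((List.ofFn r).drop
RN).take MN)`, and `redN e u l₀ G t r` is by definition the graph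
`join (e0 …) (fun i j => nz κ X r (i * N + j))` (`rfl`; the number `N` is written out). By
`count_bits` (with `m := MN + j` and `Q F s := Q' F (s.take MN)`,
`Q' F s := Good G t (replicate KN true ++ f (join (e0 …) F) (2 t) s)`) and `card_prefix` (Lib
Pa7c826/Transfer.lean, applied for each `F`) the fraction of good `r` is
`Ex (px e u l) (fun F => card {s : Fin MN → Bool // Q' F (List.ofFn s)} / 2 ^ MN) ≥ 7 / 10`.
-/

namespace Pool.Agent.Lib.Pa7c826n

open Pool.Agent.Lib.Pa7c826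

theorem count_fN {e u l₀ : ℕ} (hue : u ≤ e) (m : Polynomial ℕ)
    (f : BGraph → ℕ → List Bool → List Bool) (G : BGraph) (t m' : ℕ)
    (hm : RN e l₀ G t + MN e l₀ m G t ≤ m')
    (h : 7 / 10 ≤ Ex (px e u (ll l₀ G t))
      (fun F : Fin (2 ^ Lx e (ll l₀ G t)) → Fin (2 ^ Lx e (ll l₀ G t)) → Bool =>
        (Nat.card {s : Fin (MN e l₀ m G t) → Bool //
          Good G t (List.replicate (KN e l₀ G t) true ++
            f (join (fun i j => e0 G t (sx u (ll l₀ G t)) i j) F) (2 * t) (List.ofFn s))} : ℝ) /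
          2 ^ MN e l₀ m G t)) :
    7 * 2 ^ m' ≤ 10 * Nat.card {r : Fin m' → Bool //
      Good G t (fN e u l₀ m f G t (List.ofFn r))} := by
  obtain ⟨j, rfl⟩ := Nat.exists_eq_add_of_le hm
  let Q' : (Fin (2 ^ Lx e (ll l₀ G t)) → Fin (2 ^ Lx e (ll l₀ G t)) → Bool) →
      List Bool → Prop := fun F s =>
    Good G t (List.replicate (KN e l₀ G t) true ++
      f (join (fun i j => e0 G t (sx u (ll l₀ G t)) i j) F) (2 * t) s)
  have h1 := count_bits (N := 2 ^ Lx e (ll l₀ G t)) (κ := 2 * Lx e (ll l₀ G t))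
    (X := Xx e u (ll l₀ G t)) (m := MN e l₀ m G t + j) (Xx_le hue (ll l₀ G t))
    (fun F s => Q' F (s.take (MN e l₀ m G t)))
  have h2 : ∀ F, (Nat.card {s : Fin (MN e l₀ m G t + j) → Bool //
      Q' F ((List.ofFn s).take (MN e l₀ m G t))} : ℝ) / 2 ^ (MN e l₀ m G t + j) =
      (Nat.card {s : Fin (MN e l₀ m G t) → Bool // Q' F (List.ofFn s)} : ℝ) /
        2 ^ MN e l₀ m G t := by
    intro F
    rw [card_prefix (MN e l₀ m G t) j (Q' F), pow_add]
    push_cast
    have h3 : (2 : ℝ) ^ j ≠ 0 := by positivity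
    rw [mul_div_mul_right _ _ h3]
  simp only [h2] at h1
  have h4 : 7 / 10 ≤ (Nat.card {r : Fin (RN e l₀ G t + (MN e l₀ m G t + j)) → Bool //
      Good G t (fN e u l₀ m f G t (List.ofFn r))} : ℝ) /
      2 ^ (RN e l₀ G t + (MN e l₀ m G t + j)) := by
    refine le_trans h (le_of_eq ?_)
    exact h1.symm
  have h5 : (0 : ℝ) < 2 ^ (RN e l₀ G t + (MN e l₀ m G t + j)) := by positivity
  rw [le_div_iff₀ h5] at h4
  rw [add_assoc]
  have h6 : (7 * 2 ^ (RN e l₀ G t + (MN e l₀ m G t + j)) : ℝ) ≤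
      10 * (Nat.card {r : Fin (RN e l₀ G t + (MN e l₀ m G t + j)) → Bool //
        Good G t (fN e u l₀ m f G t (List.ofFn r))} : ℝ) := by linarith
  exact_mod_cast h6

end Pool.Agent.Lib.Pa7c826n
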