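import Pool.Agent.Lib.Pa7c826n.Defs

/-!
Product formulas for the random pairs.

`wt` is the weight of a product measure. Write `c p x = if x = true then p else 1 - p`.
`Ex_rows`: `wt p F * ∏ i, h i (F i) = ∏ i, ((∏ j, c p (F i j)) * h i (F i))` and
`Fintype.prod_sum` / `Finset.prod_univ_sum` (with `Fintype.piFinset_univ`) for functions
`F : α → (β → Bool)`.
`Ex_prod`: the same once more inside every row (`Finset.prod_univ_sum` for `β → Bool`, and
`Fintype.sum_bool`).
`sum_wt`: `Ex_prod` with `g = 1`. `Ex_empty`: the indicator is the product over all `(i, j)` of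
`if (i, j) ∈ Q ∧ x = true then 0 else 1`; the factor of the pair is `1 - p` for `(i, j) ∈ Q` and
`1` otherwise, so the product is `(1 - p) ^ Q.card` (`Finset.prod_ite_mem` after
`Fintype.prod_prod_type'`). `Ex_rect`: `Q = S ×ˢ T`. The others are immediate.
-/

namespace Pool.Agent.Lib.Pa7c826n

variable {α β : Type} [Fintype α] [Fintype β] [DecidableEq α] [DecidableEq β] {p : ℝ}

theorem wt_nonneg (h0 : 0 ≤ p) (h1 : p ≤ 1) (F : α → β → Bool) : 0 ≤ wt p F := by
  refine Finset.prod_nonneg fun i _ => Finset.prod_nonneg fun j _ => ?_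
  split
  · exact h0
  · linarith

theorem Ex_rows (p : ℝ) (h : α → (β → Bool) → ℝ) :
    Ex p (fun F : α → β → Bool => ∏ i, h i (F i)) =
      ∏ i, ∑ x : β → Bool, (∏ j, if x j = true then p else 1 - p) * h i x := by
  unfold Ex wt
  rw [Finset.prod_univ_sum, Fintype.piFinset_univ]
  refine Finset.sum_congr rfl fun F _ => ?_
  rw [← Finset.prod_mul_distrib]

theorem Ex_prod (p : ℝ) (g : α → β → Bool → ℝ) :
    Ex p (fun F : α → β → Bool => ∏ i, ∏ j, g i j (F i j)) =
      ∏ i, ∏ j, (p * g i j true + (1 - p) * g i j false) := by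
  rw [Ex_rows p (fun i (x : β → Bool) => ∏ j, g i j (x j))]
  refine Finset.prod_congr rfl fun i _ => ?_
  have h1 : ∀ j, p * g i j true + (1 - p) * g i j false =
      ∑ b : Bool, (if b = true then p else 1 - p) * g i j b := by
    intro j
    rw [Fintype.sum_bool]
    simp
  simp only [h1]
  rw [Finset.prod_univ_sum, Fintype.piFinset_univ]
  refine Finset.sum_congr rfl fun x _ => ?_
  rw [← Finset.prod_mul_distrib]

theorem sum_wt (p : ℝ) : ∑ F : α → β → Bool, wt p F = 1 := by
  have h := Ex_prod (α := α) (β := β) p (fun _ _ _ => 1)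
  simpa [Ex] using h

theorem Ex_const (p c : ℝ) : Ex p (fun _ : α → β → Bool => c) = c := by
  unfold Ex
  rw [← Finset.sum_mul, sum_wt, one_mul]

theorem Ex_add (p : ℝ) (f g : (α → β → Bool) → ℝ) :
    Ex p (fun F => f F + g F) = Ex p f + Ex p g := by
  unfold Ex
  rw [← Finset.sum_add_distrib]
  exact Finset.sum_congr rfl fun F _ => by ring

theorem Ex_sub (p : ℝ) (f g : (α → β → Bool) → ℝ) :
    Ex p (fun F => f F - g F) = Ex p f - Ex p g := by
  unfold Ex
  rw [← Finset.sum_sub_distrib]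
  exact Finset.sum_congr rfl fun F _ => by ring

theorem Ex_mul (p c : ℝ) (f : (α → β → Bool) → ℝ) :
    Ex p (fun F => c * f F) = c * Ex p f := by
  unfold Ex
  rw [Finset.mul_sum]
  exact Finset.sum_congr rfl fun F _ => by ring

theorem Ex_sum {ι : Type} (p : ℝ) (s : Finset ι) (f : ι → (α → β → Bool) → ℝ) :
    Ex p (fun F => ∑ i ∈ s, f i F) = ∑ i ∈ s, Ex p (f i) := by
  unfold Ex
  rw [Finset.sum_comm]
  exact Finset.sum_congr rfl fun F _ => by rw [Finset.mul_sum]

theorem Ex_mono (h0 : 0 ≤ p) (h1 : p ≤ 1) {f g : (α → β → Bool) → ℝ} (h : ∀ F, f F ≤ g F) :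
    Ex p f ≤ Ex p g := by
  unfold Ex
  exact Finset.sum_le_sum fun F _ => mul_le_mul_of_nonneg_left (h F) (wt_nonneg h0 h1 F)

open Classical in
theorem Ex_empty (p : ℝ) (Q : Finset (α × β)) :
    Ex p (fun F : α → β → Bool => if ∀ e ∈ Q, F e.1 e.2 = false then 1 else 0) =
      (1 - p) ^ Q.card := by
  have h1 : (fun F : α → β → Bool => if ∀ e ∈ Q, F e.1 e.2 = false then (1 : ℝ) else 0) =
      fun F => ∏ i, ∏ j, (if (i, j) ∈ Q ∧ F i j = true then (0 : ℝ) else 1) := by
    funext F
    by_cases h : ∀ e ∈ Q, F e.1 e.2 = false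
    · rw [if_pos h]
      symm
      refine Finset.prod_eq_one fun i _ => Finset.prod_eq_one fun j _ => ?_
      rw [if_neg]
      rintro ⟨h2, h3⟩
      have h4 := h (i, j) h2
      simp only at h4
      rw [h4] at h3
      exact Bool.false_ne_true h3
    · rw [if_neg h]
      push Not at h
      obtain ⟨e, he, hF⟩ := h
      symm
      refine Finset.prod_eq_zero (Finset.mem_univ e.1) (Finset.prod_eq_zero
        (Finset.mem_univ e.2) ?_)
      rw [if_pos]
      exact ⟨he, by simpa using hF⟩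
  rw [h1, Ex_prod p (fun i j b => if (i, j) ∈ Q ∧ b = true then (0 : ℝ) else 1)]
  have h2 : ∀ i : α, ∀ j : β, (p * (if (i, j) ∈ Q ∧ true = true then (0 : ℝ) else 1) +
      (1 - p) * (if (i, j) ∈ Q ∧ false = true then (0 : ℝ) else 1)) =
      if (i, j) ∈ Q then 1 - p else 1 := by
    intro i j
    by_cases h : (i, j) ∈ Q <;> simp [h]
  rw [Finset.prod_congr rfl (fun i _ => Finset.prod_congr rfl (fun j _ => h2 i j))]
  have h3 := Fintype.prod_prod_type' (fun (i : α) (j : β) => if (i, j) ∈ Q then 1 - p else 1)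
  rw [← h3]
  have h4 : ∏ x : α × β, (if (x.1, x.2) ∈ Q then 1 - p else 1) = ∏ x ∈ Q, (1 - p) := by
    rw [Finset.prod_ite_mem, Finset.univ_inter]
  rw [h4, Finset.prod_const]

open Classical in
theorem Ex_rect (p : ℝ) (S : Finset α) (T : Finset β) :
    Ex p (fun F : α → β → Bool => if ∀ i ∈ S, ∀ j ∈ T, F i j = false then 1 else 0) =
      (1 - p) ^ (S.card * T.card) := by
  have h := Ex_empty (α := α) (β := β) p (S ×ˢ T)
  rw [Finset.card_product] at h
  rw [← h]
  congr 1
  funext F
  have h1 : (∀ e ∈ S ×ˢ T, F e.1 e.2 = false) ↔ ∀ i ∈ S, ∀ j ∈ T, F i j = false := by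
    constructor
    · intro h2 i hi j hj
      exact h2 (i, j) (Finset.mk_mem_product hi hj)
    · intro h2 e he
      rw [Finset.mem_product] at he
      exact h2 e.1 he.1 e.2 he.2
  simp only [h1]

end Pool.Agent.Lib.Pa7c826n
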