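import Pool.Agent.Lib.Pa7c826n.Base

/-!
The normalised number of independent sets of the given graph.

Proof. `ZB` of the adjacency `G.E` is `∑_A (1 / 2) ^ nbA = (number of independent sets) / 2 ^ b`, by
`card_Ind_eq` and `sum_fam` (Lib/Pa7c826y). The sets of vertices of `Fin (a + t + 4)` are the
disjoint unions of a subset `A` of the first `a` vertices and one of the `2 ^ (t + 4)` sets of the
other vertices, which have no neighbours (`BGraph.F` is `false` there): `nbA (MG G t)` depends on `A`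
only (`BGraph.F_eq`).
-/

namespace Pool.Agent.Lib.Pa7c826n

open Pool.Agent.Lib.Pa7c826 Pool.Agent.Lib.Pa7c826y Finset

namespace HZBAux

/-- subsets of the vertices as pairs of subsets -/
def eqv (a t : ℕ) : Finset (Fin a) × Finset (Fin (t + 4)) ≃ Finset (Fin (a + t + 4)) :=
  (Finset.sumEquiv (α := Fin a) (β := Fin (t + 4))).symm.toEquiv.trans
    (Equiv.finsetCongr (finSumFinEquiv.trans (finCongr (by omega))))

theorem mem_eqv {a t : ℕ} (S : Finset (Fin a)) (R : Finset (Fin (t + 4)))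
    (u : Fin (a + t + 4)) : u ∈ eqv a t (S, R) ↔
      (∃ i ∈ S, (u : ℕ) = i) ∨ ∃ k ∈ R, (u : ℕ) = a + k := by
  unfold eqv
  simp only [Equiv.trans_apply, Equiv.finsetCongr_apply, Finset.mem_map, OrderIso.toEquiv_symm]
  constructor
  · rintro ⟨x, hx, rfl⟩
    rcases x with i | k
    · left
      refine ⟨i, ?_, ?_⟩
      · simpa [Finset.sumEquiv] using hx
      · simp
    · right
      refine ⟨k, ?_, ?_⟩
      · simpa [Finset.sumEquiv] using hx
      · simp
  · rintro (⟨i, hi, h⟩ | ⟨k, hk, h⟩)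
    · refine ⟨Sum.inl i, ?_, ?_⟩
      · simpa [Finset.sumEquiv] using hi
      · exact Fin.ext (by simp [h])
    · refine ⟨Sum.inr k, ?_, ?_⟩
      · simpa [Finset.sumEquiv] using hk
      · exact Fin.ext (by simp [h])

theorem nbA_eqv (G : BGraph) (t : ℕ) (S : Finset (Fin G.a)) (R : Finset (Fin (t + 4))) :
    nbA (MG G t) (eqv G.a t (S, R)) = (nb G.E S).card := by
  unfold nbA nb
  congr 1
  ext j
  simp only [Finset.mem_filter, Finset.mem_univ, true_and]
  constructor
  · rintro ⟨u, hu, h⟩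
    rw [mem_eqv] at hu
    unfold MG at h
    rcases hu with ⟨i, hi, hui⟩ | ⟨k, hk, huk⟩
    · rw [hui, G.F_eq] at h
      exact ⟨i, hi, h⟩
    · exfalso
      unfold BGraph.F at h
      rw [dif_neg] at h
      · exact Bool.false_ne_true h
      · rintro ⟨h1, -⟩
        omega
  · rintro ⟨i, hi, h⟩
    refine ⟨⟨i, by have := i.2; omega⟩, ?_, ?_⟩
    · rw [mem_eqv]
      exact Or.inl ⟨i, hi, rfl⟩
    · unfold MG
      show G.F (i : ℕ) j = true
      rw [G.F_eq]
      exact h

theorem numIndep_eq (G : BGraph) :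
    (numIndep G.graph : ℝ) = 2 ^ G.b * ∑ S : Finset (Fin G.a), (1 / 2 : ℝ) ^ (nb G.E S).card := by
  have h1 := sum_fam G.E (Finset.univ : Finset (Finset (Fin G.a)))
  have h2 : ((Ind G.E).filter fun P => P.1 ∈ (Finset.univ : Finset (Finset (Fin G.a)))) =
      Ind G.E := by
    simp
  rw [h2, card_Ind_eq] at h1
  rw [← h1]
  push_cast
  rw [Finset.mul_sum]
  refine Finset.sum_congr rfl fun S _ => ?_
  have h3 : ((nb G.E S)ᶜ).card + (nb G.E S).card = G.b := by
    have := Finset.card_compl_add_card (nb G.E S)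
    rwa [Fintype.card_fin] at this
  have h4 : (2 : ℝ) ^ G.b = 2 ^ ((nb G.E S)ᶜ).card * 2 ^ (nb G.E S).card := by
    rw [← pow_add]
    exact congrArg (fun m => (2 : ℝ) ^ m) h3.symm
  rw [h4, mul_assoc, ← mul_pow]
  norm_num

end HZBAux

open HZBAux in
theorem ZB_MG (G : BGraph) (t : ℕ) :
    ZB (MG G t) = 2 ^ (t + 4) * numIndep G.graph / 2 ^ G.b := by
  have h1 : ZB (MG G t) = ∑ P : Finset (Fin G.a) × Finset (Fin (t + 4)),
      (1 / 2 : ℝ) ^ nbA (MG G t) (eqv G.a t P) := by
    unfold ZB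
    exact (Equiv.sum_comp (eqv G.a t) (fun A => (1 / 2 : ℝ) ^ nbA (MG G t) A)).symm
  rw [h1, Fintype.sum_prod_type]
  simp only [nbA_eqv]
  simp only [Finset.sum_const, Finset.card_univ, Fintype.card_finset, Fintype.card_fin,
    nsmul_eq_mul]
  rw [← Finset.mul_sum, numIndep_eq]
  have h2 : (2 : ℝ) ^ G.b ≠ 0 := by positivity
  push_cast
  field_simp

open HZBAux in
theorem two_pow_le_numIndep (G : BGraph) : (2 : ℝ) ^ G.b ≤ numIndep G.graph := by
  rw [numIndep_eq]
  have h1 : (1 : ℝ) ≤ ∑ S : Finset (Fin G.a), (1 / 2 : ℝ) ^ (nb G.E S).card := by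
    have h2 : (1 / 2 : ℝ) ^ (nb G.E (∅ : Finset (Fin G.a))).card = 1 := by
      have : nb G.E (∅ : Finset (Fin G.a)) = ∅ := by
        unfold nb
        simp
      rw [this]
      simp
    have h4 := Finset.single_le_sum (f := fun S : Finset (Fin G.a) =>
      (1 / 2 : ℝ) ^ (nb G.E S).card) (fun S _ => by positivity)
      (Finset.mem_univ (∅ : Finset (Fin G.a)))
    linarith
  have h3 : (0 : ℝ) < 2 ^ G.b := by positivity
  nlinarith

end Pool.Agent.Lib.Pa7c826n
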