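import Pool.Agent.Lib.Pa7c826n.Base

/-!
The sum over sets of clones with disjoint neighbourhoods is a product over vertices.

`sum_over`: for weights `w` of the clones and a set `A` of vertices, the sum of `∏_{v ∈ X} w v` over
the sets `X` with `prA X = A` is `∏_{u ∈ A} (∏_i (1 + w (u, i)) - 1)`. Proof: the sum `G A` of the
left sides over all `A' ⊆ A` is the sum over all `X ⊆ A × Fin s`, which is
`∏_{u ∈ A} ∏_i (1 + w (u, i))` (`Finset.prod_one_add` or `Finset.prod_add`, `Finset.prod_product`);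
the same sum of the right sides is `∏_{u ∈ A} (1 + (∏_i (1 + w (u, i)) - 1))` by the same
formula. By strong induction on `A` the summands agree.
`Lp_eq`: `(1 / 2) ^ (∑ v ∈ X, dgc F v) = ∏ v ∈ X, (1 / 2) ^ dgc F v`; group the `X` by
`prA X` (`Finset.sum_fiberwise`), then `sum_over`.
`Lp_le_Yp`: `dgs F X ≤ ∑ v ∈ X, dgc F v` (`Finset.card_biUnion_le`).
`Lp_lower`, `Lp_upper`: `1 - ε ≤ Pu F u - 1 ≤ 1 + ε`, `A.card ≤ a`.
-/

namespace Pool.Agent.Lib.Pa7c826n

open Finset

variable {a s n b : ℕ}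

theorem sum_over (w : Fin a × Fin s → ℝ) (A : Finset (Fin a)) :
    ∑ X ∈ (univ : Finset (Finset (Fin a × Fin s))).filter (fun X => prA X = A), ∏ v ∈ X, w v =
      ∏ u ∈ A, (∏ i : Fin s, (1 + w (u, i)) - 1) := by
  induction A using Finset.strongInduction with
  | H A ih =>
    have h1 : ∑ A' ∈ A.powerset,
        ∑ X ∈ (univ : Finset (Finset (Fin a × Fin s))).filter (fun X => prA X = A'),
          ∏ v ∈ X, w v = ∏ u ∈ A, ∏ i : Fin s, (1 + w (u, i)) := by
      have e1 : ∏ u ∈ A, ∏ i : Fin s, (1 + w (u, i)) =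
          ∏ v ∈ A ×ˢ (univ : Finset (Fin s)), (1 + w v) := by
        rw [Finset.prod_product]
      rw [e1, Finset.prod_one_add, ← Finset.sum_fiberwise_of_maps_to (s := (A ×ˢ (univ : Finset (Fin s))).powerset) (t := A.powerset) (g := fun X => prA X)]
      · refine Finset.sum_congr rfl fun A' hA' => ?_
        refine Finset.sum_congr ?_ fun _ _ => rfl
        ext X
        simp only [Finset.mem_filter, Finset.mem_univ, true_and, Finset.mem_powerset]
        constructor
        · intro h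
          refine ⟨?_, h⟩
          intro v hv
          rw [Finset.mem_product]
          refine ⟨Finset.mem_powerset.mp hA' ?_, Finset.mem_univ _⟩
          rw [← h]
          exact Finset.mem_image_of_mem _ hv
        · intro h
          exact h.2
      · intro X hX
        rw [Finset.mem_powerset] at hX ⊢
        intro u hu
        obtain ⟨v, hv, rfl⟩ := Finset.mem_image.mp hu
        exact (Finset.mem_product.mp (hX hv)).1
    have h2 : ∑ A' ∈ A.powerset, ∏ u ∈ A', (∏ i : Fin s, (1 + w (u, i)) - 1) =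
        ∏ u ∈ A, ∏ i : Fin s, (1 + w (u, i)) := by
      rw [← Finset.prod_one_add]
      refine Finset.prod_congr rfl fun u _ => ?_
      ring
    have h3 := h1.trans h2.symm
    rw [← Finset.add_sum_erase _ _ (Finset.mem_powerset_self A),
      ← Finset.add_sum_erase _ (fun A' => ∏ u ∈ A', (∏ i : Fin s, (1 + w (u, i)) - 1))
        (Finset.mem_powerset_self A)] at h3
    have h4 : ∑ A' ∈ A.powerset.erase A,
        ∑ X ∈ (univ : Finset (Finset (Fin a × Fin s))).filter (fun X => prA X = A'),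
          ∏ v ∈ X, w v =
        ∑ A' ∈ A.powerset.erase A, ∏ u ∈ A', (∏ i : Fin s, (1 + w (u, i)) - 1) := by
      refine Finset.sum_congr rfl fun A' hA' => ?_
      rw [Finset.mem_erase, Finset.mem_powerset] at hA'
      exact ih A' (Finset.ssubset_iff_subset_ne.mpr ⟨hA'.2, hA'.1⟩)
    rw [h4] at h3
    exact add_right_cancel h3

theorem Lp_eq (M : Fin a → Fin b → Bool) (F : Fin a × Fin s → Fin n → Bool) :
    Lp M F = ∑ A : Finset (Fin a), (1 / 2) ^ nbA M A * ∏ u ∈ A, (Pu F u - 1) := by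
  unfold Lp
  rw [← Finset.sum_fiberwise (univ : Finset (Finset (Fin a × Fin s))) prA]
  refine Finset.sum_congr rfl fun A _ => ?_
  have h := sum_over (fun v : Fin a × Fin s => (1 / 2 : ℝ) ^ dgc F v) A
  have h' : ∏ u ∈ A, (Pu F u - 1) =
      ∏ u ∈ A, (∏ i : Fin s, (1 + (1 / 2 : ℝ) ^ dgc F (u, i)) - 1) := rfl
  rw [h', ← h, Finset.mul_sum]
  refine Finset.sum_congr rfl fun X hX => ?_
  rw [(Finset.mem_filter.mp hX).2, Finset.prod_pow_eq_pow_sum, mul_comm]

theorem Lp_le_Yp (M : Fin a → Fin b → Bool) (F : Fin a × Fin s → Fin n → Bool) :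
    Lp M F ≤ Yp M F := by
  unfold Lp Yp
  refine Finset.sum_le_sum fun X _ => ?_
  refine mul_le_mul_of_nonneg_right ?_ (by positivity)
  refine pow_le_pow_of_le_one (by norm_num) (by norm_num) ?_
  unfold dgs dgc
  have h : (univ.filter fun w => ∃ v ∈ X, F v w = true) =
      X.biUnion (fun v => univ.filter fun w => F v w = true) := by
    ext w
    simp
  rw [h]
  exact Finset.card_biUnion_le

theorem Lp_lower {M : Fin a → Fin b → Bool} {F : Fin a × Fin s → Fin n → Bool} {ε : ℝ}
    (h0 : 0 ≤ ε) (h1 : ε ≤ 1) (h : ∀ u, |Pu F u - 2| ≤ ε) : (1 - ε) ^ a * ZB M ≤ Lp M F := by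
  rw [Lp_eq]
  unfold ZB
  rw [Finset.mul_sum]
  refine Finset.sum_le_sum fun A _ => ?_
  rw [mul_comm]
  refine mul_le_mul_of_nonneg_left ?_ (by positivity)
  have hA : A.card ≤ a := by
    simpa using Finset.card_le_univ A
  calc (1 - ε) ^ a ≤ (1 - ε) ^ A.card := pow_le_pow_of_le_one (by linarith) (by linarith) hA
    _ = ∏ u ∈ A, (1 - ε) := by rw [Finset.prod_const]
    _ ≤ ∏ u ∈ A, (Pu F u - 1) := by
      refine Finset.prod_le_prod (fun u _ => by linarith) fun u _ => ?_
      have := abs_le.mp (h u)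
      linarith [this.1]

theorem Lp_upper {M : Fin a → Fin b → Bool} {F : Fin a × Fin s → Fin n → Bool} {ε : ℝ}
    (h0 : 0 ≤ ε) (h1 : ε ≤ 1) (h : ∀ u, |Pu F u - 2| ≤ ε) : Lp M F ≤ (1 + ε) ^ a * ZB M := by
  rw [Lp_eq]
  unfold ZB
  rw [Finset.mul_sum]
  refine Finset.sum_le_sum fun A _ => ?_
  rw [mul_comm ((1 + ε) ^ a)]
  refine mul_le_mul_of_nonneg_left ?_ (by positivity)
  have hA : A.card ≤ a := by
    simpa using Finset.card_le_univ A
  calc ∏ u ∈ A, (Pu F u - 1) ≤ ∏ u ∈ A, (1 + ε) := by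
        refine Finset.prod_le_prod (fun u _ => ?_) fun u _ => ?_
        · have := abs_le.mp (h u)
          linarith [this.1]
        · have := abs_le.mp (h u)
          linarith [this.2]
    _ = (1 + ε) ^ A.card := by rw [Finset.prod_const]
    _ ≤ (1 + ε) ^ a := pow_le_pow_right₀ (by linarith) hA

theorem one_le_ZB (M : Fin a → Fin b → Bool) : 1 ≤ ZB M := by
  unfold ZB
  have h : (1 / 2 : ℝ) ^ nbA M (∅ : Finset (Fin a)) = 1 := by
    simp [nbA]
  refine le_trans (le_of_eq h.symm) ?_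
  exact Finset.single_le_sum (f := fun A : Finset (Fin a) => (1 / 2 : ℝ) ^ nbA M A)
    (fun A _ => by positivity) (Finset.mem_univ ∅)

end Pool.Agent.Lib.Pa7c826n
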