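import Pool.Agent.Lib.Pa7c826n.HCount
import Pool.Agent.Lib.Pa7c826n.HZB
import Pool.Agent.Lib.Pa7c826n.WLin

/-!
The new graph gives the number of independent sets of the given graph.

Proof. `n₁ = nn G t = a + b + t + 16`, `a' = a + t + 4 ≤ n₁`, `Z = ZB (MG G t) =
2 ^ (t + 4) i(G) / 2 ^ b ≥ 2 ^ (t + 4)`, `H` the new graph, `Y = Yp`, `K = N - b + (t + 4)`.
`count_join` (its hypotheses on `e0`: for a clone `cl v` the index is `v.1 * s + v.2 < a' s`, with
quotient `v.1` by `s`): `i(H) / 2 ^ N = Y + 1 - 2 ^ (a' s) / 2 ^ N`, which lies between `Y` and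
`Y + 1`. `i(H) / 2 ^ K = (i(H) / 2 ^ N) 2 ^ b / 2 ^ (t + 4) = (i(H) / 2 ^ N) i(G) / Z`. With
`ε = 1 / (16 n₁ ^ 2)`: `(1 - ε) ^ a' Z ≤ Lp ≤ Y ≤ Lp + Z / (8 n₁) ≤ ((1 + ε) ^ a' + 1 / (8 n₁)) Z`,
`(1 + ε) ^ a' ≤ 1 + 2 a' ε ≤ 1 + 1 / (8 n₁)`, `(1 - ε) ^ a' ≥ 1 - a' ε`. Hence
`|i(H) / 2 ^ N - Z| ≤ Z (1 / (8 n₁) + 1 / (8 n₁)) + 1 ≤ Z (1 / (4 n₁) + 1 / 2 ^ (t + 4))` and
`1 / (4 n₁) + 1 / 2 ^ (t + 4) ≤ 1 / (4 (t + 16)) + 1 / (16 (t + 1)) ≤ 1 / (2 t + 1)`.
-/

namespace Pool.Agent.Lib.Pa7c826n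

open Pool.Agent.Lib.Pa7c826 Finset

namespace HGoodAux

theorem idx {N a s : ℕ} (has : a * s ≤ N) (v : Fin a × Fin s) :
    ((cl has v : Fin N) : ℕ) < a * s ∧ ((cl has v : Fin N) : ℕ) / s = v.1 := by
  have h1 := v.1.2
  have h2 := v.2.2
  have h3 : ((v.1 : ℕ) + 1) * s ≤ a * s := Nat.mul_le_mul_right _ h1
  rw [Nat.succ_mul] at h3
  have hs : 0 < s := by omega
  have e : ((cl has v : Fin N) : ℕ) = v.1 * s + v.2 := rfl
  refine ⟨by omega, ?_⟩
  rw [e, mul_comm, Nat.mul_add_div hs, Nat.div_eq_of_lt h2, add_zero]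

theorem exp_le {x : ℝ} (h0 : 0 ≤ x) (h1 : x ≤ 1 / 2) : Real.exp x ≤ 1 + 2 * x := by
  have h := Real.exp_bound_div_one_sub_of_interval (x := x) h0 (by linarith)
  refine h.trans ?_
  rw [div_le_iff₀ (by linarith)]
  nlinarith

theorem main_num {Z L Y n c : ℝ} {a t : ℕ} {q : ℝ} (hn : (a : ℝ) ≤ n) (hnt : (t : ℝ) + 16 ≤ n)
    (hZ : 2 ^ (t + 4) ≤ Z) (hL1 : (1 - 1 / (16 * n ^ 2)) ^ a * Z ≤ L)
    (hL2 : L ≤ (1 + 1 / (16 * n ^ 2)) ^ a * Z) (hLY : L ≤ Y) (hY : Y - L ≤ 1 / (8 * n) * Z)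
    (hq0 : 0 ≤ q) (hq1 : q ≤ 1) (hc : 0 < c) :
    |(Y + 1 - q) * c - Z * c| ≤ Z * c / (2 * t + 1) := by
  have ht : (0 : ℝ) ≤ t := Nat.cast_nonneg t
  have hn0 : 0 < n := by linarith
  have hZ0 : 0 < Z := lt_of_lt_of_le (by positivity) hZ
  have he : (a : ℝ) * (1 / (16 * n ^ 2)) ≤ 1 / (16 * n) := by
    rw [mul_one_div, div_le_div_iff₀ (by positivity) (by positivity)]
    nlinarith
  have hn16 : 1 / (16 * n) ≤ 1 / 2 := by
    rw [div_le_div_iff₀ (by positivity) (by positivity)]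
    linarith
  have hlow : 1 - 1 / (16 * n) ≤ (1 - 1 / (16 * n ^ 2)) ^ a := by
    have h1 : 1 / (16 * n ^ 2) ≤ 1 := by
      rw [div_le_one (by positivity)]
      nlinarith
    have h2 := one_add_mul_le_pow (a := -(1 / (16 * n ^ 2))) (by linarith) a
    have h3 : (1 - 1 / (16 * n ^ 2)) ^ a = (1 + -(1 / (16 * n ^ 2))) ^ a := by ring
    rw [h3]
    refine le_trans ?_ h2
    linarith
  have hup : (1 + 1 / (16 * n ^ 2)) ^ a ≤ 1 + 1 / (8 * n) := by
    have h0 : 0 ≤ 1 / (16 * n ^ 2) := by positivity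
    have h1 : (1 + 1 / (16 * n ^ 2)) ^ a ≤ Real.exp (a * (1 / (16 * n ^ 2))) := by
      rw [Real.exp_nat_mul]
      exact pow_le_pow_left₀ (by linarith) (by linarith [Real.add_one_le_exp (1 / (16 * n ^ 2))]) a
    have h2 := exp_le (x := a * (1 / (16 * n ^ 2))) (by positivity) (by linarith)
    have h3 : 2 * (1 / (16 * n)) = 1 / (8 * n) := by
      field_simp
      norm_num
    linarith
  have hd : 1 / (16 * n) ≤ 1 / (8 * n) := by
    rw [div_le_div_iff₀ (by positivity) (by positivity)]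
    linarith
  have hYup : Y ≤ (1 + 1 / (8 * n) + 1 / (8 * n)) * Z := by
    have := mul_le_mul_of_nonneg_right hup hZ0.le
    nlinarith
  have hYlow : (1 - 1 / (8 * n)) * Z ≤ Y := by
    have := mul_le_mul_of_nonneg_right (hd.trans' (le_refl _)) hZ0.le
    have h2 := mul_le_mul_of_nonneg_right hlow hZ0.le
    nlinarith
  have h1Z : (1 : ℝ) ≤ 1 / 2 ^ (t + 4) * Z := by
    rw [one_div, ← div_eq_inv_mul, le_div_iff₀ (by positivity)]
    linarith
  have h8 : 1 / (8 * n) + 1 / (8 * n) = 1 / (4 * n) := by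
    field_simp
    norm_num
  have hfin : 1 / (4 * n) + 1 / 2 ^ (t + 4) ≤ 1 / (2 * (t : ℝ) + 1) := by
    have e1 : 1 / (4 * n) ≤ 1 / (4 * ((t : ℝ) + 16)) := by
      rw [div_le_div_iff₀ (by positivity) (by positivity)]
      linarith
    have e2 : (1 : ℝ) / 2 ^ (t + 4) ≤ 1 / (16 * ((t : ℝ) + 1)) := by
      have e3 : ((t : ℝ) + 1) ≤ 2 ^ t := by
        have : t + 1 ≤ 2 ^ t := Nat.lt_two_pow_self
        exact_mod_cast this
      rw [div_le_div_iff₀ (by positivity) (by positivity), pow_add]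
      nlinarith
    have e4 : 1 / (4 * ((t : ℝ) + 16)) + 1 / (16 * ((t : ℝ) + 1)) ≤ 1 / (2 * (t : ℝ) + 1) := by
      rw [div_add_div _ _ (by positivity) (by positivity),
        div_le_div_iff₀ (by positivity) (by positivity)]
      nlinarith [mul_nonneg ht ht]
    linarith
  have hkey : |Y + 1 - q - Z| ≤ Z / (2 * t + 1) := by
    have h5 : (1 / (4 * n) + 1 / 2 ^ (t + 4)) * Z ≤ 1 / (2 * (t : ℝ) + 1) * Z :=
      mul_le_mul_of_nonneg_right hfin hZ0.le
    have h6 : 1 / (2 * (t : ℝ) + 1) * Z = Z / (2 * t + 1) := by ring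
    have h7 : 0 ≤ 1 / 2 ^ (t + 4) * Z := by positivity
    have h9 : 1 / (8 * n) * Z ≤ 1 / (4 * n) * Z := by
      rw [← h8]
      have : 0 ≤ 1 / (8 * n) * Z := by positivity
      linarith [add_mul (1 / (8 * n)) (1 / (8 * n)) Z]
    rw [abs_le]
    constructor
    · nlinarith
    · have : (1 + 1 / (8 * n) + 1 / (8 * n)) * Z = Z + 1 / (4 * n) * Z := by
        rw [← h8]
        ring
      nlinarith
  have h10 : (Y + 1 - q) * c - Z * c = (Y + 1 - q - Z) * c := by ring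
  rw [h10, abs_mul, abs_of_pos hc]
  have := mul_le_mul_of_nonneg_right hkey hc.le
  calc |Y + 1 - q - Z| * c ≤ Z / (2 * t + 1) * c := this
    _ = Z * c / (2 * t + 1) := by ring

end HGoodAux

open HGoodAux in
theorem good_of {G : BGraph} {t N s : ℕ} (has : (G.a + t + 4) * s ≤ N) (hb : G.b ≤ N)
    (F : Fin N → Fin N → Bool)
    (h1 : ∀ (v : Fin (G.a + t + 4) × Fin s) (j : Fin N), (j : ℕ) < G.b → F (cl has v) j = false)
    (h2 : ∀ u, |Pu (res has hb F) u - 2| ≤ 1 / (16 * (nn G t : ℝ) ^ 2))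
    (h3 : Yp (MG G t) (res has hb F) - Lp (MG G t) (res has hb F) ≤
      1 / (8 * (nn G t : ℝ)) * ZB (MG G t)) :
    |(numIndep (join (fun i j : Fin N => e0 G t s i j) F).graph : ℝ) / 2 ^ (N - G.b + (t + 4)) -
      numIndep G.graph| ≤ numIndep G.graph / (2 * t + 1) := by
  have hcount := count_join has hb (MG G t) (fun i j : Fin N => e0 G t s i j) F
    (fun v j => by
      obtain ⟨i1, i2⟩ := idx has v
      simp only [e0, MG]
      rw [if_pos (by simpa using i1), i2]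
      split_ifs with h
      · rfl
      · simp only [BGraph.F]
        rw [dif_neg]
        intro hh
        exact h hh.2)
    (fun i j hi => by
      simp only [e0]
      rw [if_neg]
      simpa using hi) h1
  have hnn : (16 : ℝ) ≤ (nn G t : ℝ) := by
    have : 16 ≤ nn G t := by
      unfold nn
      omega
    exact_mod_cast this
  have he1 : (1 : ℝ) / (16 * (nn G t : ℝ) ^ 2) ≤ 1 := by
    rw [div_le_one (by positivity)]
    nlinarith
  have hL1 := Lp_lower (M := MG G t) (F := res has hb F) (by positivity) he1 h2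
  have hL2 := Lp_upper (M := MG G t) (F := res has hb F) (by positivity) he1 h2
  have hLY := Lp_le_Yp (MG G t) (res has hb F)
  have hZ := ZB_MG G t
  have hG := two_pow_le_numIndep G
  set c : ℝ := 2 ^ G.b / 2 ^ (t + 4) with hc
  have hc0 : 0 < c := by positivity
  have hZc : ZB (MG G t) * c = numIndep G.graph := by
    rw [hZ, hc]
    field_simp
  have hZ4 : (2 : ℝ) ^ (t + 4) ≤ ZB (MG G t) := by
    rw [hZ, le_div_iff₀ (by positivity)]
    exact mul_le_mul_of_nonneg_left hG (by positivity)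
  have hH : (numIndep (join (fun i j : Fin N => e0 G t s i j) F).graph : ℝ) /
      2 ^ (N - G.b + (t + 4)) =
      (Yp (MG G t) (res has hb F) + 1 - 2 ^ ((G.a + t + 4) * s) / 2 ^ N) * c := by
    rw [← hcount, hc]
    have e : (2 : ℝ) ^ N = 2 ^ (N - G.b) * 2 ^ G.b := by
      rw [← pow_add]
      congr 1
      omega
    rw [e, pow_add 2 (N - G.b)]
    field_simp
  have hfin := main_num (Z := ZB (MG G t)) (L := Lp (MG G t) (res has hb F))
    (Y := Yp (MG G t) (res has hb F)) (n := (nn G t : ℝ)) (c := c) (a := G.a + t + 4) (t := t)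
    (q := 2 ^ ((G.a + t + 4) * s) / 2 ^ N)
    (by
      have : G.a + t + 4 ≤ nn G t := by
        unfold nn
        omega
      exact_mod_cast this)
    (by
      have : t + 16 ≤ nn G t := by
        unfold nn
        omega
      exact_mod_cast this)
    hZ4 hL1 hL2 hLY h3 (by positivity)
    (by
      rw [div_le_one (by positivity)]
      exact pow_le_pow_right₀ (by norm_num) has) hc0
  rw [hH, ← hZc]
  exact hfin

end Pool.Agent.Lib.Pa7c826n
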