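import Pool.Agent.Lib.Pa7c826n.RPolyG

/-!
The new machine.

Proof. `m'` is a polynomial with `RN + MN ≤ m'.eval (inCode G t).length` for `t ≥ 1`: `PolyC.length_le`
for `poly_RN` and `poly_MN` with the context `[fun x => inCode x.1 x.2]` (`eval_mono`). The machine: as
in `HasFPRAS.transfer` (Lib/Pa7c826/Transfer.lean): from `enc x = inCode G t ++ r` compute the length of
the code (`lenOf_append`), the code, `r`, then `inCode (redN …) (2 t)` (`poly_redN`), the pieces of `r`
(`PolyC.drop`, `PolyC.take`, `poly_RN`, `poly_MN`), and apply the given machine (`PolyC.applyTM2`): the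
new graph has as many left as right vertices (`rfl`), `1 ≤ 2 t`, and the length of the piece of `r` is
`MN e l₀ m G t = m.eval (inCode (redN …) (2 t)).length` (`inCode_length`), because
`r.length - RN ≥ MN`. Then `PolyC.append` with `poly_KN`, and `PolyC.toTM2`.
-/

namespace Pool.Agent.Lib.Pa7c826n

open Pool.Agent.Lib.Pa7c826

theorem length_redN (e u l₀ : ℕ) (G : BGraph) (t : ℕ) (r : List Bool) :
    (inCode (redN e u l₀ G t r) (2 * t)).length =
      2 * t + (2 ^ Lx e (ll l₀ G t) + (2 ^ Lx e (ll l₀ G t) +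
        2 ^ Lx e (ll l₀ G t) * 2 ^ Lx e (ll l₀ G t))) + 3 := by
  rw [inCode_length]
  rfl

open Pool.Agent.Lib.PolyTime in
theorem machine {e u : ℕ} (hue : u ≤ e) (l₀ : ℕ) (m : Polynomial ℕ)
    (f : BGraph → ℕ → List Bool → List Bool)
    (hf : Nonempty (Turing.TM2ComputableInPolyTime
      (α := {x : BGraph × ℕ × List Bool //
        x.1.a = x.1.b ∧ 1 ≤ x.2.1 ∧ x.2.2.length = m.eval (inCode x.1 x.2.1).length})
      (αΓ := Bool) (βΓ := Bool) (fun x => inCode x.1.1 x.1.2.1 ++ x.1.2.2) id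
      (fun x => f x.1.1 x.1.2.1 x.1.2.2))) :
    ∃ m' : Polynomial ℕ,
      (∀ G t, 1 ≤ t → RN e l₀ G t + MN e l₀ m G t ≤ m'.eval (inCode G t).length) ∧
      Nonempty (Turing.TM2ComputableInPolyTime
        (α := {x : BGraph × ℕ × List Bool //
          1 ≤ x.2.1 ∧ x.2.2.length = m'.eval (inCode x.1 x.2.1).length})
        (αΓ := Bool) (βΓ := Bool) (fun x => inCode x.1.1 x.1.2.1 ++ x.1.2.2) id
        (fun x => fN e u l₀ m f x.1.1 x.1.2.1 x.1.2.2)) := by
  have hv : PolyC (fun x : BGraph × ℕ => 1 ≤ x.2) [fun x => inCode x.1 x.2]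
      (fun x => inCode x.1 x.2) := PolyC.var (by simp)
  have hsum : PolyN (fun x : BGraph × ℕ => 1 ≤ x.2) [fun x => inCode x.1 x.2]
      (fun x => RN e l₀ x.1 x.2 + MN e l₀ m x.1 x.2) :=
    (poly_RN e l₀ hv).add (poly_MN e l₀ m hv)
  obtain ⟨m', hm'⟩ := PolyC.length_le hsum
  have hb : ∀ G t, 1 ≤ t → RN e l₀ G t + MN e l₀ m G t ≤ m'.eval (inCode G t).length := by
    intro G t ht
    have h3 := hm' (G, t) ht
    simp only [vals_cons, vals_nil, total_cons, total_nil, Nat.add_zero, un_length] at h3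
    exact h3
  refine ⟨m', hb, ?_⟩
  let D : BGraph × ℕ × List Bool → Prop := fun x =>
    1 ≤ x.2.1 ∧ x.2.2.length = m'.eval (inCode x.1 x.2.1).length
  let enc : BGraph × ℕ × List Bool → List Bool := fun x => inCode x.1 x.2.1 ++ x.2.2
  have hw : PolyC D [enc] enc := PolyC.var (by simp)
  have hlen : PolyN D [enc] (fun x => (inCode x.1 x.2.1).length) :=
    (((poly_tOf hw).add ((poly_aOf hw).add ((poly_bOf hw).add
      ((poly_aOf hw).mul (poly_bOf hw))))).add (PolyN.const 3)).congr (fun x _ =>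
        lenOf_append x.1 x.2.1 x.2.2)
  have hpre : PolyC D [enc] (fun x => inCode x.1 x.2.1) :=
    (PolyC.take hw hlen).congr (fun x _ => List.take_left)
  have hsuf : PolyC D [enc] (fun x => x.2.2) :=
    (PolyC.drop hw hlen).congr (fun x _ => List.drop_left)
  have hred : PolyC D [enc] (fun x => inCode (redN e u l₀ x.1 x.2.1 x.2.2) (2 * x.2.1)) :=
    poly_redN hue l₀ hpre hsuf
  have hR : PolyN D [enc] (fun x => RN e l₀ x.1 x.2.1) := poly_RN e l₀ hpre
  have hM : PolyN D [enc] (fun x => MN e l₀ m x.1 x.2.1) := poly_MN e l₀ m hpre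
  have hK : PolyN D [enc] (fun x => KN e l₀ x.1 x.2.1) := poly_KN e l₀ hpre
  have hpiece : PolyC D [enc] (fun x =>
      (x.2.2.drop (RN e l₀ x.1 x.2.1)).take (MN e l₀ m x.1 x.2.1)) :=
    PolyC.take (PolyC.drop hsuf hR) hM
  have hin : PolyC D [enc] (fun x => inCode (redN e u l₀ x.1 x.2.1 x.2.2) (2 * x.2.1) ++
      (x.2.2.drop (RN e l₀ x.1 x.2.1)).take (MN e l₀ m x.1 x.2.1)) := hred.append hpiece
  have hcall : PolyC D [enc] (fun x => f (redN e u l₀ x.1 x.2.1 x.2.2) (2 * x.2.1)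
      ((x.2.2.drop (RN e l₀ x.1 x.2.1)).take (MN e l₀ m x.1 x.2.1))) := by
    refine PolyC.applyTM2 hf _ _ hin ?_
    rintro ⟨G, t, r⟩ ⟨ht, hr⟩
    refine ⟨⟨(redN e u l₀ G t r, 2 * t, (r.drop (RN e l₀ G t)).take (MN e l₀ m G t)),
      rfl, ?_, ?_⟩, rfl, rfl⟩
    · have ht' : 1 ≤ t := ht
      show 1 ≤ 2 * t
      omega
    · show ((r.drop (RN e l₀ G t)).take (MN e l₀ m G t)).length =
        m.eval (inCode (redN e u l₀ G t r) (2 * t)).length
      have hr' : r.length = m'.eval (inCode G t).length := hr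
      have h5 := hb G t ht
      rw [length_redN, List.length_take, List.length_drop, hr']
      show min (MN e l₀ m G t) _ = MN e l₀ m G t
      omega
  have hout : PolyC D [enc] (fun x => fN e u l₀ m f x.1 x.2.1 x.2.2) :=
    PolyC.append hK hcall
  exact PolyC.toTM2 enc (fun x => fN e u l₀ m f x.1 x.2.1 x.2.2) id hout

end Pool.Agent.Lib.Pa7c826n
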