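import Pool.Agent.Lib.Pa7c826.Scheme

/-!
Random edges added to bipartite graphs, and approximation schemes for the number of independent
sets of the randomly perturbed graphs.
-/

namespace Pool.Agent.Lib.Pa7c826n

open Pool.Agent.Lib.Pa7c826

/-- The probability of the outcome `F` when the pairs `(i, j)` are chosen (`F i j = true`)
independently of each other, each with probability `p`. -/
noncomputable def wt {α β : Type} [Fintype α] [Fintype β] (p : ℝ) (F : α → β → Bool) : ℝ :=
  ∏ i, ∏ j, if F i j = true then p else 1 - p

/-- The expectation of `f F` for a random set `F` of pairs, each pair being chosen independently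
with probability `p`. -/
noncomputable def Ex {α β : Type} [Fintype α] [Fintype β] [DecidableEq α] [DecidableEq β]
    (p : ℝ) (f : (α → β → Bool) → ℝ) : ℝ :=
  ∑ F, wt p F * f F

open Classical in
/-- The probability of `A F` for a random set `F` of pairs, each pair being chosen independently
with probability `p`. -/
noncomputable def Pr {α β : Type} [Fintype α] [Fintype β] [DecidableEq α] [DecidableEq β]
    (p : ℝ) (A : (α → β → Bool) → Prop) : ℝ :=
  Ex p (fun F => if A F then 1 else 0)

/-- The bipartite graph with `N` vertices on each side whose edges are the pairs of `E` and the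
pairs of `F`. -/
def join {N : ℕ} (E F : Fin N → Fin N → Bool) : BGraph := ⟨N, N, fun i j => E i j || F i j⟩

/-- A deterministic fully polynomial approximation scheme under random edges of density `p N`,
`N` the number of vertices on each side: a machine that on input `(H, 1^t)`, `H` a balanced
bipartite graph and `t ≥ 1`, runs in polynomial time, such that for some `δ > 0` and all large
`N` the following event has probability at least `1 - N ^ (-δ)` for the random set `F` of pairs
chosen independently with probability `p N`: for every bipartite graph `E` on the same vertices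
and every `t`, the output on input `(E ∪ F, 1^t)` is within a factor `1 ± 1 / t` of the number of
independent sets of `E ∪ F`. -/
def NoisyFPTAS (p : ℕ → ℝ) : Prop :=
  ∃ f : {x : BGraph × ℕ // x.1.a = x.1.b ∧ 1 ≤ x.2} → List Bool,
    Nonempty (Turing.TM2ComputableInPolyTime (α := {x : BGraph × ℕ // x.1.a = x.1.b ∧ 1 ≤ x.2})
      (αΓ := Bool) (βΓ := Bool) (fun x => inCode x.1.1 x.1.2) id f) ∧
    ∃ δ : ℝ, 0 < δ ∧ ∃ N₀ : ℕ, ∀ N ≥ N₀,
      1 - (N : ℝ) ^ (-δ) ≤ Pr (p N) (fun F : Fin N → Fin N → Bool =>
        ∀ (E : Fin N → Fin N → Bool) (t : ℕ) (ht : 1 ≤ t),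
          Good (join E F) t (f ⟨(join E F, t), rfl, ht⟩))

/-- A randomised approximation scheme under random edges of density `p N`, `N` the number of
vertices on each side: a polynomial `m` and a machine that on input `(H, 1^t)`, `H` a balanced
bipartite graph and `t ≥ 1`, followed by `m(length)` random bits, runs in polynomial time, such
that for all large `N`, every bipartite graph `E` with `N` vertices on each side and every
`t ≥ 1` the output on input `(E ∪ F, 1^t)` is within a factor `1 ± 1 / t` of the number of
independent sets of `E ∪ F` with probability at least `3 / 4`; the probability is over the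
random bits and the random set `F` of pairs chosen independently with probability `p N`. -/
def NoisyFPRAS (p : ℕ → ℝ) : Prop :=
  ∃ (m : Polynomial ℕ) (f : BGraph → ℕ → List Bool → List Bool),
    Nonempty (Turing.TM2ComputableInPolyTime
      (α := {x : BGraph × ℕ × List Bool //
        x.1.a = x.1.b ∧ 1 ≤ x.2.1 ∧ x.2.2.length = m.eval (inCode x.1 x.2.1).length})
      (αΓ := Bool) (βΓ := Bool) (fun x => inCode x.1.1 x.1.2.1 ++ x.1.2.2) id
      (fun x => f x.1.1 x.1.2.1 x.1.2.2)) ∧
    ∃ N₀ : ℕ, ∀ N ≥ N₀, ∀ (E : Fin N → Fin N → Bool) (t : ℕ), 1 ≤ t →
      3 / 4 ≤ Ex (p N) (fun F =>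
        (Nat.card {r : Fin (m.eval (inCode (join E F) t).length) → Bool //
          Good (join E F) t (f (join E F) t (List.ofFn r))} : ℝ) /
        2 ^ m.eval (inCode (join E F) t).length)

end Pool.Agent.Lib.Pa7c826n
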