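import Pool.Agent.Lib.Pa7c826n.ProbA

/-!
Probabilities of events: monotonicity, union bound, Markov and Chebyshev.

Unfold `Pr`, `Ex`; all weights are nonnegative (`wt_nonneg`) and sum to `1` (`sum_wt`).
`markov`: `c * indicator ≤ f`. `chebyshev`: apply `markov` to `(f - μ) ^ 2` and `ε ^ 2`;
`Ex p ((f - μ) ^ 2) = Ex p (f ^ 2) - 2 μ Ex p f + μ ^ 2 ≤ v`.
-/

namespace Pool.Agent.Lib.Pa7c826n

variable {α β : Type} [Fintype α] [Fintype β] [DecidableEq α] [DecidableEq β] {p : ℝ}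

theorem Pr_nonneg (h0 : 0 ≤ p) (h1 : p ≤ 1) (A : (α → β → Bool) → Prop) : 0 ≤ Pr p A := by
  classical
  unfold Pr Ex
  refine Finset.sum_nonneg fun F _ => mul_nonneg (wt_nonneg h0 h1 F) ?_
  by_cases h : A F <;> simp [h]

theorem Pr_compl (p : ℝ) (A : (α → β → Bool) → Prop) : Pr p A = 1 - Pr p (fun F => ¬ A F) := by
  rw [← sum_wt (α := α) (β := β) p]
  unfold Pr Ex
  rw [← Finset.sum_sub_distrib]
  refine Finset.sum_congr rfl fun F _ => ?_
  by_cases h : A F <;> simp [h]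

theorem Pr_mono (h0 : 0 ≤ p) (h1 : p ≤ 1) {A B : (α → β → Bool) → Prop} (h : ∀ F, A F → B F) :
    Pr p A ≤ Pr p B := by
  unfold Pr
  refine Ex_mono h0 h1 fun F => ?_
  by_cases hA : A F
  · simp [hA, h F hA]
  · simp only [hA, if_false]
    split_ifs <;> norm_num

theorem Pr_or_le (h0 : 0 ≤ p) (h1 : p ≤ 1) (A B : (α → β → Bool) → Prop) :
    Pr p (fun F => A F ∨ B F) ≤ Pr p A + Pr p B := by
  unfold Pr
  rw [← Ex_add]
  refine Ex_mono h0 h1 fun F => ?_
  by_cases hA : A F <;> by_cases hB : B F <;> simp [hA, hB]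

theorem Pr_exists_le {ι : Type} [Fintype ι] (h0 : 0 ≤ p) (h1 : p ≤ 1)
    (A : ι → (α → β → Bool) → Prop) :
    Pr p (fun F => ∃ i, A i F) ≤ ∑ i, Pr p (A i) := by
  classical
  have h2 : ∑ i, Pr p (A i) =
      Ex p (fun F => ∑ i, if A i F then (1 : ℝ) else 0) := by
    rw [Ex_sum p Finset.univ (fun i F => if A i F then (1 : ℝ) else 0)]
    refine Finset.sum_congr rfl fun i _ => ?_
    unfold Pr
    refine congrArg (Ex p) ?_
    funext F
    by_cases hi : A i F <;> simp [hi]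
  rw [h2]
  unfold Pr
  refine Ex_mono h0 h1 fun F => ?_
  by_cases h : ∃ i, A i F
  · rw [if_pos h]
    obtain ⟨i, hi⟩ := h
    calc (1 : ℝ) = if A i F then (1 : ℝ) else 0 := by rw [if_pos hi]
      _ ≤ _ := Finset.single_le_sum (f := fun i => if A i F then (1 : ℝ) else 0)
          (fun j _ => by split_ifs <;> norm_num) (Finset.mem_univ i)
  · rw [if_neg h]
    exact Finset.sum_nonneg fun j _ => by split_ifs <;> norm_num

theorem markov (h0 : 0 ≤ p) (h1 : p ≤ 1) {f : (α → β → Bool) → ℝ} (hf : ∀ F, 0 ≤ f F) {c : ℝ}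
    (hc : 0 < c) : Pr p (fun F => c ≤ f F) ≤ Ex p f / c := by
  rw [le_div_iff₀ hc, mul_comm]
  unfold Pr
  rw [← Ex_mul]
  refine Ex_mono h0 h1 fun F => ?_
  by_cases h : c ≤ f F
  · simp [h]
  · simpa [h] using hf F

theorem chebyshev (h0 : 0 ≤ p) (h1 : p ≤ 1) {f : (α → β → Bool) → ℝ} {μ v ε : ℝ}
    (hμ : Ex p f = μ) (hv : Ex p (fun F => f F ^ 2) ≤ μ ^ 2 + v) (hε : 0 < ε) :
    Pr p (fun F => ε < |f F - μ|) ≤ v / ε ^ 2 := by
  have h2 : Pr p (fun F => ε < |f F - μ|) ≤ Pr p (fun F => ε ^ 2 ≤ (f F - μ) ^ 2) :=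
    Pr_mono h0 h1 fun F hF => by
      rw [← sq_abs (f F - μ)]
      exact pow_le_pow_left₀ hε.le hF.le 2
  have h3 := markov h0 h1 (f := fun F => (f F - μ) ^ 2) (fun F => sq_nonneg _) (c := ε ^ 2)
    (by positivity)
  have h4 : Ex p (fun F => (f F - μ) ^ 2) ≤ v := by
    have h5 : Ex p (fun F => (f F - μ) ^ 2) =
        Ex p (fun F => f F ^ 2) - 2 * μ * Ex p f + μ ^ 2 := by
      conv_rhs => rw [← Ex_const (α := α) (β := β) p (μ ^ 2)]
      rw [← Ex_mul, ← Ex_sub, ← Ex_add]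
      refine congrArg (Ex p) ?_
      funext F
      ring
    rw [h5, hμ]
    nlinarith
  refine h2.trans (h3.trans ?_)
  exact div_le_div_of_nonneg_right h4 (by positivity)

/-- Restricting the expectation of a function bounded by `1` to an event. -/
theorem Ex_inter (h0 : 0 ≤ p) (h1 : p ≤ 1) {g : (α → β → Bool) → ℝ} (hg : ∀ F, g F ≤ 1)
    (A : (α → β → Bool) → Prop) :
    Ex p g - Pr p (fun F => ¬ A F) ≤ Ex p (fun F => open Classical in if A F then g F else 0) := by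
  have h2 : Ex p g ≤ Ex p (fun F => open Classical in if A F then g F else 0) +
      Pr p (fun F => ¬ A F) := by
    unfold Pr
    rw [← Ex_add]
    refine Ex_mono h0 h1 fun F => ?_
    by_cases hA : A F
    · simp [hA]
    · simpa [hA] using hg F
  linarith

end Pool.Agent.Lib.Pa7c826n
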