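import Pool.Agent.Lib.Pa7c826n.Base

/-!
The numerical facts used by the reduction.
-/

namespace Pool.Agent.Lib.Pa7c826n

/-- expected weight of a clone when the random neighbours are among `2 ^ Lx e l - b` vertices -/
noncomputable def betaN (e u l b : ℕ) : ℝ := (1 - px e u l / 2) ^ (2 ^ Lx e l - b)

/-- expected square of the weight of a clone -/
noncomputable def gamN (e u l b : ℕ) : ℝ := (1 - 3 * px e u l / 4) ^ (2 ^ Lx e l - b)

/-- The numerical facts used by the reduction. -/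
structure NumOK (e u l n₁ a b : ℕ) : Prop where
  p1 : px e u l ≤ 1 / 2
  as : a * sx u l ≤ 2 ^ Lx e l
  bN : b ≤ 2 ^ Lx e l
  g1 : (a : ℝ) * sx u l * b * px e u l ≤ 1 / 80
  s2 : |(1 + betaN e u l b) ^ sx u l - 2| ≤ 1 / (32 * (n₁ : ℝ) ^ 2)
  g2 : (a : ℝ) * (sx u l * gamN e u l b *
    Real.exp (sx u l * (2 * betaN e u l b + gamN e u l b)) / (1 / (32 * (n₁ : ℝ) ^ 2)) ^ 2) ≤
      1 / 80
  H1 : ∀ x : ℕ, x ≤ 32 * n₁ → ((1 + (1 - px e u l) ^ x) / 2) ^ (2 ^ Lx e l - b) ≤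
    (1 + 1 / (4000 * (n₁ : ℝ))) * betaN e u l b ^ x
  H2 : ∀ x : ℕ, x ≤ a * sx u l → ((1 + (1 - px e u l) ^ x) / 2) ^ (2 ^ Lx e l - b) ≤
    (2 * betaN e u l b) ^ x
  H3 : (a : ℝ) * sx u l * (2 * betaN e u l b) ≤ 4 * n₁

end Pool.Agent.Lib.Pa7c826n
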