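import Pool.Agent.Lib.Pa7c826n.ProbA

/-!
The restriction of the random pairs to a rectangle has the same distribution.

Proof. `Ex p (fun F => g (restriction of F))`: group the functions `F` by the restriction
`F' : α' → β' → Bool` (`Finset.sum_fiberwise` or a product equivalence). It suffices that for
every `F'` the sum of `wt p F` over all `F` with restriction `F'` equals `wt p F'`. This is
`Ex_prod` for `g i j x = if the pair (i, j) is the image of (i', j') then (if x = F' i' j' then 1
else 0) else 1`: the factor of a pair outside the rectangle is `1`, the factor of the image of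
`(i', j')` is `p` or `1 - p` according to `F' i' j'`; and a product over the image of an embedding
is a product over the source (`Finset.prod_subset`, `Finset.prod_map`). It may be easier to do
rows and columns in two steps (first an embedding `α' ↪ α` with `β' = β`, then transpose).
-/

namespace Pool.Agent.Lib.Pa7c826n

variable {α β α' β' : Type} [Fintype α] [Fintype β] [DecidableEq α] [DecidableEq β]
  [Fintype α'] [Fintype β'] [DecidableEq α'] [DecidableEq β']

namespace ProbCAux

omit [Fintype α] [Fintype β] [DecidableEq α'] [DecidableEq β'] in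
theorem aux1 (u : α' ↪ α) (v : β' ↪ β) (H : α' → β' → ℝ) (a : α') (b : β') :
    (∏ i', ∏ j', if u i' = u a ∧ v j' = v b then H i' j' else 1) = H a b := by
  rw [Finset.prod_eq_single a, Finset.prod_eq_single b]
  · simp
  · intro j' _ hj
    rw [if_neg]
    rintro ⟨_, h⟩
    exact hj (v.injective h)
  · intro h
    exact absurd (Finset.mem_univ _) h
  · intro i' _ hi
    apply Finset.prod_eq_one
    intro j' _
    rw [if_neg]
    rintro ⟨h, _⟩
    exact hi (u.injective h)
  · intro h
    exact absurd (Finset.mem_univ _) h

omit [DecidableEq α'] [DecidableEq β'] in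
theorem aux2 (u : α' ↪ α) (v : β' ↪ β) (K : α → β → α' → β' → ℝ) :
    (∏ i, ∏ j, ∏ i', ∏ j', if u i' = i ∧ v j' = j then K i j i' j' else 1) =
      ∏ i', ∏ j', K (u i') (v j') i' j' := by
  have h1 : (∏ i, ∏ j, ∏ i', ∏ j', if u i' = i ∧ v j' = j then K i j i' j' else 1) =
      ∏ e : α × β, ∏ e' : α' × β',
        (if u e'.1 = e.1 ∧ v e'.2 = e.2 then K e.1 e.2 e'.1 e'.2 else 1) := by
    rw [Fintype.prod_prod_type]
    refine Finset.prod_congr rfl fun i _ => Finset.prod_congr rfl fun j _ => ?_
    rw [Fintype.prod_prod_type]
  rw [h1, Finset.prod_comm, Fintype.prod_prod_type]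
  refine Finset.prod_congr rfl fun i' _ => Finset.prod_congr rfl fun j' _ => ?_
  rw [Finset.prod_eq_single (u i', v j')]
  · simp
  · rintro ⟨i, j⟩ _ hne
    rw [if_neg]
    rintro ⟨h, h'⟩
    simp only at h h'
    exact hne (by rw [h, h'])
  · intro h
    exact absurd (Finset.mem_univ _) h

open Classical in
omit [DecidableEq α'] [DecidableEq β'] in
theorem ind (p : ℝ) (u : α' ↪ α) (v : β' ↪ β) (F' : α' → β' → Bool) :
    Ex p (fun F : α → β → Bool => if (fun i j => F (u i) (v j)) = F' then (1 : ℝ) else 0) =
      wt p F' := by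
  let G : α → β → Bool → ℝ := fun i j x =>
    ∏ i', ∏ j', if u i' = i ∧ v j' = j then (if x = F' i' j' then (1 : ℝ) else 0) else 1
  have e1 : (fun F : α → β → Bool =>
      if (fun i j => F (u i) (v j)) = F' then (1 : ℝ) else 0) =
      fun F => ∏ i, ∏ j, G i j (F i j) := by
    funext F
    have h2 := aux2 u v (fun i j i' j' => if F i j = F' i' j' then (1 : ℝ) else 0)
    refine Eq.trans ?_ h2.symm
    by_cases h : (fun i j => F (u i) (v j)) = F'
    · rw [if_pos h]
      symm
      refine Finset.prod_eq_one fun i _ => Finset.prod_eq_one fun j _ => ?_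
      rw [if_pos]
      exact congrFun (congrFun h i) j
    · rw [if_neg h]
      have h3 : ∃ i j, F (u i) (v j) ≠ F' i j := by
        by_contra hcon
        push Not at hcon
        exact h (funext fun i => funext fun j => hcon i j)
      obtain ⟨i, j, hij⟩ := h3
      symm
      exact Finset.prod_eq_zero (Finset.mem_univ i) (Finset.prod_eq_zero (Finset.mem_univ j)
        (if_neg hij))
  rw [e1, Ex_prod p G]
  have e2 : ∀ i j, p * G i j true + (1 - p) * G i j false =
      ∏ i', ∏ j', if u i' = i ∧ v j' = j then (if F' i' j' = true then p else 1 - p) else 1 := by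
    intro i j
    by_cases hex : ∃ a b, u a = i ∧ v b = j
    · obtain ⟨a, b, rfl, rfl⟩ := hex
      have g1 : G (u a) (v b) true = if true = F' a b then (1 : ℝ) else 0 :=
        aux1 u v (fun i' j' => if true = F' i' j' then (1 : ℝ) else 0) a b
      have g2 : G (u a) (v b) false = if false = F' a b then (1 : ℝ) else 0 :=
        aux1 u v (fun i' j' => if false = F' i' j' then (1 : ℝ) else 0) a b
      have g3 := aux1 u v (fun i' j' => if F' i' j' = true then p else 1 - p) a b
      rw [g1, g2, g3]
      cases F' a b <;> simp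
    · have hn : ∀ a b, ¬ (u a = i ∧ v b = j) := fun a b hab => hex ⟨a, b, hab⟩
      have g1 : ∀ x, G i j x = 1 := by
        intro x
        refine Finset.prod_eq_one fun a _ => Finset.prod_eq_one fun b _ => ?_
        rw [if_neg (hn a b)]
      rw [g1, g1]
      symm
      have : p * 1 + (1 - p) * 1 = 1 := by ring
      rw [this]
      refine Finset.prod_eq_one fun a _ => Finset.prod_eq_one fun b _ => ?_
      rw [if_neg (hn a b)]
  rw [Finset.prod_congr rfl (fun i _ => Finset.prod_congr rfl (fun j _ => e2 i j)),
    aux2 u v (fun _ _ i' j' => if F' i' j' = true then p else 1 - p)]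
  rfl

end ProbCAux

theorem Ex_restrict (p : ℝ) (u : α' ↪ α) (v : β' ↪ β) (g : (α' → β' → Bool) → ℝ) :
    Ex p (fun F : α → β → Bool => g (fun i j => F (u i) (v j))) = Ex p g := by
  classical
  have h1 : (fun F : α → β → Bool => g (fun i j => F (u i) (v j))) =
      fun F => ∑ F' ∈ (Finset.univ : Finset (α' → β' → Bool)),
        g F' * (if (fun i j => F (u i) (v j)) = F' then (1 : ℝ) else 0) := by
    funext F
    rw [Finset.sum_eq_single (fun i j => F (u i) (v j))]
    · simp
    · intro F' _ hne
      rw [if_neg (Ne.symm hne), mul_zero]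
    · intro h
      exact absurd (Finset.mem_univ _) h
  rw [h1, Ex_sum p Finset.univ (fun F' (F : α → β → Bool) =>
    g F' * (if (fun i j => F (u i) (v j)) = F' then (1 : ℝ) else 0))]
  unfold Ex
  refine Finset.sum_congr rfl fun F' _ => ?_
  have h2 := Ex_mul (α := α) (β := β) p (g F')
    (fun F => if (fun i j => F (u i) (v j)) = F' then (1 : ℝ) else 0)
  unfold Ex at h2
  rw [h2]
  have h3 := ProbCAux.ind p u v F'
  unfold Ex at h3
  rw [mul_comm (wt p F')]
  congr 1

theorem Pr_restrict (p : ℝ) (u : α' ↪ α) (v : β' ↪ β) (A : (α' → β' → Bool) → Prop) :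
    Pr p (fun F : α → β → Bool => A (fun i j => F (u i) (v j))) = Pr p A := by
  classical
  unfold Pr
  exact Ex_restrict p u v (fun F' => if A F' then 1 else 0)

end Pool.Agent.Lib.Pa7c826n
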