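import Pool.Agent.Lib.Pa7c826n.WExp

/-!
The overlaps of the random neighbourhoods are negligible.

Proof. Write `φ x = ((1 + (1 - p) ^ x) / 2) ^ n`, `β = (1 - p / 2) ^ n`, `w X = (1 / 2) ^ nbA M
(prA X) ≤ 1`. By `Ex_Yp`, `Ex_Lp` the left side is `∑_X (φ |X| - β ^ |X|) w X`. For `|X| ≤ x₁`
the summand is at most `ε₃ β ^ |X| w X` (`H1`); these add up to at most `ε₃ Ex Lp`, and
`Ex Lp ≤ (1 + ε₄) ^ a ZB M` by `Ex_Lp'` and `hs` (`(1 + β) ^ s - 1 ≥ 0`, `A.card ≤ a`).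
For `|X| = x > x₁` the summand is at most `(2 β) ^ x` (`H2`, as `|X| ≤ a s`), and there are
`C(a s, x)` such sets: `C(a s, x) (2 β) ^ x ≤ (a s 2 β) ^ x / x! ≤ D ^ x / x! ≤ (1 / 2) ^ x`, because
`x! ≥ (x / 3) ^ x` (`Nat.factorial` lower bound; e.g. by induction, `(1 + 1 / x) ^ x ≤ 3`) and
`3 D / x ≤ 1 / 2` for `x ≥ x₁ ≥ 6 D`. The sum over `x > x₁` of `(1 / 2) ^ x` is at most
`(1 / 2) ^ x₁`, and `1 ≤ ZB M` (`one_le_ZB`).
-/

namespace Pool.Agent.Lib.Pa7c826n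

open Finset

variable {a s n b : ℕ}

namespace WTailAux

theorem geo (x₁ N : ℕ) : ∑ x ∈ range (N + 1), (if x₁ < x then (1 / 2 : ℝ) ^ x else 0) +
    (1 / 2) ^ max N x₁ ≤ (1 / 2) ^ x₁ := by
  induction N with
  | zero => simp
  | succ N ih =>
    rw [sum_range_succ]
    by_cases h : x₁ < N + 1
    · rw [if_pos h, max_eq_left h.le]
      rw [max_eq_left (Nat.lt_succ_iff.1 h)] at ih
      have h1 : (1 / 2 : ℝ) ^ (N + 1) = (1 / 2) ^ N * (1 / 2) := pow_succ _ _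
      linarith
    · rw [if_neg h, max_eq_right (not_lt.1 h)]
      rw [max_eq_right (by omega)] at ih
      linarith

theorem term_le {D q : ℝ} {x₁ N x : ℕ} (hq : 0 ≤ q) (H3 : (N : ℝ) * q ≤ D)
    (H4 : 6 * D ≤ x₁) (hx : x₁ < x) : (N.choose x : ℝ) * q ^ x ≤ (1 / 2) ^ x := by
  have hx' : (x₁ : ℝ) ≤ x := by exact_mod_cast hx.le
  have h1 : (N.choose x : ℝ) ≤ (N : ℝ) ^ x / (x.factorial : ℝ) := Nat.choose_le_pow_div x N
  have h2 : (N : ℝ) * q ≤ (x : ℝ) / 6 := by linarith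
  have h3 : (0 : ℝ) < (x.factorial : ℝ) := by exact_mod_cast x.factorial_pos
  have h4 : (x : ℝ) ^ x / (x.factorial : ℝ) ≤ 3 ^ x := by
    refine (Real.pow_div_factorial_le_exp (x : ℝ) (Nat.cast_nonneg x) x).trans ?_
    have h5 : Real.exp (x : ℝ) = Real.exp 1 ^ x := by
      rw [← Real.exp_nat_mul, mul_one]
    rw [h5]
    refine pow_le_pow_left₀ (Real.exp_pos 1).le ?_ x
    have := Real.exp_one_lt_d9
    linarith
  calc (N.choose x : ℝ) * q ^ x ≤ ((N : ℝ) ^ x / (x.factorial : ℝ)) * q ^ x :=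
        mul_le_mul_of_nonneg_right h1 (pow_nonneg hq x)
    _ = ((N : ℝ) * q) ^ x / (x.factorial : ℝ) := by rw [mul_pow]; ring
    _ ≤ ((x : ℝ) / 6) ^ x / (x.factorial : ℝ) := by
        gcongr
    _ = (1 / 6) ^ x * ((x : ℝ) ^ x / (x.factorial : ℝ)) := by
        rw [div_pow, one_div, inv_pow]; ring
    _ ≤ (1 / 6) ^ x * 3 ^ x := by gcongr
    _ = (1 / 2) ^ x := by rw [← mul_pow]; norm_num

end WTailAux

open WTailAux in
theorem gap_le {p ε₃ ε₄ D : ℝ} {x₁ : ℕ} (h0 : 0 ≤ p) (h1 : p ≤ 1) (h3 : 0 ≤ ε₃) (h4 : 0 ≤ ε₄)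
    (H1 : ∀ x : ℕ, x ≤ x₁ → ((1 + (1 - p) ^ x) / 2) ^ n ≤ (1 + ε₃) * ((1 - p / 2) ^ n) ^ x)
    (H2 : ∀ x : ℕ, x ≤ a * s → ((1 + (1 - p) ^ x) / 2) ^ n ≤ (2 * (1 - p / 2) ^ n) ^ x)
    (H3 : (a : ℝ) * s * (2 * (1 - p / 2) ^ n) ≤ D) (H4 : 6 * D ≤ x₁)
    (hs : (1 + (1 - p / 2) ^ n) ^ s - 1 ≤ 1 + ε₄) (M : Fin a → Fin b → Bool) :
    Ex p (fun F : Fin a × Fin s → Fin n → Bool => Yp M F - Lp M F) ≤
      (ε₃ * (1 + ε₄) ^ a + (1 / 2) ^ x₁) * ZB M := by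
  obtain ⟨β, hβ⟩ : ∃ β : ℝ, β = (1 - p / 2) ^ n := ⟨_, rfl⟩
  have hβ0 : 0 ≤ β := by
    rw [hβ]
    exact pow_nonneg (by linarith) n
  have hw0 : ∀ X : Finset (Fin a × Fin s), (0 : ℝ) ≤ (1 / 2) ^ nbA M (prA X) := fun X =>
    pow_nonneg (by norm_num) _
  have hw1 : ∀ X : Finset (Fin a × Fin s), ((1 / 2 : ℝ)) ^ nbA M (prA X) ≤ 1 := fun X =>
    pow_le_one₀ (by norm_num) (by norm_num)
  have hφ0 : ∀ x : ℕ, 0 ≤ ((1 + (1 - p) ^ x) / 2) ^ n := fun x =>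
    pow_nonneg (div_nonneg (add_nonneg zero_le_one (pow_nonneg (by linarith) x))
      zero_le_two) n
  rw [← hβ] at H3 hs
  rw [Ex_sub, Ex_Yp, Ex_Lp, ← sum_sub_distrib]
  -- the pointwise bound
  have hpt : ∀ X : Finset (Fin a × Fin s),
      ((1 + (1 - p) ^ X.card) / 2) ^ n * (1 / 2) ^ nbA M (prA X) -
        ((1 - p / 2) ^ n) ^ X.card * (1 / 2) ^ nbA M (prA X) ≤
      ε₃ * (((1 - p / 2) ^ n) ^ X.card * (1 / 2) ^ nbA M (prA X)) +
        (if x₁ < X.card then (2 * β) ^ X.card else 0) := by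
    intro X
    rw [← hβ]
    by_cases hX : x₁ < X.card
    · rw [if_pos hX]
      have hc : X.card ≤ a * s := by
        have h5 := Finset.card_le_univ X
        rwa [Fintype.card_prod, Fintype.card_fin, Fintype.card_fin] at h5
      have h5 := H2 X.card hc
      rw [← hβ] at h5
      have h6 : 0 ≤ β ^ X.card * (1 / 2) ^ nbA M (prA X) := mul_nonneg (pow_nonneg hβ0 _) (hw0 X)
      have h7 : ((1 + (1 - p) ^ X.card) / 2) ^ n * (1 / 2) ^ nbA M (prA X) ≤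
          ((1 + (1 - p) ^ X.card) / 2) ^ n * 1 := mul_le_mul_of_nonneg_left (hw1 X) (hφ0 _)
      have h8 : 0 ≤ ε₃ * (β ^ X.card * (1 / 2) ^ nbA M (prA X)) := mul_nonneg h3 h6
      linarith
    · rw [if_neg hX]
      have h5 := H1 X.card (not_lt.1 hX)
      rw [← hβ] at h5
      have h6 := mul_le_mul_of_nonneg_right h5 (hw0 X)
      nlinarith [h6]
  refine (sum_le_sum fun X _ => hpt X).trans ?_
  rw [sum_add_distrib, ← mul_sum, ← Ex_Lp, Ex_Lp']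
  rw [← hβ]
  have hb0 : 0 ≤ (1 + β) ^ s - 1 := by
    have h5 : 1 ≤ (1 + β) ^ s := one_le_pow₀ (by linarith)
    linarith
  have hLp : ∑ A : Finset (Fin a), (1 / 2) ^ nbA M A * ((1 + β) ^ s - 1) ^ A.card ≤
      (1 + ε₄) ^ a * ZB M := by
    unfold ZB
    rw [mul_sum]
    refine sum_le_sum fun A _ => ?_
    rw [mul_comm]
    refine mul_le_mul_of_nonneg_right ?_ (pow_nonneg (by norm_num) _)
    calc ((1 + β) ^ s - 1) ^ A.card ≤ (1 + ε₄) ^ A.card := pow_le_pow_left₀ hb0 hs _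
      _ ≤ (1 + ε₄) ^ a := by
        refine pow_le_pow_right₀ (by linarith) ?_
        have h5 := Finset.card_le_univ A
        rwa [Fintype.card_fin] at h5
  have hbig : ∑ X : Finset (Fin a × Fin s), (if x₁ < X.card then (2 * β) ^ X.card else 0) ≤
      (1 / 2 : ℝ) ^ x₁ := by
    have h5 : ∑ X : Finset (Fin a × Fin s), (if x₁ < X.card then (2 * β) ^ X.card else 0) =
        ∑ x ∈ range (a * s + 1), ((a * s).choose x) •
          (if x₁ < x then (2 * β) ^ x else 0) := by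
      have h6 := Finset.sum_powerset_apply_card (x := (univ : Finset (Fin a × Fin s)))
        (fun x : ℕ => if x₁ < x then (2 * β) ^ x else 0)
      rw [Finset.powerset_univ, Finset.card_univ, Fintype.card_prod, Fintype.card_fin,
        Fintype.card_fin] at h6
      exact h6
    rw [h5]
    have h7 : ∀ x ∈ range (a * s + 1), ((a * s).choose x) •
        (if x₁ < x then (2 * β) ^ x else 0) ≤ (if x₁ < x then (1 / 2 : ℝ) ^ x else 0) := by
      intro x _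
      by_cases hx : x₁ < x
      · rw [if_pos hx, if_pos hx, nsmul_eq_mul]
        refine term_le (mul_nonneg zero_le_two hβ0) ?_ H4 hx
        rw [Nat.cast_mul]
        exact H3
      · rw [if_neg hx, if_neg hx, smul_zero]
    refine (sum_le_sum h7).trans ?_
    have h8 := geo x₁ (a * s)
    have h9 : (0 : ℝ) ≤ (1 / 2) ^ max (a * s) x₁ := pow_nonneg (by norm_num) _
    linarith
  have hZ := one_le_ZB M
  have h5 : (1 / 2 : ℝ) ^ x₁ ≤ (1 / 2) ^ x₁ * ZB M :=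
    le_mul_of_one_le_right (pow_nonneg (by norm_num) _) hZ
  have h6 := mul_le_mul_of_nonneg_left hLp h3
  calc _ ≤ ε₃ * ((1 + ε₄) ^ a * ZB M) + (1 / 2) ^ x₁ := add_le_add h6 hbig
    _ ≤ ε₃ * ((1 + ε₄) ^ a * ZB M) + (1 / 2) ^ x₁ * ZB M := by linarith
    _ = _ := by ring

end Pool.Agent.Lib.Pa7c826n
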