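import Pool.Agent.Lib.Pa7c826n.ProbB
import Pool.Agent.Lib.Pa7c826n.Base

/-!
The total weight of the clones of a vertex is concentrated.

Proof. `Pu F u = ∏_v h v (F v)` over all clones `v`, where `h v x = 1 + (1 / 2) ^ #{w | x w}` for
`v = (u, i)` and `h v x = 1` for the other clones. By `Ex_rows` (the row sums of the constant `1`
are `1`) `Ex Pu = (∑_x W x (1 + (1 / 2) ^ #x)) ^ s = (1 + β) ^ s` with `W x = ∏_w (if x w = true then p
else 1 - p)`, since `∑_x W x (1 / 2) ^ #x = ∏_w (p / 2 + 1 - p) = β` (`Finset.prod_univ_sum`),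
and `Ex (Pu ^ 2) = (1 + 2 β + γ) ^ s`, as `∑_x W x (1 / 4) ^ #x = (1 - 3 p / 4) ^ n = γ`.
`β ^ 2 ≤ γ` (`(1 - p / 2) ^ 2 ≤ 1 - 3 p / 4` for `0 ≤ p ≤ 1`). Hence the variance is
`(1 + 2 β + γ) ^ s - (1 + 2 β + β ^ 2) ^ s ≤ s (γ - β ^ 2) (1 + 2 β + γ) ^ (s - 1) ≤
s γ exp (s (2 β + γ))` (`y ^ s - z ^ s ≤ s (y - z) y ^ (s - 1)` for `0 ≤ z ≤ y`). Then `chebyshev`.
-/

namespace Pool.Agent.Lib.Pa7c826n

variable {a s n : ℕ}

namespace WVarAux

/-- generating function of the number of `true` entries of a row -/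
theorem row_sum (p r : ℝ) : ∑ x : Fin n → Bool, (∏ j, if x j = true then p else 1 - p) *
    r ^ (Finset.univ.filter fun w => x w = true).card = (p * r + (1 - p)) ^ n := by
  have h1 : ∀ x : Fin n → Bool, (∏ j, if x j = true then p else 1 - p) *
      r ^ (Finset.univ.filter fun w => x w = true).card =
      ∏ j, ((if x j = true then p else 1 - p) * (if x j = true then r else 1)) := by
    intro x
    have h3 : (∏ j, if x j = true then r else 1) =
        r ^ (Finset.univ.filter fun w => x w = true).card := by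
      rw [← Finset.prod_filter, Finset.prod_const]
    rw [Finset.prod_mul_distrib, h3]
  rw [Finset.sum_congr rfl fun x _ => h1 x]
  have h2 : (p * r + (1 - p)) ^ n = ∏ _j : Fin n, ∑ b : Bool,
      ((if b = true then p else 1 - p) * (if b = true then r else 1)) := by
    simp
  rw [h2, Finset.prod_univ_sum, Fintype.piFinset_univ]

/-- independence of the rows of the clones of one vertex -/
theorem Ex_clones (p : ℝ) (u : Fin a) (g : (Fin n → Bool) → ℝ) :
    Ex p (fun F : Fin a × Fin s → Fin n → Bool => ∏ i : Fin s, g (F (u, i))) =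
      (∑ x : Fin n → Bool, (∏ j, if x j = true then p else 1 - p) * g x) ^ s := by
  have h1 : (fun F : Fin a × Fin s → Fin n → Bool => ∏ i : Fin s, g (F (u, i))) =
      fun F => ∏ v, (if v.1 = u then g (F v) else 1) := by
    funext F
    rw [Fintype.prod_prod_type]
    rw [Finset.prod_eq_single u]
    · simp
    · intro v _ hv
      simp [hv]
    · intro h
      exact absurd (Finset.mem_univ u) h
  rw [h1, Ex_rows p (fun (v : Fin a × Fin s) (x : Fin n → Bool) =>
    if v.1 = u then g x else 1), Fintype.prod_prod_type,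
    Finset.prod_eq_single u]
  · simp
  · intro v _ hv
    have h2 := row_sum (n := n) p 1
    simp only [one_pow, mul_one] at h2
    simp only [hv, if_false, mul_one]
    rw [h2]
    simp
  · intro h
    exact absurd (Finset.mem_univ u) h

theorem pow_sub_le {y z : ℝ} (hz : 0 ≤ z) (hzy : z ≤ y) (hy : 1 ≤ y) (s : ℕ) :
    y ^ s ≤ z ^ s + s * (y - z) * y ^ s := by
  induction s with
  | zero => simp
  | succ k ih =>
    have h1 : z ^ k ≤ y ^ k := pow_le_pow_left₀ hz hzy k
    have h2 : y ^ k ≤ y ^ (k + 1) := pow_le_pow_right₀ hy (Nat.le_succ k)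
    have h3 : y * y ^ k ≤ y * (z ^ k + k * (y - z) * y ^ k) :=
      mul_le_mul_of_nonneg_left ih (by linarith)
    have h4 : (y - z) * z ^ k ≤ (y - z) * y ^ (k + 1) :=
      mul_le_mul_of_nonneg_left (h1.trans h2) (by linarith)
    push_cast
    have e1 : y ^ (k + 1) = y * y ^ k := by ring
    have e2 : z ^ (k + 1) = z * z ^ k := by ring
    have e3 : y * (z ^ k + k * (y - z) * y ^ k) =
        z * z ^ k + (y - z) * z ^ k + k * (y - z) * y ^ (k + 1) := by ring
    rw [e3] at h3
    rw [e2]
    nlinarith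

end WVarAux

open WVarAux in
theorem Pu_var {p : ℝ} (h0 : 0 ≤ p) (h1 : p ≤ 1) (u : Fin a) {ε : ℝ} (hε : 0 < ε) :
    Pr p (fun F : Fin a × Fin s → Fin n → Bool =>
      ε < |Pu F u - (1 + (1 - p / 2) ^ n) ^ s|) ≤
      s * (1 - 3 * p / 4) ^ n * Real.exp (s * (2 * (1 - p / 2) ^ n + (1 - 3 * p / 4) ^ n)) /
        ε ^ 2 := by
  set β : ℝ := (1 - p / 2) ^ n with hβ
  set γ : ℝ := (1 - 3 * p / 4) ^ n with hγ
  have hβ0 : 0 ≤ β := pow_nonneg (by linarith) n
  have hγ0 : 0 ≤ γ := pow_nonneg (by linarith) n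
  have hβγ : β ^ 2 ≤ γ := by
    rw [hβ, hγ, ← pow_mul, mul_comm n 2, pow_mul]
    refine pow_le_pow_left₀ (sq_nonneg _) ?_ n
    nlinarith
  have r1 : ∑ x : Fin n → Bool, (∏ j, if x j = true then p else 1 - p) = 1 := by
    have h2 := row_sum (n := n) p 1
    simpa using h2
  have r2 : ∑ x : Fin n → Bool, (∏ j, if x j = true then p else 1 - p) *
      (1 / 2) ^ (Finset.univ.filter fun w => x w = true).card = β := by
    rw [row_sum, hβ]
    congr 1
    ring
  have r3 : ∑ x : Fin n → Bool, (∏ j, if x j = true then p else 1 - p) *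
      (1 / 4) ^ (Finset.univ.filter fun w => x w = true).card = γ := by
    rw [row_sum, hγ]
    congr 1
    ring
  have m1 : Ex p (fun F : Fin a × Fin s → Fin n → Bool => Pu F u) = (1 + β) ^ s := by
    have h := Ex_clones (s := s) p u (fun x : Fin n → Bool =>
      1 + (1 / 2 : ℝ) ^ (Finset.univ.filter fun w => x w = true).card)
    have h2 : (∑ x : Fin n → Bool, (∏ j, if x j = true then p else 1 - p) *
        (1 + (1 / 2 : ℝ) ^ (Finset.univ.filter fun w => x w = true).card)) = 1 + β := by
      simp only [mul_add, mul_one]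
      rw [Finset.sum_add_distrib, r1, r2]
    rw [h2] at h
    exact h
  have m2 : Ex p (fun F : Fin a × Fin s → Fin n → Bool => Pu F u ^ 2) =
      (1 + 2 * β + γ) ^ s := by
    have h := Ex_clones (s := s) p u (fun x : Fin n → Bool =>
      (1 + (1 / 2 : ℝ) ^ (Finset.univ.filter fun w => x w = true).card) ^ 2)
    have h2 : (∑ x : Fin n → Bool, (∏ j, if x j = true then p else 1 - p) *
        (1 + (1 / 2 : ℝ) ^ (Finset.univ.filter fun w => x w = true).card) ^ 2) =
        1 + 2 * β + γ := by
      have h3 : ∀ x : Fin n → Bool, (∏ j, if x j = true then p else 1 - p) *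
          (1 + (1 / 2 : ℝ) ^ (Finset.univ.filter fun w => x w = true).card) ^ 2 =
          (∏ j, if x j = true then p else 1 - p) +
          2 * ((∏ j, if x j = true then p else 1 - p) *
            (1 / 2) ^ (Finset.univ.filter fun w => x w = true).card) +
          (∏ j, if x j = true then p else 1 - p) *
            (1 / 4) ^ (Finset.univ.filter fun w => x w = true).card := by
        intro x
        have h4 : (1 / 4 : ℝ) ^ (Finset.univ.filter fun w => x w = true).card =
            ((1 / 2 : ℝ) ^ (Finset.univ.filter fun w => x w = true).card) ^ 2 := by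
          rw [← pow_mul, mul_comm, pow_mul]
          norm_num
        rw [h4]
        ring
      rw [Finset.sum_congr rfl fun x _ => h3 x, Finset.sum_add_distrib, Finset.sum_add_distrib,
        ← Finset.mul_sum, r1, r2, r3]
    rw [h2] at h
    rw [← h]
    refine congrArg (Ex p) ?_
    funext F
    show Pu F u ^ 2 = _
    unfold Pu dgc
    rw [Finset.prod_pow]
  refine chebyshev h0 h1 m1 ?_ hε
  rw [m2]
  have hy : (1 : ℝ) ≤ 1 + 2 * β + γ := by linarith
  have h3 := pow_sub_le (y := 1 + 2 * β + γ) (z := 1 + 2 * β + β ^ 2) (by positivity)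
    (by linarith) hy s
  have h4 : ((1 + β) ^ s) ^ 2 = (1 + 2 * β + β ^ 2) ^ s := by
    rw [← pow_mul, mul_comm, pow_mul]
    congr 1
    ring
  rw [h4]
  refine h3.trans (add_le_add le_rfl ?_)
  have h5 : (1 + 2 * β + γ) ^ s ≤ Real.exp (s * (2 * β + γ)) := by
    rw [Real.exp_nat_mul]
    refine pow_le_pow_left₀ (by linarith) ?_ s
    have := Real.add_one_le_exp (2 * β + γ)
    linarith
  have h6 : (s : ℝ) * ((1 + 2 * β + γ) - (1 + 2 * β + β ^ 2)) ≤ s * γ := by
    refine mul_le_mul_of_nonneg_left ?_ (Nat.cast_nonneg s)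
    nlinarith
  exact mul_le_mul h6 h5 (by positivity) (by positivity)

end Pool.Agent.Lib.Pa7c826n
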