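import Pool.Agent.Lib.Pa7c826n.HGood
import Pool.Agent.Lib.Pa7c826n.ProbC
import Pool.Agent.Lib.Pa7c826n.WTail
import Pool.Agent.Lib.Pa7c826n.WVar
import Pool.Agent.Lib.Pa7c826n.NumS
import Pool.Agent.Lib.Pa7c826n.LnN

/-!
The new graph gives the number of independent sets of the given graph with high probability.

Proof. `a' = G.a + t + 4`, `s = sx u l`, `N = 2 ^ Lx e l`, `p = px e u l`, `n₁ = nn G t`. By
`good_of` the complement of the event is contained in the union of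
* some pair `(clone, j)`, `j < b`, is chosen: probability at most `a' s b p ≤ 1 / 80` (`g1`;
  `Pr_exists_le` over the pairs; the probability of one pair is `p`, e.g. `Ex_prod` or `Ex_rect`
  with singletons and `Pr_compl`);
* `|Pu u - 2| > 1 / (16 n₁ ^ 2)` for some `u`: by `s2` then `|Pu u - (1 + β) ^ s| > 1 / (32 n₁ ^ 2)`;
  `Pr_restrict` (with `cl`, `pd`), `Pr_exists_le`, `Pu_var` with `n = N - b`, and `g2`: at most
  `1 / 80`;
* `Yp - Lp > ZB / (8 n₁)`: `Pr_restrict`, `markov` (`Lp_le_Yp`) and `gap_le` with `D = 4 n₁`,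
  `x₁ = 32 n₁`, `ε₃ = 1 / (4000 n₁)`, `ε₄ = 1 / (32 n₁ ^ 2)` (`H1`, `H2`, `H3`, `s2`): at most
  `8 n₁ (ε₃ (1 + ε₄) ^ a' + (1 / 2) ^ (32 n₁)) ≤ 8 n₁ (2 ε₃ + (1 / 2) ^ (32 n₁)) ≤ 1 / 60`
  (`n₁ ≥ 16`, `a' ≤ n₁`; `1 ≤ ZB` positive).
Total at most `1 / 80 + 1 / 80 + 1 / 60 ≤ 1 / 20`.
-/

namespace Pool.Agent.Lib.Pa7c826n

open Pool.Agent.Lib.Pa7c826 Finset

namespace HProbAux

variable {α β : Type} [Fintype α] [Fintype β] [DecidableEq α] [DecidableEq β]

theorem Pr_pair (p : ℝ) (i : α) (j : β) :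
    Pr p (fun F : α → β → Bool => F i j = true) = p := by
  classical
  rw [Pr_compl]
  have h := Ex_rect (α := α) (β := β) p {i} {j}
  simp only [Finset.mem_singleton, Finset.card_singleton, mul_one, pow_one, forall_eq] at h
  have h2 : Pr p (fun F : α → β → Bool => ¬ F i j = true) = 1 - p := by
    rw [← h]
    unfold Pr
    refine congrArg (Ex p) ?_
    funext F
    by_cases hF : F i j = false
    · simp [hF]
    · have : F i j = true := by simpa using hF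
      simp [this]
  rw [h2]
  ring

/-- the numerical estimate for the third event -/
theorem num3 {n₁ a' : ℕ} (hn : 16 ≤ n₁) (ha : a' ≤ n₁) :
    8 * (n₁ : ℝ) * (1 / (4000 * (n₁ : ℝ)) * (1 + 1 / (32 * (n₁ : ℝ) ^ 2)) ^ a' +
      (1 / 2) ^ (32 * n₁)) ≤ 1 / 60 := by
  have hn' : (16 : ℝ) ≤ n₁ := by exact_mod_cast hn
  have hn0 : (0 : ℝ) < n₁ := by linarith
  have ha' : (a' : ℝ) ≤ n₁ := by exact_mod_cast ha
  have h1 : (1 + 1 / (32 * (n₁ : ℝ) ^ 2)) ^ a' ≤ 2 := by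
    have e1 : (1 + 1 / (32 * (n₁ : ℝ) ^ 2)) ^ a' ≤ Real.exp (a' * (1 / (32 * (n₁ : ℝ) ^ 2))) := by
      rw [Real.exp_nat_mul]
      refine pow_le_pow_left₀ (by positivity) ?_ _
      have := Real.add_one_le_exp (1 / (32 * (n₁ : ℝ) ^ 2))
      linarith
    have e2 : (a' : ℝ) * (1 / (32 * (n₁ : ℝ) ^ 2)) ≤ 1 / 2 := by
      rw [mul_one_div, div_le_div_iff₀ (by positivity) (by norm_num)]
      nlinarith
    have e3 : Real.exp (1 / 2) ≤ 2 := by
      have e4 : Real.exp (1 / 2) ^ 2 = Real.exp 1 := by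
        rw [← Real.exp_nat_mul]
        norm_num
      have e5 := Real.exp_one_lt_d9
      nlinarith [Real.exp_pos (1 / 2)]
    exact e1.trans ((Real.exp_le_exp.2 e2).trans e3)
  have h2 : (n₁ : ℝ) * (1 / 2) ^ (32 * n₁) ≤ (1 / 2) ^ 31 := by
    have e1 : (n₁ : ℝ) ≤ 2 ^ n₁ := by exact_mod_cast (Nat.lt_two_pow_self (n := n₁)).le
    have e2 : (1 / 2 : ℝ) ^ (32 * n₁) = (1 / 2) ^ n₁ * (1 / 2) ^ (31 * n₁) := by
      rw [← pow_add]
      congr 1
      ring
    have e3 : (1 / 2 : ℝ) ^ (31 * n₁) ≤ (1 / 2) ^ 31 :=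
      pow_le_pow_of_le_one (by norm_num) (by norm_num) (by omega)
    have e4 : (n₁ : ℝ) * (1 / 2) ^ n₁ ≤ 1 := by
      rw [one_div, inv_pow, ← div_eq_mul_inv]
      exact (div_le_one (by positivity)).2 e1
    rw [e2, ← mul_assoc]
    calc (n₁ : ℝ) * (1 / 2) ^ n₁ * (1 / 2) ^ (31 * n₁) ≤ 1 * (1 / 2) ^ (31 * n₁) :=
          mul_le_mul_of_nonneg_right e4 (by positivity)
      _ ≤ _ := by rw [one_mul]; exact e3
  have h3 : 8 * (n₁ : ℝ) * (1 / (4000 * (n₁ : ℝ)) * (1 + 1 / (32 * (n₁ : ℝ) ^ 2)) ^ a') ≤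
      1 / 250 := by
    have e1 : 8 * (n₁ : ℝ) * (1 / (4000 * (n₁ : ℝ)) * (1 + 1 / (32 * (n₁ : ℝ) ^ 2)) ^ a') =
        1 / 500 * (1 + 1 / (32 * (n₁ : ℝ) ^ 2)) ^ a' := by
      field_simp
      ring
    rw [e1]
    linarith
  have h4 : (1 / 2 : ℝ) ^ 31 ≤ 1 / 1000 := by norm_num
  rw [mul_add]
  have h5 : 8 * (n₁ : ℝ) * (1 / 2) ^ (32 * n₁) ≤ 8 / 1000 := by
    rw [mul_assoc]
    linarith
  linarith

end HProbAux

open HProbAux in
theorem prob_good {e u l t : ℕ} {G : BGraph}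
    (h : NumOK e u l (nn G t) (G.a + t + 4) G.b) :
    19 / 20 ≤ Pr (px e u l) (fun F : Fin (2 ^ Lx e l) → Fin (2 ^ Lx e l) → Bool =>
      |(numIndep (join (fun i j : Fin (2 ^ Lx e l) => e0 G t (sx u l) i j) F).graph : ℝ) /
        2 ^ (2 ^ Lx e l - G.b + (t + 4)) - numIndep G.graph| ≤
        numIndep G.graph / (2 * t + 1)) := by
  classical
  have h0 : 0 ≤ px e u l := px_nonneg e u l
  have h1 : px e u l ≤ 1 := h.p1.trans (by norm_num)
  obtain ⟨p, hp⟩ : ∃ p, p = px e u l := ⟨_, rfl⟩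
  have has := h.as
  have hb := h.bN
  have g1 := h.g1
  have s2 := h.s2
  have g2 := h.g2
  have H1 := h.H1
  have H2 := h.H2
  have H3 := h.H3
  unfold gamN betaN at *
  rw [← hp] at h0 h1 g1 s2 g2 H1 H2 H3 ⊢
  generalize hN : 2 ^ Lx e l = N at *
  generalize hs : sx u l = s at *
  have hn : 16 ≤ nn G t := by unfold nn; omega
  have ha : G.a + t + 4 ≤ nn G t := by unfold nn; omega
  generalize hn1 : nn G t = n₁ at *
  have hn' : (16 : ℝ) ≤ n₁ := by exact_mod_cast hn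
  have hn0 : (0 : ℝ) < n₁ := by linarith
  -- the three events
  have hE1 : Pr p (fun F : Fin N → Fin N → Bool =>
      ∃ x : (Fin (G.a + t + 4) × Fin s) × Fin G.b,
        F (cl has x.1) ⟨x.2, lt_of_lt_of_le x.2.2 hb⟩ = true) ≤ 1 / 80 := by
    refine (Pr_exists_le h0 h1 _).trans ?_
    have e1 : ∀ x : (Fin (G.a + t + 4) × Fin s) × Fin G.b,
        Pr p (fun F : Fin N → Fin N → Bool =>
          F (cl has x.1) ⟨x.2, lt_of_lt_of_le x.2.2 hb⟩ = true) = p := fun x => Pr_pair p _ _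
    rw [Finset.sum_congr rfl (fun x _ => e1 x), Finset.sum_const, Finset.card_univ,
      Fintype.card_prod, Fintype.card_prod, Fintype.card_fin, Fintype.card_fin, Fintype.card_fin,
      nsmul_eq_mul]
    push_cast at g1 ⊢
    linarith
  have hE2 : Pr p (fun F : Fin N → Fin N → Bool =>
      ∃ v : Fin (G.a + t + 4), 1 / (32 * (n₁ : ℝ) ^ 2) <
        |Pu (res has hb F) v - (1 + (1 - p / 2) ^ (N - G.b)) ^ s|) ≤ 1 / 80 := by
    refine (Pr_exists_le h0 h1 _).trans ?_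
    have e1 : ∀ v : Fin (G.a + t + 4),
        Pr p (fun F : Fin N → Fin N → Bool => 1 / (32 * (n₁ : ℝ) ^ 2) <
          |Pu (res has hb F) v - (1 + (1 - p / 2) ^ (N - G.b)) ^ s|) ≤
        s * (1 - 3 * p / 4) ^ (N - G.b) *
          Real.exp (s * (2 * (1 - p / 2) ^ (N - G.b) + (1 - 3 * p / 4) ^ (N - G.b))) /
          (1 / (32 * (n₁ : ℝ) ^ 2)) ^ 2 := by
      intro v
      have e2 := Pr_restrict p (cl has) (pd hb)
        (fun F' : Fin (G.a + t + 4) × Fin s → Fin (N - G.b) → Bool =>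
          1 / (32 * (n₁ : ℝ) ^ 2) < |Pu F' v - (1 + (1 - p / 2) ^ (N - G.b)) ^ s|)
      have e3 := Pu_var (n := N - G.b) (s := s) h0 h1 v
        (ε := 1 / (32 * (n₁ : ℝ) ^ 2)) (by positivity)
      rw [← e2] at e3
      exact e3
    refine (Finset.sum_le_sum fun v _ => e1 v).trans ?_
    rw [Finset.sum_const, Finset.card_univ, Fintype.card_fin, nsmul_eq_mul]
    exact g2
  have hE3 : Pr p (fun F : Fin N → Fin N → Bool =>
      1 / (8 * (n₁ : ℝ)) * ZB (MG G t) ≤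
        Yp (MG G t) (res has hb F) - Lp (MG G t) (res has hb F)) ≤ 1 / 60 := by
    have e2 := Pr_restrict p (cl has) (pd hb)
      (fun F' : Fin (G.a + t + 4) × Fin s → Fin (N - G.b) → Bool =>
        1 / (8 * (n₁ : ℝ)) * ZB (MG G t) ≤ Yp (MG G t) F' - Lp (MG G t) F')
    have hZ := one_le_ZB (MG G t)
    have hc : 0 < 1 / (8 * (n₁ : ℝ)) * ZB (MG G t) := by positivity
    have e3 := markov h0 h1 (f := fun F' : Fin (G.a + t + 4) × Fin s → Fin (N - G.b) → Bool =>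
      Yp (MG G t) F' - Lp (MG G t) F') (fun F' => sub_nonneg.2 (Lp_le_Yp _ _)) hc
    have e4 := gap_le (a := G.a + t + 4) (s := s) (n := N - G.b) (b := G.b) (p := p)
      (ε₃ := 1 / (4000 * (n₁ : ℝ))) (ε₄ := 1 / (32 * (n₁ : ℝ) ^ 2)) (D := 4 * n₁)
      (x₁ := 32 * n₁) h0 h1 (by positivity) (by positivity) H1 H2 H3
      (by push_cast; linarith) (by have := (abs_le.1 s2).2; linarith) (MG G t)
    refine (le_of_eq e2).trans (e3.trans ?_)
    rw [div_le_iff₀ hc]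
    refine e4.trans ?_
    have e5 := num3 hn ha
    rw [← mul_assoc]
    refine mul_le_mul_of_nonneg_right ?_ (by linarith)
    have e6 : (1 / 60 : ℝ) * (1 / (8 * (n₁ : ℝ))) = 1 / 60 / (8 * (n₁ : ℝ)) := by ring
    rw [e6, le_div_iff₀ (by positivity), mul_comm]
    exact e5
  rw [Pr_compl]
  have hU : Pr p (fun F : Fin N → Fin N → Bool =>
      ¬ |(numIndep (join (fun i j : Fin N => e0 G t s i j) F).graph : ℝ) /
        2 ^ (N - G.b + (t + 4)) - numIndep G.graph| ≤ numIndep G.graph / (2 * t + 1)) ≤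
      1 / 80 + (1 / 80 + 1 / 60) := by
    refine (Pr_mono h0 h1 (B := fun F : Fin N → Fin N → Bool =>
      (∃ x : (Fin (G.a + t + 4) × Fin s) × Fin G.b,
        F (cl has x.1) ⟨x.2, lt_of_lt_of_le x.2.2 hb⟩ = true) ∨
      ((∃ v : Fin (G.a + t + 4), 1 / (32 * (n₁ : ℝ) ^ 2) <
        |Pu (res has hb F) v - (1 + (1 - p / 2) ^ (N - G.b)) ^ s|) ∨
      (1 / (8 * (n₁ : ℝ)) * ZB (MG G t) ≤
        Yp (MG G t) (res has hb F) - Lp (MG G t) (res has hb F)))) ?_).trans ?_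
    · intro F hF
      by_contra hcon
      rw [not_or, not_or] at hcon
      obtain ⟨k1, k2, k3⟩ := hcon
      apply hF
      have k4 := good_of (G := G) (t := t) has hb F ?_ ?_ ?_
      · exact k4
      · intro v j hj
        by_contra hne
        exact k1 ⟨(v, ⟨j, hj⟩), by simpa using hne⟩
      · intro v
        rw [hn1]
        have k5 : ¬ 1 / (32 * (n₁ : ℝ) ^ 2) <
            |Pu (res has hb F) v - (1 + (1 - p / 2) ^ (N - G.b)) ^ s| := fun hk => k2 ⟨v, hk⟩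
        rw [not_lt] at k5
        have k6 : Pu (res has hb F) v - 2 =
            (Pu (res has hb F) v - (1 + (1 - p / 2) ^ (N - G.b)) ^ s) +
              ((1 + (1 - p / 2) ^ (N - G.b)) ^ s - 2) := by ring
        rw [k6]
        refine (abs_add_le _ _).trans ?_
        have k7 : 1 / (16 * (n₁ : ℝ) ^ 2) = 1 / (32 * (n₁ : ℝ) ^ 2) + 1 / (32 * (n₁ : ℝ) ^ 2) := by
          field_simp
          norm_num
        rw [k7]
        exact add_le_add k5 s2
      · rw [hn1]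
        exact (not_le.1 k3).le
    · exact (Pr_or_le h0 h1 _ _).trans (add_le_add hE1
        ((Pr_or_le h0 h1 _ _).trans (add_le_add hE2 hE3)))
  linarith

end Pool.Agent.Lib.Pa7c826n
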