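import Pool.Agent.Lib.Pa7c826n.LnN

/-!
Choice of the parameters of the reduction.

Proof. Choose a rational `u / e` with `max (c / 2) 0 < u / e < 1`, `u ≥ 1` (`exists_rat_btwn`). With
`L = Lx e l = 2 e l`, `J = Jx u l = 2 u l`, `N = 2 ^ L`: `log N = L log 2` and, by `lnN_ge`,
`px e u l = 2 J lnN L / 4 ^ L ≥ 2 J (log 2 - (L + 1) / 2 ^ L) / 2 ^ L`. The claim is implied by
`c * 2 e l log 2 ≤ 4 u l (log 2 - (L + 1) / 2 ^ L)`, i.e. `2 u (L + 1) / 2 ^ L ≤ (2 u - c e) log 2`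
(for `l ≥ 1`; `2 u - c e > 0`), true for large `l`.
-/

namespace Pool.Agent.Lib.Pa7c826n

private theorem pow_large {M : ℝ} (hM : 0 < M) :
    ∃ n₀ : ℕ, ∀ n ≥ n₀, M * ((n : ℝ) + 1) ≤ 2 ^ n := by
  have h1 := tendsto_pow_const_div_const_pow_of_one_lt 1 (r := (2 : ℝ)) (by norm_num)
  have h2 := h1.comp (Filter.tendsto_add_atTop_nat 1)
  have h3 := h2.eventually (gt_mem_nhds (show (0 : ℝ) < 1 / (2 * M) by positivity))
  obtain ⟨n₀, h4⟩ := Filter.eventually_atTop.1 h3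
  refine ⟨n₀, fun n hn => ?_⟩
  have h5 := h4 n hn
  simp only [Function.comp_apply, pow_one] at h5
  rw [div_lt_div_iff₀ (by positivity) (by positivity)] at h5
  push_cast at h5
  rw [pow_succ] at h5
  nlinarith

theorem dens {c : ℝ} (hc : c < 2) :
    ∃ e u : ℕ, 1 ≤ u ∧ u < e ∧ ∃ l₀ : ℕ, ∀ l ≥ l₀,
      c * Real.log ((2 ^ Lx e l : ℕ) : ℝ) / ((2 ^ Lx e l : ℕ) : ℝ) ≤ px e u l := by
  obtain ⟨q, hq1, hq2⟩ := exists_rat_btwn (show max (c / 2) 0 < (1 : ℝ) from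
    max_lt (by linarith) one_pos)
  have hq0 : (0 : ℝ) < q := lt_of_le_of_lt (le_max_right _ _) hq1
  have hqc : c / 2 < q := lt_of_le_of_lt (le_max_left _ _) hq1
  have hq0' : 0 < q := by exact_mod_cast hq0
  have hq2' : q < 1 := by exact_mod_cast hq2
  have hnum : 0 < q.num := Rat.num_pos.2 hq0'
  obtain ⟨u, hu⟩ : ∃ u : ℕ, q.num = u := ⟨q.num.toNat, by omega⟩
  have hu1 : 1 ≤ u := by omega
  have hden : 0 < q.den := q.den_pos
  have hqe : (q : ℝ) = (u : ℝ) / (q.den : ℝ) := by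
    have h := Rat.cast_def (K := ℝ) q
    rw [h, hu]
    push_cast
    rfl
  have hdp : (0 : ℝ) < q.den := by exact_mod_cast hden
  have hue : u < q.den := by
    rw [hqe, div_lt_one hdp] at hq2
    exact_mod_cast hq2
  have hce : c * q.den < 2 * u := by
    rw [hqe, lt_div_iff₀ hdp] at hqc
    linarith
  refine ⟨q.den, u, hu1, hue, ?_⟩
  set e := q.den with he
  have hlog : 0 < Real.log 2 := Real.log_pos (by norm_num)
  have hd : 0 < Real.log 2 * (2 * u - c * e) := mul_pos hlog (by linarith)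
  have hup : (0 : ℝ) < u := by exact_mod_cast hu1
  obtain ⟨n₀, hn₀⟩ := pow_large (show 0 < 2 * (u : ℝ) / (Real.log 2 * (2 * u - c * e)) by
    positivity)
  refine ⟨n₀, fun l hl => ?_⟩
  have hL : n₀ ≤ Lx e l := by
    unfold Lx
    nlinarith
  have h1 := hn₀ _ hL
  rw [div_mul_eq_mul_div, div_le_iff₀ hd] at h1
  have h2 := lnN_ge (Lx e l)
  have h3 : px e u l = (2 * Jx u l * lnN (Lx e l) : ℝ) / 2 ^ (2 * Lx e l) := by
    unfold px Xx
    push_cast
    rfl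
  rw [h3]
  have hcast : ((2 ^ Lx e l : ℕ) : ℝ) = 2 ^ Lx e l := by push_cast; rfl
  rw [hcast, Real.log_pow, div_le_div_iff₀ (by positivity) (by positivity)]
  have h4 : (2 : ℝ) ^ (2 * Lx e l) = 2 ^ Lx e l * 2 ^ Lx e l := by
    rw [two_mul, pow_add]
  rw [h4]
  have hP : (0 : ℝ) < 2 ^ Lx e l := by positivity
  have hJ : (Jx u l : ℝ) = 2 * u * l := by
    unfold Jx
    push_cast
    rfl
  have hLr : (Lx e l : ℝ) = 2 * e * l := by
    unfold Lx
    push_cast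
    rfl
  have hl0 : (0 : ℝ) ≤ l := Nat.cast_nonneg _
  have hJn : (0 : ℝ) ≤ Jx u l := Nat.cast_nonneg _
  rw [← mul_assoc]
  refine mul_le_mul_of_nonneg_right ?_ hP.le
  have h5 : (2 * Jx u l : ℝ) * (2 ^ Lx e l * Real.log 2 - (Lx e l + 1)) ≤
      2 * Jx u l * lnN (Lx e l) := mul_le_mul_of_nonneg_left h2 (by positivity)
  refine le_trans ?_ h5
  rw [hJ]
  have h6 : (2 * l : ℝ) * (2 * u * (Lx e l + 1)) ≤
      2 * l * (2 ^ Lx e l * (Real.log 2 * (2 * u - c * e))) :=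
    mul_le_mul_of_nonneg_left h1 (by positivity)
  have h7 : c * (Lx e l * Real.log 2) * 2 ^ Lx e l =
      2 * l * (2 ^ Lx e l * (Real.log 2 * (c * e))) := by
    rw [hLr]
    ring
  rw [h7]
  nlinarith

end Pool.Agent.Lib.Pa7c826n
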