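import Pool.Agent.Lib.Pa7c826n.LnN

/-!
A vertex has about `2 ^ J log 2` clones of weight `2 ^ (- J)`, so that the sets of clones of a
vertex have total weight about `2`.

Write `J = Jx u l ≥ 2 l ≥ 6`, `s = sx u l = lnN J`, `τ = 1 / 2 ^ l`. Upper bound:
`(1 + β) ^ s ≤ exp (s β) ≤ exp (log 2 * exp τ)` (`lnN_le`), `exp τ ≤ 1 + 2 τ`, so it is at most
`2 exp (2 τ log 2) ≤ 2 (1 + 4 τ log 2) ≤ 2 + 6 τ` (`exp x ≤ 1 + 2 x` for `0 ≤ x ≤ 1`). Lower bound: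
`1 + β ≥ exp (β - β ^ 2 / 2)` (`β ≥ 0`: `log (1 + β) ≥ β - β ^ 2 / 2`), `β ≤ 2 * 2 ^ (- J)`, so
`(1 + β) ^ s ≥ exp (s β (1 - β / 2))` and
`s β (1 - β / 2) ≥ (2 ^ J log 2 - (J + 1)) * 2 ^ (- J) * (1 - τ) * (1 - 2 ^ (- J)) ≥
log 2 - τ - (J + 2) 2 ^ (- J) ≥ log 2 - 2 τ`, as `(J + 2) 2 ^ (- J) ≤ 2 ^ (- l)` for `J ≥ 2 l`,
`l ≥ 3`. Hence the lower bound `2 exp (- 2 τ) ≥ 2 - 4 τ`.
`sbeta_le`: `s β ≤ 2 ^ J * log 2 * 2 ^ (- J) * exp τ ≤ 2`.
-/

namespace Pool.Agent.Lib.Pa7c826n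

namespace NumBAux

theorem exp_le_lin {x : ℝ} (h0 : 0 ≤ x) (h1 : x ≤ 1) : Real.exp x ≤ 1 + 2 * x := by
  have h := Real.abs_exp_sub_one_le (x := x) (by rw [abs_of_nonneg h0]; exact h1)
  rw [abs_of_nonneg h0] at h
  have := le_abs_self (Real.exp x - 1)
  linarith

theorem sq_le_pow (n : ℕ) : (n + 6 + 2) ^ 2 ≤ 2 ^ (n + 6) := by
  induction n with
  | zero => norm_num
  | succ n ih =>
    have : 2 ^ (n + 1 + 6) = 2 * 2 ^ (n + 6) := by ring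
    rw [this]
    have h2 : (n + 1 + 6 + 2) ^ 2 ≤ 2 * (n + 6 + 2) ^ 2 := by
      have e1 : (n + 1 + 6 + 2) ^ 2 = n * n + 18 * n + 81 := by ring
      have e2 : 2 * (n + 6 + 2) ^ 2 = 2 * (n * n) + 32 * n + 128 := by ring
      rw [e1, e2]
      have : 0 ≤ n * n := Nat.zero_le _
      omega
    omega

theorem key_nat {l J : ℕ} (hl : 3 ≤ l) (hJ : 2 * l ≤ J) : (J + 2) * 2 ^ l ≤ 2 ^ J := by
  have h1 : (J + 2) ^ 2 ≤ 2 ^ J := by
    have h := sq_le_pow (J - 6)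
    have e : J - 6 + 6 = J := by omega
    rwa [e] at h
  have h2 : (2 ^ l) ^ 2 ≤ 2 ^ J := by
    rw [← pow_mul]
    exact Nat.pow_le_pow_right (by norm_num) (by omega)
  have h3 : ((J + 2) * 2 ^ l) ^ 2 ≤ (2 ^ J) ^ 2 := by
    calc ((J + 2) * 2 ^ l) ^ 2 = (J + 2) ^ 2 * (2 ^ l) ^ 2 := by ring
      _ ≤ 2 ^ J * 2 ^ J := Nat.mul_le_mul h1 h2
      _ = (2 ^ J) ^ 2 := by ring
  exact (Nat.pow_le_pow_iff_left (by norm_num)).1 h3

theorem log2_lt : Real.log 2 < 0.6932 := by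
  have := Real.log_two_lt_d9
  linarith

theorem tau_le {l : ℕ} (hl : 3 ≤ l) : (1 : ℝ) / 2 ^ l ≤ 1 / 8 := by
  have h : (2 : ℝ) ^ 3 ≤ 2 ^ l := pow_le_pow_right₀ (by norm_num) hl
  rw [div_le_div_iff₀ (by positivity) (by norm_num)]
  linarith

/-- `s β ≤ log 2 * (1 + 2 τ)` -/
theorem sb_le {l J : ℕ} (hl : 3 ≤ l) {β s : ℝ} (h0 : 0 ≤ β)
    (hs : s ≤ 2 ^ J * Real.log 2)
    (h2 : β ≤ (1 / 2) ^ J * Real.exp (1 / 2 ^ l)) :
    s * β ≤ Real.log 2 * (1 + 2 * (1 / 2 ^ l)) := by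
  have ht := tau_le hl
  have ht0 : (0 : ℝ) < 1 / 2 ^ l := by positivity
  have he := exp_le_lin ht0.le (by linarith)
  have hlog : 0 < Real.log 2 := Real.log_pos (by norm_num)
  have e1 : (2 : ℝ) ^ J * (1 / 2) ^ J = 1 := by
    rw [← mul_pow]; norm_num
  calc s * β ≤ (2 ^ J * Real.log 2) * ((1 / 2) ^ J * Real.exp (1 / 2 ^ l)) :=
        mul_le_mul hs h2 h0 (by positivity)
    _ = (2 ^ J * (1 / 2) ^ J) * (Real.log 2 * Real.exp (1 / 2 ^ l)) := by ring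
    _ = Real.log 2 * Real.exp (1 / 2 ^ l) := by rw [e1, one_mul]
    _ ≤ Real.log 2 * (1 + 2 * (1 / 2 ^ l)) := mul_le_mul_of_nonneg_left he hlog.le

theorem upper {l J s : ℕ} (hl : 3 ≤ l) {β : ℝ} (h0 : 0 ≤ β)
    (hs : (s : ℝ) ≤ 2 ^ J * Real.log 2)
    (h2 : β ≤ (1 / 2) ^ J * Real.exp (1 / 2 ^ l)) :
    (1 + β) ^ s ≤ 2 + 6 * (1 / 2 ^ l) := by
  have ht := tau_le hl
  have ht0 : (0 : ℝ) < 1 / 2 ^ l := by positivity
  have hlog : 0 < Real.log 2 := Real.log_pos (by norm_num)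
  have hl2 := log2_lt
  have hsb := sb_le hl h0 hs h2
  set t : ℝ := 1 / 2 ^ l with htdef
  have h3 : (1 + β) ^ s ≤ Real.exp (s * β) := by
    rw [Real.exp_nat_mul]
    have h4 : 1 + β ≤ Real.exp β := by
      have := Real.add_one_le_exp β
      linarith
    exact pow_le_pow_left₀ (by linarith) h4 s
  have h5 : Real.exp (s * β) ≤ Real.exp (Real.log 2 * (1 + 2 * t)) := Real.exp_le_exp.2 hsb
  have h6 : Real.exp (Real.log 2 * (1 + 2 * t)) = 2 * Real.exp (2 * t * Real.log 2) := by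
    have : Real.log 2 * (1 + 2 * t) = Real.log 2 + 2 * t * Real.log 2 := by ring
    rw [this, Real.exp_add, Real.exp_log (by norm_num)]
  have h7 : Real.exp (2 * t * Real.log 2) ≤ 1 + 2 * (2 * t * Real.log 2) :=
    exp_le_lin (by positivity) (by nlinarith)
  nlinarith

theorem lower {l J s : ℕ} (hl : 3 ≤ l) (hJ : 2 * l ≤ J) {β : ℝ}
    (hs : (s : ℝ) ≤ 2 ^ J * Real.log 2) (hs' : 2 ^ J * Real.log 2 - (J + 1) ≤ (s : ℝ))
    (h1 : (1 / 2) ^ J * Real.exp (-(1 / 2 ^ l)) ≤ β) :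
    2 - 4 * (1 / 2 ^ l) ≤ (1 + β) ^ s := by
  have ht := tau_le hl
  have ht0 : (0 : ℝ) < 1 / 2 ^ l := by positivity
  have hlog : 0 < Real.log 2 := Real.log_pos (by norm_num)
  have hl2 := log2_lt
  have hk : ((J : ℝ) + 2) * (1 / 2) ^ J ≤ 1 / 2 ^ l := by
    have h := key_nat hl hJ
    have h' : ((J : ℝ) + 2) * 2 ^ l ≤ 2 ^ J := by exact_mod_cast h
    rw [one_div, inv_pow, ← div_eq_mul_inv, div_le_div_iff₀ (by positivity) (by positivity)]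
    linarith
  set t : ℝ := 1 / 2 ^ l with htdef
  set q : ℝ := (1 / 2) ^ J with hq
  have hq0 : 0 < q := by positivity
  have e1 : (2 : ℝ) ^ J * q = 1 := by
    rw [hq, ← mul_pow]; norm_num
  have hJ0 : (0 : ℝ) ≤ (J : ℝ) := Nat.cast_nonneg J
  have hq1 : q ≤ 1 / 8 := by nlinarith
  set b : ℝ := q * Real.exp (-t) with hb
  have hexp1 : Real.exp (-t) ≤ 1 := by
    rw [Real.exp_le_one_iff]; linarith
  have hexp0 : 1 - t ≤ Real.exp (-t) := by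
    have := Real.add_one_le_exp (-t)
    linarith
  have hb0 : 0 ≤ b := by positivity
  have hbq : b ≤ q := by
    rw [hb]
    nlinarith
  have hbq' : q * (1 - t) ≤ b := by
    rw [hb]
    exact mul_le_mul_of_nonneg_left hexp0 hq0.le
  have hmono : (1 + b) ^ s ≤ (1 + β) ^ s := pow_le_pow_left₀ (by linarith) (by linarith) s
  have hexpb : Real.exp (b - b ^ 2 / 2) ≤ 1 + b := by
    have hlogb : b - b ^ 2 / 2 ≤ Real.log (1 + b) := by
      have h := Real.one_sub_inv_le_log_of_pos (show 0 < 1 + b by linarith)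
      have h8 : b - b ^ 2 / 2 ≤ Real.log (1 + b) := by
        rcases eq_or_lt_of_le hb0 with h0 | h0
        · rw [← h0]; simp
        · have h9 := Real.le_log_one_add_of_nonneg hb0
          have h10 : b - b ^ 2 / 2 ≤ 2 * b / (b + 2) := by
            rw [le_div_iff₀ (by linarith)]
            have : 0 ≤ b ^ 3 := by positivity
            nlinarith
          linarith
      exact h8
    calc Real.exp (b - b ^ 2 / 2) ≤ Real.exp (Real.log (1 + b)) := Real.exp_le_exp.2 hlogb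
      _ = 1 + b := Real.exp_log (by linarith)
  have h11 : Real.exp (s * (b - b ^ 2 / 2)) ≤ (1 + b) ^ s := by
    rw [Real.exp_nat_mul]
    exact pow_le_pow_left₀ (Real.exp_pos _).le hexpb s
  have hsq : (s : ℝ) * q ≤ Real.log 2 := by
    calc (s : ℝ) * q ≤ (2 ^ J * Real.log 2) * q := mul_le_mul_of_nonneg_right hs hq0.le
      _ = (2 ^ J * q) * Real.log 2 := by ring
      _ = Real.log 2 := by rw [e1, one_mul]
  have hsq' : Real.log 2 - (J + 1) * q ≤ (s : ℝ) * q := by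
    calc Real.log 2 - (J + 1) * q = (2 ^ J * q) * Real.log 2 - (J + 1) * q := by rw [e1, one_mul]
      _ = (2 ^ J * Real.log 2 - (J + 1)) * q := by ring
      _ ≤ (s : ℝ) * q := mul_le_mul_of_nonneg_right hs' hq0.le
  have hs0 : (0 : ℝ) ≤ (s : ℝ) := Nat.cast_nonneg s
  have h12 : Real.log 2 - 2 * t ≤ s * (b - b ^ 2 / 2) := by
    have h13 : q * (1 - t - q) ≤ b - b ^ 2 / 2 := by nlinarith
    have h14 : (s : ℝ) * (q * (1 - t - q)) ≤ s * (b - b ^ 2 / 2) :=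
      mul_le_mul_of_nonneg_left h13 hs0
    have h15 : (s : ℝ) * (q * (1 - t - q)) = s * q - (s * q) * (t + q) := by ring
    have h16 : ((s : ℝ) * q) * (t + q) ≤ 1 * (t + q) :=
      mul_le_mul_of_nonneg_right (by linarith) (by linarith)
    nlinarith
  have h17 : Real.exp (Real.log 2 - 2 * t) ≤ Real.exp (s * (b - b ^ 2 / 2)) :=
    Real.exp_le_exp.2 h12
  have h18 : Real.exp (Real.log 2 - 2 * t) = 2 * Real.exp (-(2 * t)) := by
    rw [sub_eq_add_neg, Real.exp_add, Real.exp_log (by norm_num)]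
  have h19 : 1 - 2 * t ≤ Real.exp (-(2 * t)) := by
    have := Real.add_one_le_exp (-(2 * t))
    linarith
  linarith

theorem J_ge {u l : ℕ} (hu : 1 ≤ u) : 2 * l ≤ Jx u l := by
  unfold Jx
  have : 1 * l ≤ u * l := Nat.mul_le_mul_right l hu
  calc 2 * l = 2 * (1 * l) := by ring
    _ ≤ 2 * (u * l) := Nat.mul_le_mul_left 2 this
    _ = 2 * u * l := by ring

end NumBAux

theorem pow_near {u l : ℕ} (hu : 1 ≤ u) (hl : 3 ≤ l) {β : ℝ}
    (h1 : (1 / 2) ^ Jx u l * Real.exp (-(1 / 2 ^ l)) ≤ β)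
    (h2 : β ≤ (1 / 2) ^ Jx u l * Real.exp (1 / 2 ^ l)) :
    |(1 + β) ^ sx u l - 2| ≤ 6 / 2 ^ l := by
  have h0 : 0 ≤ β := le_trans (by positivity) h1
  have hs : (sx u l : ℝ) ≤ 2 ^ Jx u l * Real.log 2 := lnN_le (Jx u l)
  have hs' : 2 ^ Jx u l * Real.log 2 - ((Jx u l : ℕ) + 1) ≤ (sx u l : ℝ) := lnN_ge (Jx u l)
  have hup := NumBAux.upper hl h0 hs h2
  have hlo := NumBAux.lower hl (NumBAux.J_ge hu) hs hs' h1
  have e : (6 : ℝ) / 2 ^ l = 6 * (1 / 2 ^ l) := by ring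
  have ht0 : (0 : ℝ) < 1 / 2 ^ l := by positivity
  rw [e, abs_le]
  constructor <;> linarith

theorem sbeta_le {u l : ℕ} (hl : 3 ≤ l) {β : ℝ} (h0 : 0 ≤ β)
    (h2 : β ≤ (1 / 2) ^ Jx u l * Real.exp (1 / 2 ^ l)) : (sx u l : ℝ) * β ≤ 2 := by
  have hs : (sx u l : ℝ) ≤ 2 ^ Jx u l * Real.log 2 := lnN_le (Jx u l)
  have h := NumBAux.sb_le hl h0 hs h2
  have ht := NumBAux.tau_le hl
  have ht0 : (0 : ℝ) < 1 / 2 ^ l := by positivity
  have hl2 := NumBAux.log2_lt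
  have hlog : 0 < Real.log 2 := Real.log_pos (by norm_num)
  nlinarith

end Pool.Agent.Lib.Pa7c826n
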