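import Mathlib

/-!
The number of common neighbours is negligible.

Proof of `phi_le`. Let `h = - log (1 - p) ≥ 0`; for `0 ≤ p ≤ 1 / 2` we have `h ≤ p / (1 - p) ≤ 2 p`
(`Real.log_inv`, `Real.add_one_le_exp` or `Real.one_sub_inv_le_log_of_pos`). Then
`(1 + (1 - p) ^ x) / 2 = exp (- x h / 2) * cosh (x h / 2)` and
`1 - p / 2 = (1 + exp (-h)) / 2 = exp (- h / 2) * cosh (h / 2) ≥ exp (- h / 2)`. So
`(1 + (1 - p) ^ x) / 2 ≤ (1 - p / 2) ^ x * cosh (x h / 2) ≤ (1 - p / 2) ^ x *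
exp (x ^ 2 h ^ 2 / 8) ≤ (1 - p / 2) ^ x * exp (x ^ 2 p ^ 2 / 2)` (`Real.cosh_le_exp_half_sq`).
Take the `n`-th power.
`phi_ge`: `((1 - p / 2) ^ n) ^ x ≤ ((1 + (1 - p) ^ x) / 2) ^ n`: convexity, or
`exp (- x h / 2) cosh (h / 2) ^ x ≤ exp (- x h / 2) cosh (x h / 2)`; equivalently the power mean
inequality `((1 + q) / 2) ^ x ≤ (1 + q ^ x) / 2` (`inner_le_nnorm_mul_nnorm`, or
`add_pow_le_pow_mul_pow_of_add_eq_one`, or `convexOn_pow`; for `x ≥ 1`; trivial for `x = 0`).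
-/

namespace Pool.Agent.Lib.Pa7c826n

theorem phi_le {p : ℝ} (h0 : 0 ≤ p) (h1 : p ≤ 1 / 2) (n x : ℕ) :
    ((1 + (1 - p) ^ x) / 2) ^ n ≤
      ((1 - p / 2) ^ n) ^ x * Real.exp (n * (x : ℝ) ^ 2 * p ^ 2 / 2) := by
  have hq : 0 < 1 - p := by linarith
  obtain ⟨u, hu⟩ : ∃ u, u = -Real.log (1 - p) / 2 := ⟨_, rfl⟩
  have hqe : 1 - p = Real.exp (-(2 * u)) := by
    rw [hu, show -(2 * (-Real.log (1 - p) / 2)) = Real.log (1 - p) by ring, Real.exp_log hq]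
  have hu0 : 0 ≤ u := by
    have h2 : Real.log (1 - p) ≤ 0 := Real.log_nonpos hq.le (by linarith)
    rw [hu]
    linarith
  have hup : u ≤ p := by
    have h2 := Real.one_sub_inv_le_log_of_pos hq
    have h3 : (1 - p)⁻¹ ≤ 1 + 2 * p := by
      rw [inv_le_iff_one_le_mul₀ hq]
      nlinarith
    rw [hu]
    linarith
  have hpow : (1 - p) ^ x = Real.exp (-(2 * (u * x))) := by
    rw [hqe, ← Real.exp_nat_mul]
    congr 1
    ring
  have e1 : (1 + (1 - p) ^ x) / 2 = Real.exp (-(u * x)) * Real.cosh (u * x) := by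
    rw [hpow, Real.cosh_eq, mul_div_assoc', mul_add, ← Real.exp_add, ← Real.exp_add]
    congr 2
    · rw [show -(u * ↑x) + u * ↑x = 0 by ring, Real.exp_zero]
    · congr 1
      ring
  have e2 : Real.exp (-u) ≤ 1 - p / 2 := by
    have h2 : 1 - p / 2 = Real.exp (-u) * Real.cosh u := by
      rw [Real.cosh_eq, mul_div_assoc', mul_add, ← Real.exp_add, ← Real.exp_add,
        show -u + u = 0 by ring, Real.exp_zero, show -u + -u = -(2 * u) by ring, ← hqe]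
      ring
    rw [h2]
    exact le_mul_of_one_le_right (Real.exp_pos _).le (Real.one_le_cosh u)
  have e3 : Real.exp (-(u * x)) ≤ (1 - p / 2) ^ x := by
    have h2 := pow_le_pow_left₀ (Real.exp_pos _).le e2 x
    rw [← Real.exp_nat_mul] at h2
    rw [show -(u * ↑x) = (x : ℝ) * -u by ring]
    exact h2
  have e4 : Real.cosh (u * x) ≤ Real.exp ((x : ℝ) ^ 2 * p ^ 2 / 2) := by
    refine (Real.cosh_le_exp_half_sq _).trans (Real.exp_le_exp.2 ?_)
    have h2 : u ^ 2 ≤ p ^ 2 := pow_le_pow_left₀ hu0 hup 2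
    have h3 : 0 ≤ (x : ℝ) ^ 2 := sq_nonneg _
    rw [mul_pow]
    nlinarith
  have e5 : (1 + (1 - p) ^ x) / 2 ≤ (1 - p / 2) ^ x * Real.exp ((x : ℝ) ^ 2 * p ^ 2 / 2) := by
    rw [e1]
    exact mul_le_mul e3 e4 (Real.cosh_pos _).le (pow_nonneg (by linarith) _)
  have e6 : 0 ≤ (1 + (1 - p) ^ x) / 2 := by
    have := pow_nonneg hq.le x
    linarith
  refine (pow_le_pow_left₀ e6 e5 n).trans_eq ?_
  rw [mul_pow, ← Real.exp_nat_mul, ← pow_mul, ← pow_mul, mul_comm x n]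
  congr 2
  ring

theorem phi_ge {p : ℝ} (h0 : 0 ≤ p) (h1 : p ≤ 1) (n x : ℕ) :
    ((1 - p / 2) ^ n) ^ x ≤ ((1 + (1 - p) ^ x) / 2) ^ n := by
  have hq : 0 ≤ 1 - p := by linarith
  have key : (1 - p / 2) ^ x ≤ (1 + (1 - p) ^ x) / 2 := by
    rcases Nat.eq_zero_or_pos x with h | h
    · subst h
      norm_num
    · obtain ⟨y, rfl⟩ : ∃ y, x = y + 1 := ⟨x - 1, by omega⟩
      have h2 := add_pow_le (zero_le_one' ℝ) hq (y + 1)
      rw [one_pow, Nat.add_sub_cancel] at h2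
      have h3 : (1 - p / 2) ^ (y + 1) = (1 + (1 - p)) ^ (y + 1) / 2 ^ (y + 1) := by
        rw [← div_pow]
        congr 1
        ring
      rw [h3, div_le_iff₀ (by positivity)]
      refine h2.trans_eq ?_
      rw [pow_succ (2 : ℝ)]
      ring
  rw [← pow_mul, mul_comm n x, pow_mul]
  exact pow_le_pow_left₀ (pow_nonneg (by linarith) _) key n

end Pool.Agent.Lib.Pa7c826n
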