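import Pool.Agent.Lib.Pa7c826n.NumA
import Pool.Agent.Lib.Pa7c826n.NumB
import Pool.Agent.Lib.Pa7c826n.NumC
import Pool.Agent.Lib.Pa7c826n.NumS

/-!
The numerical facts hold for all large `l`.

Write `T = 2 ^ l`, `L = 2 e l`, `J = 2 u l`, `N = 2 ^ L = T ^ (2 e)`, `2 ^ J = T ^ (2 u)`; as
`u + 1 ≤ e`, `N ≥ 2 ^ J * T ^ 2`. From `n₁ ^ 40 ≤ T` and `n₁ ≥ 16`: `16 ^ 35 * n₁ ^ 5 ≤ T`, and
`a, b ≤ n₁ ≤ T`. Choose `l₀` such that `2 ^ 40 * (e + 1) ^ 4 * l ^ 4 ≤ 2 ^ l` for `l ≥ l₀` (and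
`l₀ ≥ 3`); see `growth`. Facts: `sx u l = lnN J ≤ 2 ^ J` (`lnN_le_pow`), `p = px ≤ 2 J / N`
(`px_le`), `β = betaN ≤ 2 * 2 ^ (-J)` (`beta_le`, `exp (1 / T) ≤ 2`), `γ = gamN ≤
2 * T ^ (- 3 u)` (`gamma_le`), the hypothesis `hC` of NumA: `J (L + 1 + b + J) T ≤ N` since
`L + 1 + b + J ≤ 2 (2 L + 1) * T`, so that the left side is at most `2 L (2 L + 1) T ^ 2 ≤ T ^ 4`.
* `p1`: `2 J ≤ T / 2 ≤ N / 2`. `as`: `a s ≤ T * 2 ^ J ≤ N`. `bN`: `b ≤ T ≤ N`.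
* `g1`: `a s b p ≤ n₁ ^ 2 * 2 ^ J * 2 J / N ≤ 2 J n₁ ^ 2 / T ^ 2 ≤ 2 J / T ≤ 1 / 80`.
* `s2`: `pow_near`, `6 / T ≤ 1 / (32 n₁ ^ 2)`.
* `g2`: `s γ ≤ 2 T ^ (2 u - 3 u) ≤ 2 / T`, `s β ≤ 2` (`sbeta_le`), so the exponent is at most `5` and
  `exp 5 ≤ 150`; the left side is at most `n₁ * 300 / T * 1024 n₁ ^ 4 ≤ 1 / 80`.
* `H1`: `phi_le` with `n x ^ 2 p ^ 2 / 2 ≤ N * (32 n₁) ^ 2 * (2 J / N) ^ 2 / 2 =
  2048 n₁ ^ 2 J ^ 2 / N ≤ 1 / (8000 n₁)`, and `exp y ≤ 1 + 2 y` for `0 ≤ y ≤ 1`.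
* `H2`: `phi_le` with `n x ^ 2 p ^ 2 / 2 ≤ x * (a s) * 2 J ^ 2 / N ≤ x * 2 J ^ 2 n₁ / T ^ 2 ≤
  x log 2`.
* `H3`: `a s 2 β ≤ n₁ * 2 * 2` by `sbeta_le`.
-/

namespace Pool.Agent.Lib.Pa7c826n

theorem growth (C : ℕ) : ∃ l₀ : ℕ, ∀ l ≥ l₀, C * l ^ 4 ≤ 2 ^ l := by
  have h := tendsto_pow_const_div_const_pow_of_one_lt 4 (show (1 : ℝ) < 2 by norm_num)
  have h2 : ∀ᶠ n : ℕ in Filter.atTop, (n : ℝ) ^ 4 / 2 ^ n < 1 / ((C : ℝ) + 1) :=
    h.eventually (gt_mem_nhds (by positivity))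
  obtain ⟨l₀, hl₀⟩ := Filter.eventually_atTop.1 h2
  refine ⟨l₀, fun l hl => ?_⟩
  have h3 := hl₀ l hl
  rw [div_lt_div_iff₀ (by positivity) (by positivity), one_mul] at h3
  have h4 : ((l ^ 4 * (C + 1) : ℕ) : ℝ) < ((2 ^ l : ℕ) : ℝ) := by
    push_cast
    exact h3
  have h5 : l ^ 4 * (C + 1) < 2 ^ l := by exact_mod_cast h4
  nlinarith [Nat.zero_le (l ^ 4)]

namespace NumDAux

theorem exp_five : Real.exp 5 ≤ 150 := by
  have h := Real.exp_one_lt_d9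
  have h2 : Real.exp 5 = Real.exp 1 ^ 5 := by
    rw [← Real.exp_nat_mul]
    norm_num
  rw [h2]
  have h3 : Real.exp 1 ^ 5 ≤ (2.7182818286 : ℝ) ^ 5 :=
    pow_le_pow_left₀ (Real.exp_pos _).le h.le 5
  exact h3.trans (by norm_num)

theorem exp_le_lin {y : ℝ} (h0 : 0 ≤ y) (h1 : y ≤ 1) : Real.exp y ≤ 1 + 2 * y := by
  have h := Real.abs_exp_sub_one_le (x := y) (by rw [abs_of_nonneg h0]; exact h1)
  rw [abs_of_nonneg h0] at h
  have := (abs_le.1 h).2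
  linarith

/-- basic estimates in natural numbers -/
theorem basic {e l n₁ : ℕ}
    (hg : 2 ^ 40 * (e + 1) ^ 4 * l ^ 4 ≤ 2 ^ l) (h16 : 16 ≤ n₁) (hn : n₁ ^ 40 ≤ 2 ^ l) :
    2 ^ 78 * (Lx e l) ^ 2 * n₁ ^ 5 ≤ 2 ^ l := by
  have h1 : 2 ^ 36 * (Lx e l) ^ 4 ≤ 2 ^ l := by
    refine le_trans ?_ hg
    unfold Lx
    have : e ^ 4 ≤ (e + 1) ^ 4 := Nat.pow_le_pow_left (Nat.le_succ e) 4
    calc 2 ^ 36 * (2 * e * l) ^ 4 = 2 ^ 40 * e ^ 4 * l ^ 4 := by ring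
      _ ≤ 2 ^ 40 * (e + 1) ^ 4 * l ^ 4 := by gcongr
  have h2 : 2 ^ 120 * n₁ ^ 10 ≤ 2 ^ l := by
    refine le_trans ?_ hn
    calc 2 ^ 120 * n₁ ^ 10 = 16 ^ 30 * n₁ ^ 10 := by norm_num
      _ ≤ n₁ ^ 30 * n₁ ^ 10 := by gcongr
      _ = n₁ ^ 40 := by ring
  have h3 : (2 ^ 78 * (Lx e l) ^ 2 * n₁ ^ 5) ^ 2 ≤ (2 ^ l) ^ 2 := by
    calc (2 ^ 78 * (Lx e l) ^ 2 * n₁ ^ 5) ^ 2
        = (2 ^ 36 * (Lx e l) ^ 4) * (2 ^ 120 * n₁ ^ 10) := by ring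
      _ ≤ 2 ^ l * 2 ^ l := Nat.mul_le_mul h1 h2
      _ = (2 ^ l) ^ 2 := by ring
  exact (Nat.pow_le_pow_iff_left (by norm_num)).1 h3

end NumDAux

open NumDAux

theorem numOK {e u : ℕ} (hu : 1 ≤ u) (hue : u < e) :
    ∃ l₀ : ℕ, ∀ l ≥ l₀, ∀ n₁ a b : ℕ, 16 ≤ n₁ → n₁ ^ 40 ≤ 2 ^ l → a ≤ n₁ → b ≤ n₁ →
      NumOK e u l n₁ a b := by
  obtain ⟨l₁, hl₁⟩ := growth (2 ^ 40 * (e + 1) ^ 4)
  refine ⟨max l₁ 3, fun l hl n₁ a b h16 hn ha hb => ?_⟩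
  have hl3 : 3 ≤ l := le_trans (le_max_right _ _) hl
  have hbase := basic (hl₁ l (le_trans (le_max_left _ _) hl)) h16 hn
  -- natural number facts
  have hLpos : 1 ≤ Lx e l := by
    unfold Lx
    have : 1 ≤ e := by omega
    nlinarith [Nat.mul_le_mul this (show 1 ≤ l by omega)]
  have hJL : Jx u l ≤ Lx e l := by
    unfold Jx Lx
    have : 2 * u ≤ 2 * e := by omega
    exact Nat.mul_le_mul_right l this
  obtain ⟨T, hT⟩ : ∃ T, T = 2 ^ l := ⟨_, rfl⟩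
  obtain ⟨L, hL⟩ : ∃ L, L = Lx e l := ⟨_, rfl⟩
  obtain ⟨J, hJ⟩ : ∃ J, J = Jx u l := ⟨_, rfl⟩
  obtain ⟨N, hN⟩ : ∃ N, N = 2 ^ Lx e l := ⟨_, rfl⟩
  obtain ⟨P, hP⟩ : ∃ P, P = 2 ^ Jx u l := ⟨_, rfl⟩
  rw [← hL, ← hT] at hbase
  rw [← hL] at hLpos
  rw [← hL, ← hJ] at hJL
  have hTpos : 0 < T := by rw [hT]; positivity
  have hPpos : 0 < P := by rw [hP]; positivity
  have hNP : P * T ^ 2 ≤ N := by
    rw [hP, hT, hN, ← pow_mul, ← pow_add]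
    apply Nat.pow_le_pow_right (by norm_num)
    unfold Jx Lx
    have : u + 1 ≤ e := hue
    calc 2 * u * l + l * 2 = 2 * (u + 1) * l := by ring
      _ ≤ 2 * e * l := by gcongr
  have hn5 : 1 ≤ n₁ := by omega
  have hT2 : T ^ 2 ≤ N := le_trans (Nat.le_mul_of_pos_left _ hPpos) hNP
  have hTN : T ≤ N := le_trans (Nat.le_self_pow (by norm_num) _) hT2
  have hnT : n₁ ≤ T := by
    refine le_trans ?_ hbase
    calc n₁ ≤ n₁ ^ 5 := Nat.le_self_pow (by norm_num) _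
      _ ≤ 2 ^ 78 * L ^ 2 * n₁ ^ 5 := Nat.le_mul_of_pos_left _ (by positivity)
  have hsP : sx u l ≤ P := by
    rw [hP]
    exact lnN_le_pow _
  have hC : Jx u l * (Lx e l + 1 + b + Jx u l) * 2 ^ l ≤ 2 ^ Lx e l := by
    rw [← hJ, ← hN, ← hL, ← hT]
    have h1 : J * (L + 1 + b + J) ≤ T := by
      refine le_trans ?_ hbase
      have h2 : n₁ ≤ n₁ ^ 5 := Nat.le_self_pow (by norm_num) _
      calc J * (L + 1 + b + J) ≤ L * (L + 1 + n₁ + L) := by gcongr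
        _ ≤ L * (4 * (L * n₁)) := by
            gcongr
            nlinarith [Nat.mul_le_mul hLpos hn5]
        _ = 4 * L ^ 2 * n₁ := by ring
        _ ≤ 2 ^ 78 * L ^ 2 * n₁ ^ 5 := by
            apply Nat.mul_le_mul _ h2
            exact Nat.mul_le_mul_right _ (by norm_num)
    calc J * (L + 1 + b + J) * T ≤ T * T := Nat.mul_le_mul_right _ h1
      _ = T ^ 2 := by ring
      _ ≤ N := hT2
  have hbN : b ≤ 2 ^ Lx e l := by
    rw [← hN]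
    omega
  -- real facts
  have hTr : (0 : ℝ) < T := by exact_mod_cast hTpos
  have hPr : (0 : ℝ) < P := by exact_mod_cast hPpos
  have hNpos : 0 < N := by rw [hN]; positivity
  have hNr : (0 : ℝ) < N := by exact_mod_cast hNpos
  have hnr : (16 : ℝ) ≤ n₁ := by exact_mod_cast h16
  have hLr : (1 : ℝ) ≤ L := by exact_mod_cast hLpos
  have hJLr : (J : ℝ) ≤ L := by exact_mod_cast hJL
  have hJ0 : (0 : ℝ) ≤ J := Nat.cast_nonneg _
  have har : (a : ℝ) ≤ n₁ := by exact_mod_cast ha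
  have hbr : (b : ℝ) ≤ n₁ := by exact_mod_cast hb
  have hbaser : 2 ^ 78 * (L : ℝ) ^ 2 * n₁ ^ 5 ≤ T := by exact_mod_cast hbase
  have hNPr : (P : ℝ) * T ^ 2 ≤ N := by exact_mod_cast hNP
  have hT2r : (T : ℝ) ^ 2 ≤ N := by exact_mod_cast hT2
  have hTNr : (T : ℝ) ≤ N := by exact_mod_cast hTN
  have hsr : (sx u l : ℝ) ≤ P := by exact_mod_cast hsP
  have hs0 : (0 : ℝ) ≤ sx u l := Nat.cast_nonneg _
  have hTl : (2 : ℝ) ^ l = T := by rw [hT]; push_cast; rfl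
  have hNl : (2 : ℝ) ^ Lx e l = N := by rw [hN]; push_cast; rfl
  have hPl : (2 : ℝ) ^ Jx u l = P := by rw [hP]; push_cast; rfl
  -- monomials: `2 ^ 78 * J ^ i * n₁ ^ j ≤ T` for `i ≤ 2`, `j ≤ 5`
  have mono : ∀ i j : ℕ, i ≤ 2 → j ≤ 5 → 2 ^ 78 * (J : ℝ) ^ i * n₁ ^ j ≤ T := by
    intro i j hi hj
    refine le_trans ?_ hbaser
    have h1 : (J : ℝ) ^ i ≤ (L : ℝ) ^ 2 :=
      (pow_le_pow_left₀ hJ0 hJLr i).trans (pow_le_pow_right₀ hLr hi)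
    have h2 : (n₁ : ℝ) ^ j ≤ (n₁ : ℝ) ^ 5 := pow_le_pow_right₀ (by linarith) hj
    gcongr
  have hp0 : 0 ≤ px e u l := px_nonneg e u l
  have hpN : px e u l ≤ 2 * J / N := by
    have := px_le e u l
    rwa [← hJ, hNl] at this
  have hp1 : px e u l ≤ 1 / 2 := by
    refine hpN.trans ?_
    rw [div_le_div_iff₀ hNr (by norm_num)]
    have := mono 1 0 (by norm_num) (by norm_num)
    simp only [pow_one, pow_zero, mul_one] at this
    linarith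
  have hβ0 : 0 ≤ betaN e u l b := by
    unfold betaN
    exact pow_nonneg (by linarith) _
  have hβ2 : betaN e u l b ≤ (1 / 2) ^ Jx u l * Real.exp (1 / 2 ^ l) :=
    beta_le hue.le hbN hC
  have hβ1 : (1 / 2) ^ Jx u l * Real.exp (-(1 / 2 ^ l)) ≤ betaN e u l b :=
    beta_ge hue.le hbN hC (by linarith)
  have hsβ : (sx u l : ℝ) * betaN e u l b ≤ 2 := sbeta_le hl3 hβ0 hβ2
  have hγ0 : 0 ≤ gamN e u l b := by
    unfold gamN
    exact pow_nonneg (by linarith) _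
  have hγ : gamN e u l b ≤ 2 * (1 / 2) ^ (3 * u * l) :=
    gamma_le hue.le (by omega) hbN hC (by linarith)
  have hsγ : (sx u l : ℝ) * gamN e u l b ≤ 2 / T := by
    have h1 : (2 : ℝ) ^ (3 * u * l) = P * T ^ u := by
      rw [← hPl, ← hTl, ← pow_mul, ← pow_add]
      unfold Jx
      congr 1
      ring
    have h2 : (T : ℝ) ≤ T ^ u := by
      have hT1 : (1 : ℝ) ≤ T := by exact_mod_cast hTpos
      calc (T : ℝ) = T ^ 1 := (pow_one _).symm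
        _ ≤ T ^ u := pow_le_pow_right₀ hT1 hu
    calc (sx u l : ℝ) * gamN e u l b ≤ P * (2 * (1 / 2) ^ (3 * u * l)) :=
          mul_le_mul hsr hγ hγ0 hPr.le
      _ = 2 / T ^ u := by
          rw [one_div, inv_pow, h1]
          field_simp
      _ ≤ 2 / T := by
          apply div_le_div_of_nonneg_left (by norm_num) hTr h2
  have hn0 : (0 : ℝ) ≤ n₁ := by linarith
  have ha0 : (0 : ℝ) ≤ a := Nat.cast_nonneg _
  have hb0 : (0 : ℝ) ≤ b := Nat.cast_nonneg _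
  -- the exponent in `phi_le`
  have hexpo : ∀ x : ℝ, 0 ≤ x → ((2 ^ Lx e l - b : ℕ) : ℝ) * x ^ 2 * px e u l ^ 2 / 2 ≤
      2 * J ^ 2 * x ^ 2 / N := by
    intro x hx
    have h1 : ((2 ^ Lx e l - b : ℕ) : ℝ) ≤ N := by
      rw [← hN]
      exact_mod_cast Nat.sub_le _ _
    have h2 : px e u l ^ 2 ≤ (2 * J / N) ^ 2 := pow_le_pow_left₀ hp0 hpN 2
    calc ((2 ^ Lx e l - b : ℕ) : ℝ) * x ^ 2 * px e u l ^ 2 / 2
        ≤ N * x ^ 2 * (2 * J / N) ^ 2 / 2 := by gcongr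
      _ = 2 * J ^ 2 * x ^ 2 / N := by
          field_simp
  refine ⟨hp1, ?_, hbN, ?_, ?_, ?_, ?_, ?_, ?_⟩
  · -- as
    rw [← hN]
    calc a * sx u l ≤ T * P := Nat.mul_le_mul (ha.trans hnT) hsP
      _ ≤ P * T ^ 2 := by nlinarith [Nat.mul_le_mul hPpos hTpos]
      _ ≤ N := hNP
  · -- g1
    have h1 : (a : ℝ) * sx u l * b * px e u l ≤ n₁ * P * n₁ * (2 * J / N) := by
      gcongr
    refine h1.trans ?_
    rw [show (n₁ : ℝ) * P * n₁ * (2 * J / N) = 2 * J * n₁ ^ 2 * P / N by ring,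
      div_le_div_iff₀ hNr (by norm_num)]
    have h2 := mono 1 2 (by norm_num) (by norm_num)
    rw [pow_one] at h2
    have hT1 : (1 : ℝ) ≤ T := by exact_mod_cast hTpos
    have h3 : 160 * J * (n₁ : ℝ) ^ 2 ≤ T ^ 2 := by
      have h4 : 160 * J * (n₁ : ℝ) ^ 2 ≤ 2 ^ 78 * J * n₁ ^ 2 := by
        have : 0 ≤ (J : ℝ) * n₁ ^ 2 := by positivity
        linarith
      have h5 : (T : ℝ) ≤ T ^ 2 := le_self_pow₀ hT1 (by norm_num)
      linarith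
    calc 2 * (J : ℝ) * n₁ ^ 2 * P * 80 = P * (160 * J * n₁ ^ 2) := by ring
      _ ≤ P * (T : ℝ) ^ 2 := by gcongr
      _ ≤ 1 * (N : ℝ) := by linarith
  · -- s2
    have h1 := pow_near hu hl3 hβ1 hβ2
    refine h1.trans ?_
    rw [hTl, div_le_div_iff₀ hTr (by positivity)]
    have h2 := mono 0 2 (by norm_num) (by norm_num)
    rw [pow_zero, mul_one] at h2
    have : 0 ≤ (n₁ : ℝ) ^ 2 := by positivity
    linarith
  · -- g2
    have hT1 : (1 : ℝ) ≤ T := by exact_mod_cast hTpos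
    have h2 := mono 0 5 (by norm_num) le_rfl
    rw [pow_zero, mul_one] at h2
    have hT2' : (2 : ℝ) / T ≤ 1 := by
      rw [div_le_one hTr]
      have : (1 : ℝ) ≤ (n₁ : ℝ) ^ 5 := one_le_pow₀ (by linarith)
      linarith
    have h3 : (sx u l : ℝ) * (2 * betaN e u l b + gamN e u l b) ≤ 5 := by
      rw [mul_add]
      linarith
    have h4 : Real.exp (sx u l * (2 * betaN e u l b + gamN e u l b)) ≤ 150 :=
      (Real.exp_le_exp.2 h3).trans exp_five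
    have h5 : (sx u l : ℝ) * gamN e u l b *
        Real.exp (sx u l * (2 * betaN e u l b + gamN e u l b)) ≤ 2 / T * 150 :=
      mul_le_mul hsγ h4 (Real.exp_pos _).le (by positivity)
    have h6 : (0 : ℝ) < (1 / (32 * (n₁ : ℝ) ^ 2)) ^ 2 := by
      have : (0 : ℝ) < n₁ := by linarith
      positivity
    calc (a : ℝ) * (sx u l * gamN e u l b *
          Real.exp (sx u l * (2 * betaN e u l b + gamN e u l b)) /
            (1 / (32 * (n₁ : ℝ) ^ 2)) ^ 2)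
        ≤ (n₁ : ℝ) * (2 / (T : ℝ) * 150 / (1 / (32 * (n₁ : ℝ) ^ 2)) ^ 2) := by
          apply mul_le_mul har _ _ hn0
          · exact div_le_div_of_nonneg_right h5 h6.le
          · exact div_nonneg (mul_nonneg (mul_nonneg hs0 hγ0) (Real.exp_pos _).le) h6.le
      _ = 307200 * (n₁ : ℝ) ^ 5 / (T : ℝ) := by
          have : (n₁ : ℝ) ≠ 0 := by
            have : (0 : ℝ) < n₁ := by linarith
            exact this.ne'
          field_simp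
          ring
      _ ≤ 1 / 80 := by
          rw [div_le_div_iff₀ hTr (by norm_num)]
          have : (0 : ℝ) ≤ (n₁ : ℝ) ^ 5 := by positivity
          linarith
  · -- H1
    intro x hx
    have h1 := phi_le hp0 hp1 (2 ^ Lx e l - b) x
    have hx' : (x : ℝ) ≤ 32 * n₁ := by exact_mod_cast hx
    have h2 := hexpo x (Nat.cast_nonneg _)
    have h3 : 2 * (J : ℝ) ^ 2 * (x : ℝ) ^ 2 / N ≤ 1 / (8000 * n₁) := by
      have hx2 : (x : ℝ) ^ 2 ≤ (32 * n₁) ^ 2 := pow_le_pow_left₀ (Nat.cast_nonneg _) hx' 2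
      have h4 := mono 2 3 (by norm_num) (by norm_num)
      rw [div_le_div_iff₀ hNr (by linarith)]
      calc 2 * (J : ℝ) ^ 2 * (x : ℝ) ^ 2 * (8000 * (n₁ : ℝ))
          ≤ 2 * (J : ℝ) ^ 2 * (32 * (n₁ : ℝ)) ^ 2 * (8000 * (n₁ : ℝ)) := by gcongr
        _ = 16384000 * ((J : ℝ) ^ 2 * (n₁ : ℝ) ^ 3) := by ring
        _ ≤ 2 ^ 78 * ((J : ℝ) ^ 2 * (n₁ : ℝ) ^ 3) := by
            apply mul_le_mul_of_nonneg_right (by norm_num) (by positivity)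
        _ = 2 ^ 78 * (J : ℝ) ^ 2 * (n₁ : ℝ) ^ 3 := by ring
        _ ≤ (T : ℝ) := h4
        _ ≤ 1 * (N : ℝ) := by linarith
    have hle1 : (1 : ℝ) / (8000 * n₁) ≤ 1 := by
      rw [div_le_one (by linarith)]
      linarith
    have h5 : Real.exp (((2 ^ Lx e l - b : ℕ) : ℝ) * (x : ℝ) ^ 2 * px e u l ^ 2 / 2) ≤
        1 + 1 / (4000 * (n₁ : ℝ)) := by
      calc Real.exp (((2 ^ Lx e l - b : ℕ) : ℝ) * (x : ℝ) ^ 2 * px e u l ^ 2 / 2)
          ≤ Real.exp (1 / (8000 * n₁)) := Real.exp_le_exp.2 (h2.trans h3)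
        _ ≤ 1 + 2 * (1 / (8000 * n₁)) := exp_le_lin (by positivity) hle1
        _ = 1 + 1 / (4000 * (n₁ : ℝ)) := by
            have h6 : (0 : ℝ) < n₁ := by linarith
            rw [mul_one_div, add_right_inj, div_eq_div_iff (by positivity) (by positivity)]
            ring
    refine h1.trans ?_
    rw [mul_comm]
    exact mul_le_mul_of_nonneg_right h5 (pow_nonneg hβ0 x)
  · -- H2
    intro x hx
    have h1 := phi_le hp0 hp1 (2 ^ Lx e l - b) x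
    have h2 := hexpo x (Nat.cast_nonneg _)
    have hx' : (x : ℝ) ≤ n₁ * P := by
      have : (x : ℝ) ≤ a * sx u l := by exact_mod_cast hx
      exact this.trans (mul_le_mul har hsr hs0 hn0)
    have h3 : 2 * (J : ℝ) ^ 2 * (x : ℝ) ^ 2 / N ≤ x * Real.log 2 := by
      have h4 := mono 2 1 le_rfl (by norm_num)
      rw [pow_one] at h4
      have hlog : (1 : ℝ) / 2 ≤ Real.log 2 := by
        have := Real.log_two_gt_d9
        linarith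
      have hT1 : (1 : ℝ) ≤ T := by exact_mod_cast hTpos
      have h6 : 4 * (J : ℝ) ^ 2 * n₁ * P ≤ N := by
        refine le_trans ?_ hNPr
        have h7 : 4 * (J : ℝ) ^ 2 * n₁ ≤ T ^ 2 := by
          have h8 : 4 * (J : ℝ) ^ 2 * n₁ ≤ 2 ^ 78 * J ^ 2 * n₁ := by
            have : 0 ≤ (J : ℝ) ^ 2 * n₁ := by positivity
            linarith
          have h9 : (T : ℝ) ≤ T ^ 2 := le_self_pow₀ hT1 (by norm_num)
          linarith
        calc 4 * (J : ℝ) ^ 2 * (n₁ : ℝ) * (P : ℝ) = P * (4 * (J : ℝ) ^ 2 * n₁) := by ring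
          _ ≤ P * (T : ℝ) ^ 2 := by gcongr
      have hx0 : (0 : ℝ) ≤ x := Nat.cast_nonneg _
      calc 2 * (J : ℝ) ^ 2 * (x : ℝ) ^ 2 / (N : ℝ) = (x : ℝ) * (2 * (J : ℝ) ^ 2 * x / N) := by ring
        _ ≤ (x : ℝ) * (1 / 2) := by
            apply mul_le_mul_of_nonneg_left _ hx0
            rw [div_le_div_iff₀ hNr (by norm_num)]
            calc 2 * (J : ℝ) ^ 2 * (x : ℝ) * 2 ≤ 2 * (J : ℝ) ^ 2 * ((n₁ : ℝ) * P) * 2 := by gcongr
              _ = 4 * (J : ℝ) ^ 2 * n₁ * P := by ring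
              _ ≤ 1 * (N : ℝ) := by linarith
        _ ≤ (x : ℝ) * Real.log 2 := mul_le_mul_of_nonneg_left hlog hx0
    have h5 : Real.exp (((2 ^ Lx e l - b : ℕ) : ℝ) * (x : ℝ) ^ 2 * px e u l ^ 2 / 2) ≤
        2 ^ x := by
      calc Real.exp (((2 ^ Lx e l - b : ℕ) : ℝ) * (x : ℝ) ^ 2 * px e u l ^ 2 / 2)
          ≤ Real.exp (x * Real.log 2) := Real.exp_le_exp.2 (h2.trans h3)
        _ = 2 ^ x := by rw [Real.exp_nat_mul, Real.exp_log (by norm_num)]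
    refine h1.trans ?_
    rw [mul_pow, mul_comm]
    exact mul_le_mul_of_nonneg_right h5 (pow_nonneg hβ0 x)
  · -- H3
    calc (a : ℝ) * sx u l * (2 * betaN e u l b) = a * (2 * (sx u l * betaN e u l b)) := by ring
      _ ≤ n₁ * (2 * 2) := by
          apply mul_le_mul har _ _ hn0
          · linarith
          · have := mul_nonneg hs0 hβ0
            linarith
      _ = 4 * n₁ := by ring

end Pool.Agent.Lib.Pa7c826n
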