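import Pool.Agent.Lib.Pa7c826n.ProbA

/-!
More random edges: monotone coupling.

`Ex_union`: fix `F'`. The coefficient of `g F'` on the left is the sum of `wt p F₁ * wt q F₂` over
all `(F₁, F₂)` with `F₁ ∪ F₂ = F'`; it is the product over all pairs of
`∑ x y, c p x * c q y * (if (x || y) = F' i j then 1 else 0)` (`c p x = if x then p else 1 - p`),
which is `1 - (1 - p) (1 - q)` for `F' i j = true` and `(1 - p) (1 - q)` otherwise. Formally: it
is convenient to write the left side as a sum over functions `α → β → Bool × Bool`, or to use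
`Ex_prod` twice: `∑ F₁, wt p F₁ * Ex q (fun F => ∏ i, ∏ j, if (F₁ i j || F i j) = F' i j then 1
else 0) = wt (1 - (1 - p) (1 - q)) F'`, and `g (F₁ ∪ F) = ∑ F', g F' * ∏ i, ∏ j, (…)`.
`Ex_lower`: if `p = 1` then `p' = 1`. Otherwise put `p₁ = (p' - p) / (1 - p) ∈ [0, 1]`, so
that `1 - (1 - p₁) (1 - p) = p'`, and average the hypothesis for `E ∪ F₁` over `F₁`
(`(E ∪ F₁) ∪ F = E ∪ (F₁ ∪ F)`, `Bool.or_assoc`).
-/

namespace Pool.Agent.Lib.Pa7c826n

variable {α β : Type} [Fintype α] [Fintype β] [DecidableEq α] [DecidableEq β]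

theorem Ex_union (p q : ℝ) (g : (α → β → Bool) → ℝ) :
    Ex p (fun F₁ => Ex q (fun F => g (fun i j => F₁ i j || F i j))) =
      Ex (1 - (1 - p) * (1 - q)) g := by
  classical
  have hg : ∀ F₁ F : α → β → Bool, g (fun i j => F₁ i j || F i j) =
      ∑ F' : α → β → Bool, g F' *
        ∏ i, ∏ j, (if (F₁ i j || F i j) = F' i j then (1 : ℝ) else 0) := by
    intro F₁ F
    rw [Finset.sum_eq_single (fun i j => F₁ i j || F i j)]
    · simp
    · intro F' _ hne
      have h1 : ∃ i, ∃ j, (F₁ i j || F i j) ≠ F' i j := by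
        by_contra hcon
        push Not at hcon
        exact hne (funext fun i => funext fun j => (hcon i j).symm)
      obtain ⟨i, j, hij⟩ := h1
      rw [Finset.prod_eq_zero (Finset.mem_univ i) (Finset.prod_eq_zero
        (Finset.mem_univ j) (if_neg hij)), mul_zero]
    · intro h
      exact absurd (Finset.mem_univ _) h
  have h1 : ∀ F₁ : α → β → Bool, Ex q (fun F => g (fun i j => F₁ i j || F i j)) =
      ∑ F' : α → β → Bool, g F' * ∏ i, ∏ j, (q * (if (F₁ i j || true) = F' i j then (1 : ℝ) else 0)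
        + (1 - q) * (if (F₁ i j || false) = F' i j then (1 : ℝ) else 0)) := by
    intro F₁
    have h2 : (fun F : α → β → Bool => g (fun i j => F₁ i j || F i j)) = fun F =>
        ∑ F' ∈ (Finset.univ : Finset (α → β → Bool)), g F' *
        ∏ i, ∏ j, (if (F₁ i j || F i j) = F' i j then (1 : ℝ) else 0) := by
      funext F
      exact hg F₁ F
    rw [h2, Ex_sum]
    refine Finset.sum_congr rfl fun F' _ => ?_
    have h3 := Ex_mul (α := α) (β := β) q (g F') (fun F =>
      ∏ i, ∏ j, (if (F₁ i j || F i j) = F' i j then (1 : ℝ) else 0))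
    rw [h3]
    congr 1
    exact Ex_prod q (fun i j b => if (F₁ i j || b) = F' i j then (1 : ℝ) else 0)
  have h4 : (fun F₁ : α → β → Bool => Ex q (fun F => g (fun i j => F₁ i j || F i j))) =
      fun F₁ => ∑ F' ∈ (Finset.univ : Finset (α → β → Bool)), g F' *
        ∏ i, ∏ j, (q * (if (F₁ i j || true) = F' i j then (1 : ℝ) else 0)
        + (1 - q) * (if (F₁ i j || false) = F' i j then (1 : ℝ) else 0)) := funext h1
  rw [h4, Ex_sum]
  unfold Ex
  refine Finset.sum_congr rfl fun F' _ => ?_
  have h5 := Ex_mul (α := α) (β := β) p (g F') (fun F₁ =>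
    ∏ i, ∏ j, (q * (if (F₁ i j || true) = F' i j then (1 : ℝ) else 0)
        + (1 - q) * (if (F₁ i j || false) = F' i j then (1 : ℝ) else 0)))
  unfold Ex at h5
  rw [h5, mul_comm (wt _ F') (g F')]
  congr 1
  have h6 := Ex_prod (α := α) (β := β) p (fun i j b =>
    (q * (if (b || true) = F' i j then (1 : ℝ) else 0)
        + (1 - q) * (if (b || false) = F' i j then (1 : ℝ) else 0)))
  unfold Ex at h6
  rw [h6]
  unfold wt
  refine Finset.prod_congr rfl fun i _ => Finset.prod_congr rfl fun j _ => ?_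
  cases F' i j
  · simp
  · simp
    ring

theorem Ex_lower {c p p' : ℝ} (h0 : 0 ≤ p) (h1 : p ≤ p') (h2 : p' ≤ 1)
    (g : (α → β → Bool) → ℝ)
    (h : ∀ E : α → β → Bool, c ≤ Ex p (fun F => g (fun i j => E i j || F i j)))
    (E : α → β → Bool) : c ≤ Ex p' (fun F => g (fun i j => E i j || F i j)) := by
  rcases eq_or_lt_of_le (h1.trans h2) with hp | hp
  · have hp' : p' = p := by linarith
    rw [hp']
    exact h E
  · have h3 : 0 < 1 - p := by linarith
    have h4 : 0 ≤ (p' - p) / (1 - p) := div_nonneg (by linarith) h3.le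
    have h5 : (p' - p) / (1 - p) ≤ 1 := by
      rw [div_le_one h3]
      linarith
    have h6 : 1 - (1 - (p' - p) / (1 - p)) * (1 - p) = p' := by
      field_simp
      ring
    have h7 := Ex_union ((p' - p) / (1 - p)) p (fun F : α → β → Bool =>
      g (fun i j => E i j || F i j))
    rw [h6] at h7
    rw [← h7]
    have h8 : c = Ex ((p' - p) / (1 - p)) (fun _ : α → β → Bool => c) := (Ex_const _ c).symm
    rw [h8]
    refine Ex_mono h4 h5 fun F₁ => ?_
    have h9 := h (fun i j => E i j || F₁ i j)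
    simpa only [Bool.or_assoc] using h9

end Pool.Agent.Lib.Pa7c826n
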