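import Pool.Agent.Lib.Pa7c826n.MedM
import Pool.Agent.Lib.Pa7c826n.ProbB
import Pool.Agent.Lib.Pa7c826n.ProbD
import Pool.Agent.Lib.Pa7c826n.HProb
import Pool.Agent.Lib.Pa7c826n.NumD
import Pool.Agent.Lib.Pa7c826n.RMach
import Pool.Agent.Lib.Pa7c826n.RCount
import Pool.Agent.Lib.Pa7c826n.Dens

/-!
Hardness below the threshold.

Proof. `e, u` from `dens`, and `l₀` at least the bounds of `dens` and `numOK`, and such that
`2 ^ l₀ ≥ N₀` and `2 ^ l₀ ≥ N₁`; then `N = 2 ^ Lx e l ≥ 2 ^ l ≥ N₀` for `l = ll l₀ G t ≥ l₀`, and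
`(nn G t) ^ 40 ≤ 2 ^ l` (`lg_lower`). By `hasFPRAS_of_weak` it suffices to show `WeakFPRAS`: the machine
of `machine`, the count by `count_fN`. To show the hypothesis of `count_fN`: let
`g F = card {s // Good H (2 t) (f H (2 t) s)} / 2 ^ M` with `H = join e0 F`
(`M = MN e l₀ m G t = m.eval (inCode H (2 t)).length` by `inCode_length`). `NoisyFPRAS` gives
`3 / 4 ≤ Ex (p N) (g (E ∪ ·))` for all `E` in place of `e0`, hence `3 / 4 ≤ Ex (px e u l) g`
(`Ex_lower`, `dens`; `px e u l ≤ 1 / 2` by `NumOK.p1`). By `Ex_inter` and `prob_good`,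
`7 / 10 ≤ Ex (px e u l) (g * indicator of the event of prob_good)`, and on that event
`Good H (2 t) o` implies `Good G t (replicate KN true ++ o)` (`Good.transfer2`, Lib
Pa7c826/Transfer2.lean, after a cast from `ℝ` to `ℚ`; `KN e l₀ G t = N - G.b + (t + 4)`).
-/

namespace Pool.Agent.Lib.Pa7c826n

open Pool.Agent.Lib.Pa7c826

namespace HardAux

theorem core {e u l t : ℕ} {G : BGraph} (m : Polynomial ℕ)
    (f : BGraph → ℕ → List Bool → List Bool) (hnum : NumOK e u l (nn G t) (G.a + t + 4) G.b)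
    (ht : 1 ≤ t) {q : ℝ} (hq0 : 0 ≤ q) (hq1 : q ≤ px e u l)
    (hbase : ∀ E : Fin (2 ^ Lx e l) → Fin (2 ^ Lx e l) → Bool,
      3 / 4 ≤ Ex q (fun F =>
        (Nat.card {r : Fin (m.eval (inCode (join E F) (2 * t)).length) → Bool //
          Good (join E F) (2 * t) (f (join E F) (2 * t) (List.ofFn r))} : ℝ) /
        2 ^ m.eval (inCode (join E F) (2 * t)).length)) :
    7 / 10 ≤ Ex (px e u l)
      (fun F : Fin (2 ^ Lx e l) → Fin (2 ^ Lx e l) → Bool =>
        (Nat.card {s : Fin (m.eval (2 * t + (2 ^ Lx e l + (2 ^ Lx e l +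
            2 ^ Lx e l * 2 ^ Lx e l)) + 3)) → Bool //
          Good G t (List.replicate (2 ^ Lx e l - G.b + (t + 4)) true ++
            f (join (fun i j => e0 G t (sx u l) i j) F) (2 * t) (List.ofFn s))} : ℝ) /
          2 ^ m.eval (2 * t + (2 ^ Lx e l + (2 ^ Lx e l +
            2 ^ Lx e l * 2 ^ Lx e l)) + 3)) := by
  classical
  set len : ℕ := 2 * t + (2 ^ Lx e l + (2 ^ Lx e l + 2 ^ Lx e l * 2 ^ Lx e l)) + 3 with hlen
  have hp1 : px e u l ≤ 1 := hnum.p1.trans (by norm_num)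
  have hp0 : 0 ≤ px e u l := hq0.trans hq1
  let g : (Fin (2 ^ Lx e l) → Fin (2 ^ Lx e l) → Bool) → ℝ := fun H =>
    (Nat.card {r : Fin (m.eval len) → Bool //
      Good ⟨2 ^ Lx e l, 2 ^ Lx e l, H⟩ (2 * t)
        (f ⟨2 ^ Lx e l, 2 ^ Lx e l, H⟩ (2 * t) (List.ofFn r))} : ℝ) / 2 ^ m.eval len
  have hg : ∀ E F : Fin (2 ^ Lx e l) → Fin (2 ^ Lx e l) → Bool,
      (Nat.card {r : Fin (m.eval (inCode (join E F) (2 * t)).length) → Bool //
          Good (join E F) (2 * t) (f (join E F) (2 * t) (List.ofFn r))} : ℝ) /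
        2 ^ m.eval (inCode (join E F) (2 * t)).length = g (fun i j => E i j || F i j) := by
    intro E F
    have h1 : (inCode (join E F) (2 * t)).length = len := by
      rw [inCode_length]
      rfl
    rw [h1]
    rfl
  have hbase2 : ∀ E : Fin (2 ^ Lx e l) → Fin (2 ^ Lx e l) → Bool,
      3 / 4 ≤ Ex q (fun F => g (fun i j => E i j || F i j)) := by
    intro E
    refine (hbase E).trans (le_of_eq ?_)
    refine congrArg (Ex q) ?_
    funext F
    exact hg E F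
  have hup := Ex_lower hq0 hq1 hp1 g hbase2
    (fun i j : Fin (2 ^ Lx e l) => e0 G t (sx u l) i j)
  have hle1 : ∀ F : Fin (2 ^ Lx e l) → Fin (2 ^ Lx e l) → Bool,
      g (fun i j => e0 G t (sx u l) i j || F i j) ≤ 1 := by
    intro F
    have h1 : Nat.card {r : Fin (m.eval len) → Bool //
      Good ⟨2 ^ Lx e l, 2 ^ Lx e l, (fun i j => e0 G t (sx u l) i j || F i j)⟩ (2 * t)
        (f ⟨2 ^ Lx e l, 2 ^ Lx e l, (fun i j => e0 G t (sx u l) i j || F i j)⟩ (2 * t)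
          (List.ofFn r))} ≤ 2 ^ m.eval len := by
      refine (Finite.card_subtype_le _).trans (le_of_eq ?_)
      simp
    show (_ : ℝ) / 2 ^ m.eval len ≤ 1
    rw [div_le_one (by positivity)]
    exact_mod_cast h1
  have hpr := prob_good hnum
  rw [Pr_compl] at hpr
  have hint := Ex_inter hp0 hp1 hle1 (fun F : Fin (2 ^ Lx e l) → Fin (2 ^ Lx e l) → Bool =>
      |(numIndep (join (fun i j : Fin (2 ^ Lx e l) => e0 G t (sx u l) i j) F).graph : ℝ) /
        2 ^ (2 ^ Lx e l - G.b + (t + 4)) - numIndep G.graph| ≤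
        numIndep G.graph / (2 * t + 1))
  refine le_trans ?_ (le_trans hint (Ex_mono hp0 hp1 fun F => ?_))
  · linarith
  · split_ifs with hA
    · show (_ : ℝ) / 2 ^ m.eval len ≤ _ / 2 ^ m.eval len
      refine div_le_div_of_nonneg_right ?_ (by positivity)
      rw [Nat.cast_le]
      refine Nat.card_le_card_of_injective (fun r => ⟨r.1, ?_⟩) ?_
      · refine Good.transfer2 ht r.2 ?_
        have h5 : (((|(numIndep (BGraph.graph ⟨2 ^ Lx e l, 2 ^ Lx e l,
            (fun i j : Fin (2 ^ Lx e l) => e0 G t (sx u l) i j || F i j)⟩) : ℚ) /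
            2 ^ (2 ^ Lx e l - G.b + (t + 4)) - numIndep G.graph| : ℚ)) : ℝ) ≤
            (((numIndep G.graph : ℚ) / (2 * t + 1) : ℚ) : ℝ) := by
          push_cast
          exact hA
        exact_mod_cast h5
      · intro r r' hrr
        simp only [Subtype.mk.injEq] at hrr
        exact Subtype.ext hrr
    · positivity

end HardAux

theorem all_of_noisy {c : ℝ} (hc : c < 2) {p : ℕ → ℝ}
    (hp : ∃ N₁ : ℕ, ∀ N ≥ N₁, 0 ≤ p N ∧ p N ≤ c * Real.log N / N)
    (h : NoisyFPRAS p) : HasFPRAS (fun _ => True) := by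
  obtain ⟨m, f, hf, N₀, hN₀⟩ := h
  obtain ⟨N₁, hN₁⟩ := hp
  obtain ⟨e, u, hu, hue, l₁, hl₁⟩ := dens hc
  obtain ⟨l₂, hl₂⟩ := numOK hu hue
  obtain ⟨m', hm', hmach⟩ := machine hue.le (l₁ + l₂ + N₀ + N₁) m f hf
  refine hasFPRAS_of_weak ⟨m', fN e u (l₁ + l₂ + N₀ + N₁) m f, hmach, fun G t ht => ?_⟩
  refine count_fN hue.le m f G t _ (hm' G t ht) ?_
  have hl0 : l₁ + l₂ + N₀ + N₁ ≤ ll (l₁ + l₂ + N₀ + N₁) G t := by
    unfold ll
    omega
  have hnn : nn G t ^ 40 ≤ 2 ^ ll (l₁ + l₂ + N₀ + N₁) G t := by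
    have h1 : nn G t < 2 ^ Pa7c826y.lg (nn G t) :=
      Pa7c826y.lg_lower (by unfold nn; omega)
    calc nn G t ^ 40 ≤ (2 ^ Pa7c826y.lg (nn G t)) ^ 40 := Nat.pow_le_pow_left h1.le 40
      _ = 2 ^ (40 * Pa7c826y.lg (nn G t)) := by rw [← pow_mul, mul_comm]
      _ ≤ 2 ^ ll (l₁ + l₂ + N₀ + N₁) G t := Nat.pow_le_pow_right (by norm_num) (by
          unfold ll
          omega)
  have hbig : ∀ x : ℕ, x ≤ l₁ + l₂ + N₀ + N₁ →
      x ≤ 2 ^ Lx e (ll (l₁ + l₂ + N₀ + N₁) G t) := by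
    intro x hx
    have h1 : ll (l₁ + l₂ + N₀ + N₁) G t ≤ Lx e (ll (l₁ + l₂ + N₀ + N₁) G t) := by
      unfold Lx
      have : 1 ≤ 2 * e := by omega
      nlinarith
    exact (hx.trans (hl0.trans h1)).trans Nat.lt_two_pow_self.le
  have hq := hN₁ (2 ^ Lx e (ll (l₁ + l₂ + N₀ + N₁) G t)) (hbig N₁ (by omega))
  have hd := hl₁ (ll (l₁ + l₂ + N₀ + N₁) G t) (by omega)
  have hnum : NumOK e u (ll (l₁ + l₂ + N₀ + N₁) G t) (nn G t) (G.a + t + 4) G.b :=
    hl₂ _ (by omega) _ _ _ (by unfold nn; omega) hnn (by unfold nn; omega) (by unfold nn; omega)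
  exact HardAux.core m f hnum ht hq.1 (hq.2.trans hd)
    (fun E => hN₀ _ (hbig N₀ (by omega)) E (2 * t) (by omega))

end Pool.Agent.Lib.Pa7c826n
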