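import Pool.Agent.Lib.Pa7c826n.ProbB
import Pool.Agent.Lib.Pa7c826n.Base

/-!
The random edges are as expected with high probability, if `Phi` is small.

Proof. Let `w x = exp (κ * min (x * log N) (η * N))`, nondecreasing in `x`, and let `Ψ F` be the
sum of `w (min |S| |T|)` over all pairs `(S, T)` of nonempty sets with `F i j = false` for
`i ∈ S`, `j ∈ T`. By `Ex_sum` and `Ex_rect`, `Ex p Ψ` is the sum over all pairs `(S, T)` of nonempty
sets of `(1 - p) ^ (|S| |T|) * w (min |S| |T|)`, which is `Phi κ η (1 - p) N` (group by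
cardinalities: `Finset.sum_powerset_apply_card` or `Finset.card_powersetCard`). If `Ψ F ≤ 2 ^ N`
then `GoodNoise κ η F`: each pair of `Big F k` contributes at least `w (k + 1)` to `Ψ F`. So the
complement of `GoodNoise` implies `2 ^ N ≤ Ψ F`, and `markov`, `Pr_compl`, `Pr_mono` finish.
-/

namespace Pool.Agent.Lib.Pa7c826n

open Pool.Agent.Lib.Pa7c826 Pool.Agent.Lib.Pa7c826y Finset

namespace APhiAux

/-- the weight -/
noncomputable def w (κ η : ℝ) (N m : ℕ) : ℝ :=
  Real.exp (κ * min ((m : ℝ) * Real.log N) (η * N))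

theorem w_mono {κ η : ℝ} (hκ : 0 ≤ κ) (N : ℕ) {m m' : ℕ} (h : m ≤ m') :
    w κ η N m ≤ w κ η N m' := by
  unfold w
  refine Real.exp_le_exp.2 (mul_le_mul_of_nonneg_left (min_le_min ?_ le_rfl) hκ)
  exact mul_le_mul_of_nonneg_right (by exact_mod_cast h) (Real.log_natCast_nonneg N)

theorem sum_card (N : ℕ) (f : ℕ → ℝ) :
    ∑ S : Finset (Fin N), (if S.Nonempty then f S.card else 0) =
      ∑ s ∈ Icc 1 N, (N.choose s : ℝ) * f s := by
  have h1 := Finset.sum_powerset_apply_card (x := (Finset.univ : Finset (Fin N)))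
    (fun s => if 1 ≤ s then f s else 0)
  rw [Finset.powerset_univ, Finset.card_univ, Fintype.card_fin] at h1
  have h2 : ∑ S : Finset (Fin N), (if S.Nonempty then f S.card else 0) =
      ∑ S : Finset (Fin N), (if 1 ≤ S.card then f S.card else 0) := by
    refine Finset.sum_congr rfl fun S _ => ?_
    by_cases hS : S.Nonempty
    · have h4 : 1 ≤ S.card := Finset.card_pos.2 hS
      rw [if_pos hS, if_pos h4]
    · rw [if_neg hS, if_neg]
      intro h
      exact hS (Finset.card_pos.1 h)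
  rw [h2, h1]
  symm
  have h3 : Icc 1 N ⊆ range (N + 1) := by
    intro x hx
    rw [Finset.mem_Icc] at hx
    rw [Finset.mem_range]
    omega
  rw [← Finset.sum_subset h3]
  · refine Finset.sum_congr rfl fun x hx => ?_
    rw [Finset.mem_Icc] at hx
    rw [if_pos hx.1, nsmul_eq_mul]
  · intro x hx hx2
    rw [Finset.mem_range] at hx
    rw [Finset.mem_Icc] at hx2
    have h4 : ¬ 1 ≤ x := by omega
    rw [if_neg h4, smul_zero]

open Classical in
/-- the summand -/
noncomputable def ps (κ η : ℝ) {N : ℕ} (P : Finset (Fin N) × Finset (Fin N))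
    (F : Fin N → Fin N → Bool) : ℝ :=
  if P.1.Nonempty ∧ P.2.Nonempty then
    w κ η N (min P.1.card P.2.card) * (if ∀ i ∈ P.1, ∀ j ∈ P.2, F i j = false then 1 else 0)
  else 0

theorem ps_nonneg (κ η : ℝ) {N : ℕ} (P : Finset (Fin N) × Finset (Fin N))
    (F : Fin N → Fin N → Bool) : 0 ≤ ps κ η P F := by
  unfold ps
  split_ifs
  · exact mul_nonneg (Real.exp_pos _).le zero_le_one
  · exact mul_nonneg (Real.exp_pos _).le le_rfl
  · exact le_rfl

theorem ex_ps (κ η p : ℝ) {N : ℕ} (P : Finset (Fin N) × Finset (Fin N)) :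
    Ex p (ps κ η P) = if P.1.Nonempty then (if P.2.Nonempty then
      w κ η N (min P.1.card P.2.card) * (1 - p) ^ (P.1.card * P.2.card) else 0) else 0 := by
  classical
  by_cases h : P.1.Nonempty ∧ P.2.Nonempty
  · rw [if_pos h.1, if_pos h.2, ← Ex_rect p P.1 P.2, ← Ex_mul]
    congr 1
    funext F
    unfold ps
    rw [if_pos h]
    by_cases h5 : ∀ i ∈ P.1, ∀ j ∈ P.2, F i j = false
    · rw [if_pos h5, if_pos h5]
    · rw [if_neg h5, if_neg h5]
  · have h1 : ps κ η P = fun _ => (0 : ℝ) := by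
      funext F
      unfold ps
      rw [if_neg h]
    rw [h1, Ex_const]
    by_cases h2 : P.1.Nonempty
    · have h3 : ¬ P.2.Nonempty := fun h3 => h ⟨h2, h3⟩
      rw [if_pos h2, if_neg h3]
    · rw [if_neg h2]

theorem ex_psi (κ η p : ℝ) (N : ℕ) :
    Ex p (fun F : Fin N → Fin N → Bool => ∑ P, ps κ η P F) = Phi κ η (1 - p) N := by
  rw [Ex_sum p Finset.univ (fun P F => ps κ η P F)]
  have h1 : ∀ P : Finset (Fin N) × Finset (Fin N), Ex p (fun F => ps κ η P F) =
      if P.1.Nonempty then (if P.2.Nonempty then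
        w κ η N (min P.1.card P.2.card) * (1 - p) ^ (P.1.card * P.2.card) else 0) else 0 :=
    fun P => ex_ps κ η p P
  rw [Finset.sum_congr rfl fun P _ => h1 P, Fintype.sum_prod_type]
  have h2 : ∀ S : Finset (Fin N), (∑ T : Finset (Fin N),
      if (S, T).1.Nonempty then (if (S, T).2.Nonempty then
        w κ η N (min (S, T).1.card (S, T).2.card) * (1 - p) ^ ((S, T).1.card * (S, T).2.card)
          else 0) else 0) = if S.Nonempty then (∑ t ∈ Icc 1 N, (N.choose t : ℝ) *
      (w κ η N (min S.card t) * (1 - p) ^ (S.card * t))) else 0 := by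
    intro S
    by_cases hS : S.Nonempty
    · simp only [hS, if_true]
      exact sum_card N (fun t => w κ η N (min S.card t) * (1 - p) ^ (S.card * t))
    · simp only [hS, if_false, Finset.sum_const_zero]
  rw [Finset.sum_congr rfl fun S _ => h2 S, sum_card N (fun s => ∑ t ∈ Icc 1 N,
    (N.choose t : ℝ) * (w κ η N (min s t) * (1 - p) ^ (s * t)))]
  unfold Phi
  refine Finset.sum_congr rfl fun s _ => ?_
  rw [Finset.mul_sum]
  refine Finset.sum_congr rfl fun t _ => ?_
  unfold w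
  ring

theorem big_le {κ η : ℝ} (hκ : 0 ≤ κ) {N : ℕ} (F : Fin N → Fin N → Bool) (k : ℕ) :
    ((Big F k).card : ℝ) * w κ η N (k + 1) ≤ ∑ P, ps κ η P F := by
  rw [← nsmul_eq_mul]
  refine (Finset.card_nsmul_le_sum (Big F k) (fun P => ps κ η P F) (w κ η N (k + 1)) ?_).trans
    (Finset.sum_le_univ_sum_of_nonneg fun P => ps_nonneg κ η P F)
  intro P hP
  unfold Big at hP
  rw [Finset.mem_filter, mem_Ind] at hP
  obtain ⟨h1, h2, h3⟩ := hP
  have h4 : P.1.Nonempty ∧ P.2.Nonempty :=
    ⟨Finset.card_pos.1 (by omega), Finset.card_pos.1 (by omega)⟩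
  unfold ps
  rw [if_pos h4, if_pos h1, mul_one]
  exact w_mono hκ N (by rw [le_min_iff]; omega)

end APhiAux

open APhiAux

theorem pr_goodNoise {κ η p : ℝ} (hκ : 0 ≤ κ) (hη : 0 ≤ η) (h0 : 0 ≤ p) (h1 : p ≤ 1) (N : ℕ) :
    1 - Phi κ η (1 - p) N / 2 ^ N ≤ Pr p (fun F : Fin N → Fin N → Bool => GoodNoise κ η F) := by
  rw [Pr_compl p]
  have h2 : Pr p (fun F : Fin N → Fin N → Bool => ¬ GoodNoise κ η F) ≤
      Pr p (fun F : Fin N → Fin N → Bool => (2 : ℝ) ^ N ≤ ∑ P, ps κ η P F) := by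
    refine Pr_mono h0 h1 fun F hF => ?_
    unfold GoodNoise at hF
    push Not at hF
    obtain ⟨k, hk⟩ := hF
    exact hk.le.trans (big_le hκ F k)
  have h3 := markov h0 h1 (f := fun F : Fin N → Fin N → Bool => ∑ P, ps κ η P F)
    (fun F => Finset.sum_nonneg fun P _ => ps_nonneg κ η P F) (c := (2 : ℝ) ^ N) (by positivity)
  rw [ex_psi] at h3
  linarith

end Pool.Agent.Lib.Pa7c826n
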