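import Pool.Agent.Lib.Pa7c826n.Base

/-!
The algorithm runs in polynomial time.

`poly_algB`: as `poly_algA` in Lib/Pa7c826y/AlgPoly.lean, with `poly_tup` instead of `poly_SS`.
`poly_algoN`: as `poly_algo2` in Lib/Pa7c826y/Main2.lean (`poly_lg`, `PolyN.div`).
`algoN_brute`: as `brute_spec` in Lib/Pa7c826y/Main2.lean.
-/

namespace Pool.Agent.Lib.Pa7c826n

open Pool.Agent.Lib.Pa7c826 Pool.Agent.Lib.Pa7c826y Finset
open Pool.Agent.Lib.PolyTime

section

variable {α : Type} {D : α → Prop} {ctx : List (α → List Bool)} {w : α → List Bool}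
  {n m k I : α → ℕ} {F : List Bool → ℕ → ℕ → Bool}

theorem poly_algB (hF : FPoly F) (hw : PolyC D ctx w) (hn : PolyN D ctx n)
    (hm : PolyN D ctx m) (hk : PolyN D ctx k) (hI : PolyN D ctx I) :
    PolyBin D ctx (fun a => algB (n a) (m a) (F (w a)) (k a) (I a)) := by
  have W1 := up (n := I) hw
  have N1 := upN (n := I) hn
  have M1 := upN (n := I) hm
  have K1 := upN (n := I) hk
  have L1 := last (D := D) (ctx := ctx) (n := I)
  have S1 := poly_tup N1 K1 L1
  have N2 := upN (n := fun q : α × ℕ => q.2) N1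
  have K2 := upN (n := fun q : α × ℕ => q.2) K1
  have L2 := last (D := fun q : α × ℕ => D q.1 ∧ q.2 < I q.1)
    (ctx := PolyTime.lift ctx ++ [fun q : α × ℕ => un q.2]) (n := fun q : α × ℕ => q.2)
  have S2 := poly_tup N2 K2 L2
  have S2' := S1.up (m := fun q : α × ℕ => q.2)
  have E2 := poly_eqB N2 S2 S2'
  have E1 := PolyB.exists_lt (φ := fun q : (α × ℕ) × ℕ =>
    eqB (n q.1.1) (tup (n q.1.1) (k q.1.1) q.2)
      (tup (n q.1.1) (k q.1.1) q.1.2)) L1 E2
  have C1 := PolyBin.pow2 (PolyS.card M1 (poly_freeN hF W1 N1 M1 S1))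
  refine PolyBin.sum_range (f := fun q : α × ℕ =>
    if decide (∃ p' < q.2, eqB (n q.1)
      (tup (n q.1) (k q.1) p')
      (tup (n q.1) (k q.1) q.2) = true) = true then 0
    else 2 ^ (freeN (n q.1) (m q.1) (F (w q.1))
      (tup (n q.1) (k q.1) q.2)).card) hI ?_
  exact PolyBin.ite E1 PolyBin.zero (C1.mono fun _ h => h.1)

theorem poly_algoN (e : ℕ) (hw : PolyC D ctx w) :
    PolyBin D ctx (fun a => algoN e (w a)) := by
  have ha := poly_aOf hw
  have hb := poly_bOf hw
  have ht := poly_tOf hw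
  have hK : PolyN D ctx (fun a => KK e (tOf (w a))) :=
    PolyN.pow (((PolyN.const 16).mul ht).add (PolyN.const 1)) e
  have hJ : PolyN D ctx (fun a => JJ e (tOf (w a))) := PolyN.pow hK 11
  have hJ0 : ∀ a, D a → 0 < JJ e (tOf (w a)) := by
    intro a _
    unfold JJ KK
    positivity
  have hL : PolyN D ctx (fun a => LL e (tOf (w a))) :=
    (PolyN.const e).mul (poly_lg ((PolyN.const 8).mul ht))
  have hk : PolyN D ctx (fun a => kOf e (w a)) :=
    PolyN.div hL (poly_lg ha).succ (fun _ _ => Nat.succ_pos _)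
  have hA := poly_algA (F := FA) (w := w) (n := fun a => aOf (w a)) (m := fun a => bOf (w a))
    (ψ := fun a => bOf (w a)) (k := fun _ => 0) (I := fun a => KK e (tOf (w a)))
    (J := fun a => JJ e (tOf (w a))) FA_poly hw ha hb hb (PolyN.const 0) hK hJ hJ0
  have hB := poly_algB (F := FA) (w := w) (n := fun a => aOf (w a)) (m := fun a => bOf (w a))
    (k := fun a => kOf e (w a)) (I := fun a => KK e (tOf (w a))) FA_poly hw ha hb hk hK
  have hC := poly_algB (F := fun w i j => FA w j i) (w := w) (n := fun a => bOf (w a))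
    (m := fun a => aOf (w a)) (k := fun a => kOf e (w a)) (I := fun a => KK e (tOf (w a)))
    FA_poly.rev hw hb ha hk hK
  have hBC := PolyBin.add hB hC
  have hφ : PolyB D ctx (fun a => decide (1 ≤ JJ e (tOf (w a)) / 2 ^ aOf (w a))) :=
    PolyB.le (PolyN.const 1) (PolyN.divPow hJ ha)
  have h := PolyBin.ite hφ (hA.mono fun _ h => h.1) (hBC.mono fun _ h => h.1)
  exact h

end

theorem algoN_brute {e t : ℕ} (G : BGraph) (hb : 1 ≤ JJ e t / 2 ^ G.a) :
    algoN e (inCode G t) = numIndep G.graph := by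
  unfold algoN
  rw [tOf_inCode, aOf_inCode, bOf_inCode, if_pos (by simpa using hb), ← card_Ind_eq]
  have hK : 1 ≤ KK e t := by unfold KK; exact Nat.one_le_pow _ _ (by omega)
  have hJ : 2 ^ G.a ≤ JJ e t := by
    rwa [Nat.one_le_div_iff (by positivity)] at hb
  rw [algA_eq (E := G.E) (FA_inCode G t) (by simpa using hK), sum_fam]
  · congr 1
    rw [Finset.filter_eq_self]
    intro P _
    rw [mem_Fam]
    refine ⟨∅, by simp, fun u _ => ?_⟩
    rw [mem_XX]
    exact (Finset.card_le_univ _).trans (by simp)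
  · intro T _
    refine le_trans (Nat.pow_le_pow_right (by norm_num) ?_) hJ
    exact (Finset.card_le_univ _).trans (by simp)

end Pool.Agent.Lib.Pa7c826n
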