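import Pool.Agent.Lib.Pa7c826n.AlgB
import Pool.Agent.Lib.Pa7c826n.AlgP

/-!
Correctness of the algorithm when the random edges are as expected.

Proof. `e` is the least natural number with `κ e ≥ 6` and `κ η e ≥ 1`, plus `1`; `N₀ = 2`. If
`1 ≤ JJ e t / 2 ^ N` the value is exact (`algoN_brute`). Otherwise `JJ e t < 2 ^ N`, i.e.
`(16 t + 1) ^ (11 e) < 2 ^ N`. Put `L = LL e t = e * lg (8 t)` and `k = L / (lg N + 1)`.
* `N + 1 ≤ 2 ^ lg N` (`lg_lower`), so `(N + 1) ^ k ≤ 2 ^ L ≤ KK e t` (`LL_upper`) and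
  `(N + 1) ^ (2 k) * t ≤ KK ^ 2 * t ≤ JJ e t < 2 ^ N` (`JJ = KK ^ 11`, `t ≤ KK`). Hence `algB_eq`
  applies on both sides, and the first term of the maximum in `error_bound'` is at most
  `2 ^ N / t ≤ numIndep / t` (`two_pow_le_Ind`, `card_Ind_eq`).
* The second one: `Big (E ∪ F) k ⊆ Big F k`, so its cardinality is at most
  `2 ^ N * exp (- κ * min ((k + 1) log N) (η N))` by `GoodNoise`, and the exponential is at most
  `1 / t`: `(k + 1) (lg N + 1) ≥ L ≥ e * lg (8 t)`, `log N ≥ (lg N - 1) log 2` (`lg_eq`,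
  `Nat.pow_log_le_self`) and `lg N - 1 ≥ (lg N + 1) / 3` for `N ≥ 2`, so
  `κ (k + 1) log N ≥ κ e log 2 * lg (8 t) / 3 ≥ log (8 t)` (see `LL_lower`: `log 2 * lg (8 t) ≥
  log (8 t)`; this uses `κ e ≥ 3`); and `N log 2 > 11 e log (16 t + 1)`, so
  `κ η N ≥ κ η e * 11 * log (16 t + 1) ≥ log t` (as `log 2 < 1`).
`aOf_inCode`, `bOf_inCode`, `tOf_inCode`, `FA_inCode` read off the input.
-/

namespace Pool.Agent.Lib.Pa7c826n

open Pool.Agent.Lib.Pa7c826 Pool.Agent.Lib.Pa7c826y Finset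

namespace ASpecAux

/-- The exponential factor is at least `t`. -/
theorem exp_bound {κ η : ℝ} (hκ : 0 < κ) (hη : 0 < η) {e N t k : ℕ} (he3 : 3 ≤ κ * e)
    (heη : 1 ≤ κ * η * e) (hN : 2 ≤ N) (ht : 1 ≤ t) (hlt : JJ e t < 2 ^ N)
    (hk : k = LL e t / (lg N + 1)) :
    (t : ℝ) ≤ Real.exp (κ * min (((k + 1 : ℕ) : ℝ) * Real.log N) (η * N)) := by
  have ht' : (1 : ℝ) ≤ t := by exact_mod_cast ht
  have ht0 : (0 : ℝ) < t := by linarith
  have hlt0 : 0 ≤ Real.log t := Real.log_nonneg ht'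
  have hl2 : Real.log 2 ≤ 1 := by
    have := Real.log_two_lt_d9; linarith
  have hl20 : 0 < Real.log 2 := Real.log_pos (by norm_num)
  have he0 : (0 : ℝ) ≤ e := Nat.cast_nonneg e
  rw [← Real.log_le_iff_le_exp ht0]
  have hN' : (2 : ℝ) ≤ N := by exact_mod_cast hN
  rcases le_total (((k + 1 : ℕ) : ℝ) * Real.log N) (η * N) with hm | hm
  · rw [min_eq_left hm]
    have h1 : LL e t < (k + 1) * (lg N + 1) := by
      rw [hk, mul_comm]
      exact Nat.lt_mul_div_succ (LL e t) (Nat.succ_pos (lg N))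
    have h1' : (LL e t : ℝ) ≤ ((k + 1 : ℕ) : ℝ) * ((lg N : ℝ) + 1) := by
      have h2 : LL e t ≤ (k + 1) * (lg N + 1) := h1.le
      exact_mod_cast h2
    have h2 := LL_lower e ht
    -- `log N ≥ (lg N - 1) log 2`
    have h3 : ((lg N : ℝ) - 1) * Real.log 2 ≤ Real.log N := by
      have h4 : lg N = Nat.log 2 N + 1 := lg_eq (by omega)
      have h5 : ((2 : ℝ)) ^ Nat.log 2 N ≤ N := by
        exact_mod_cast Nat.pow_log_le_self 2 (by omega)
      have h6 := Real.log_le_log (by positivity) h5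
      rw [Real.log_pow] at h6
      rw [h4]; push_cast; linarith
    have h7 : (2 : ℝ) ≤ lg N := by
      have h4 : lg N = Nat.log 2 N + 1 := lg_eq (by omega)
      have h5 : 1 ≤ Nat.log 2 N := Nat.le_log_of_pow_le (by norm_num) (by simpa using hN)
      rw [h4]
      exact_mod_cast Nat.succ_le_succ h5
    have h8 : ((lg N : ℝ) + 1) * Real.log 2 ≤ 3 * Real.log N := by nlinarith
    have hk0 : (0 : ℝ) ≤ ((k + 1 : ℕ) : ℝ) := Nat.cast_nonneg _
    have h9 : (e : ℝ) * Real.log (8 * t) ≤ 3 * (((k + 1 : ℕ) : ℝ) * Real.log N) := by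
      calc (e : ℝ) * Real.log (8 * t) ≤ LL e t * Real.log 2 := h2
        _ ≤ (((k + 1 : ℕ) : ℝ) * ((lg N : ℝ) + 1)) * Real.log 2 :=
            mul_le_mul_of_nonneg_right h1' hl20.le
        _ = ((k + 1 : ℕ) : ℝ) * (((lg N : ℝ) + 1) * Real.log 2) := by ring
        _ ≤ ((k + 1 : ℕ) : ℝ) * (3 * Real.log N) := mul_le_mul_of_nonneg_left h8 hk0
        _ = _ := by ring
    have h10 : Real.log t ≤ Real.log (8 * t) := Real.log_le_log ht0 (by linarith)
    have h11 : 0 ≤ Real.log (8 * t) := hlt0.trans h10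
    have h12 : κ * (e * Real.log (8 * t)) ≤ κ * (3 * (((k + 1 : ℕ) : ℝ) * Real.log N)) :=
      mul_le_mul_of_nonneg_left h9 hκ.le
    have h13 : 3 * Real.log (8 * t) ≤ κ * e * Real.log (8 * t) :=
      mul_le_mul_of_nonneg_right he3 h11
    nlinarith
  · rw [min_eq_right hm]
    have h1 : (JJ e t : ℝ) ≤ (2 : ℝ) ^ N := by exact_mod_cast hlt.le
    have h2 : (t : ℝ) ^ (11 * e) ≤ JJ e t := by
      have h3 : t ^ (11 * e) ≤ JJ e t := by
        unfold JJ KK
        rw [← pow_mul, mul_comm e 11]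
        exact Nat.pow_le_pow_left (by omega) _
      exact_mod_cast h3
    have h4 := Real.log_le_log (by positivity) (h2.trans h1)
    rw [Real.log_pow, Real.log_pow] at h4
    push_cast at h4
    have h5 : (N : ℝ) * Real.log 2 ≤ N := by nlinarith
    have h6 : (e : ℝ) * Real.log t ≤ N := by nlinarith [mul_nonneg he0 hlt0]
    have h7 : κ * η * (e * Real.log t) ≤ κ * η * N :=
      mul_le_mul_of_nonneg_left h6 (by positivity)
    have h8 : 1 * Real.log t ≤ κ * η * e * Real.log t := mul_le_mul_of_nonneg_right heη hlt0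
    nlinarith

end ASpecAux

open ASpecAux

theorem algoN_spec {κ η : ℝ} (hκ : 0 < κ) (hη : 0 < η) :
    ∃ e : ℕ, ∃ N₀ : ℕ, ∀ N ≥ N₀, ∀ F : Fin N → Fin N → Bool, GoodNoise κ η F →
      ∀ (E : Fin N → Fin N → Bool) (t : ℕ), 1 ≤ t →
        |((algoN e (inCode (join E F) t) : ℕ) : ℝ) - numIndep (join E F).graph| ≤
          numIndep (join E F).graph / t := by
  obtain ⟨e1, he1⟩ := exists_nat_ge (3 / κ)
  obtain ⟨e2, he2⟩ := exists_nat_ge (1 / (κ * η))
  have hκη : 0 < κ * η := mul_pos hκ hη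
  rw [div_le_iff₀ hκ] at he1
  rw [div_le_iff₀ hκη] at he2
  refine ⟨e1 + e2 + 1, 2, ?_⟩
  set e := e1 + e2 + 1 with he
  have her : (e : ℝ) = e1 + e2 + 1 := by rw [he]; push_cast; ring
  have h01 : (0 : ℝ) ≤ e1 := Nat.cast_nonneg _
  have h02 : (0 : ℝ) ≤ e2 := Nat.cast_nonneg _
  have he3 : 3 ≤ κ * e := by
    rw [her]; nlinarith
  have heη : 1 ≤ κ * η * e := by
    rw [her]; nlinarith
  intro N hN F hF E t ht
  set G := join E F with hG
  have hGa : G.a = N := rfl
  have hGb : G.b = N := rfl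
  have ht' : (0 : ℝ) < t := by exact_mod_cast ht
  by_cases hb : 1 ≤ JJ e t / 2 ^ G.a
  · rw [algoN_brute G hb, sub_self, abs_zero]
    positivity
  have hlt : JJ e t < 2 ^ N := by
    by_contra h
    exact hb ((Nat.one_le_div_iff (by positivity)).2 (not_lt.1 h))
  have hif : algoN e (inCode G t) =
      algB G.a G.b (FA (inCode G t)) (LL e t / (lg G.a + 1)) (KK e t) +
      algB G.b G.a (fun i j => FA (inCode G t) j i) (LL e t / (lg G.a + 1)) (KK e t) := by
    unfold algoN kOf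
    rw [tOf_inCode, aOf_inCode, bOf_inCode, if_neg (by simpa using hb)]
  have hlg : LL e t / (lg G.a + 1) = LL e t / (lg N + 1) := rfl
  rw [hlg] at hif
  set k := LL e t / (lg N + 1) with hk
  set L := LL e t with hL
  have hLK : 2 ^ L ≤ KK e t := LL_upper e ht
  have hK1 : 1 ≤ KK e t := by unfold KK; exact Nat.one_le_pow _ _ (by omega)
  have hT : (N + 1) ^ k ≤ 2 ^ L := by
    have h1 : N + 1 ≤ 2 ^ lg N := lg_lower (by omega)
    calc (N + 1) ^ k ≤ (2 ^ lg N) ^ k := Nat.pow_le_pow_left h1 k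
      _ = 2 ^ (lg N * k) := (pow_mul 2 (lg N) k).symm
      _ ≤ 2 ^ L := by
          refine Nat.pow_le_pow_right (by norm_num) ?_
          calc lg N * k ≤ (lg N + 1) * k := Nat.mul_le_mul_right _ (Nat.le_succ _)
            _ ≤ L := by rw [hk]; exact Nat.mul_div_le _ _
  have hFA := FA_inCode G t
  rw [hif, algB_eq (E := G.E) (fun i j => hFA i j) (hT.trans hLK),
    algB_eq (E := rev G.E) (fun i j => hFA j i) (hT.trans hLK), ← card_Ind_eq]
  have herr := error_bound' (N := N) G.E k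
  push_cast at herr ⊢
  refine herr.trans ?_
  have hInd : (2 : ℝ) ^ N ≤ (Ind G.E).card := by
    have h1 := two_pow_le_Ind G.E
    rw [Fintype.card_fin] at h1
    have h2 : 2 ^ N ≤ (Ind G.E).card := h1
    exact_mod_cast h2
  have hfin : (2 : ℝ) ^ N / t ≤ (Ind G.E).card / t := div_le_div_of_nonneg_right hInd ht'.le
  refine le_trans (max_le ?_ ?_) hfin
  · have htK : t ≤ KK e t := by
      unfold KK
      calc t ≤ 16 * t + 1 := by omega
        _ = (16 * t + 1) ^ 1 := (pow_one _).symm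
        _ ≤ _ := Nat.pow_le_pow_right (by omega) (by omega)
    have h3 : (N + 1) ^ (2 * k) * t ≤ 2 ^ N := by
      calc (N + 1) ^ (2 * k) * t = ((N + 1) ^ k) ^ 2 * t := by rw [← pow_mul, mul_comm k 2]
        _ ≤ KK e t ^ 2 * KK e t :=
            Nat.mul_le_mul (Nat.pow_le_pow_left (hT.trans hLK) 2) htK
        _ = KK e t ^ 3 := by ring
        _ ≤ JJ e t := by unfold JJ; exact Nat.pow_le_pow_right hK1 (by norm_num)
        _ ≤ _ := hlt.le
    rw [le_div_iff₀ ht']
    exact_mod_cast h3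
  · have hsub : Big G.E k ⊆ Big F k := by
      intro P hP
      unfold Big at hP ⊢
      rw [Finset.mem_filter, mem_Ind] at hP ⊢
      refine ⟨fun i hi j hj => ?_, hP.2⟩
      have h1 : (E i j || F i j) = false := hP.1 i hi j hj
      rw [Bool.or_eq_false_iff] at h1
      exact h1.2
    have hcard : ((Big G.E k).card : ℝ) ≤ (Big F k).card := by
      exact_mod_cast Finset.card_le_card hsub
    have hexp := exp_bound hκ hη he3 heη hN ht hlt hk
    have hgood := hF k
    rw [le_div_iff₀ ht']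
    calc ((Big G.E k).card : ℝ) * t ≤ (Big F k).card * t :=
          mul_le_mul_of_nonneg_right hcard ht'.le
      _ ≤ (Big F k).card * Real.exp (κ * min (((k + 1 : ℕ) : ℝ) * Real.log N) (η * N)) :=
          mul_le_mul_of_nonneg_left hexp (Nat.cast_nonneg _)
      _ ≤ 2 ^ N := hgood

end Pool.Agent.Lib.Pa7c826n
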