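import Mathlib

/-!
Small sets: the first exponential estimate.

Proof. Put `x = c * s * log N / N ≤ x₀ ≤ 1`. From `1 - y ≤ exp (-y)` (`Real.add_one_le_exp`),
`q ^ s ≤ exp (-x)`. `(1 + exp (-x)) / 2 = exp (-x / 2) * cosh (x / 2) ≤ exp (-x / 2 + x ^ 2 / 8)`
(`Real.cosh_eq`, `Real.cosh_le_exp_half_sq`). Hence `((1 + q ^ s) / 2) ^ N ≤
exp (N * (-x / 2 + x ^ 2 / 8)) = exp (-(c / 2) s log N (1 - x / 4)) ≤
exp (-(c / 2 - c x₀ / 8) s log N) ≤ exp (-(1 + 3 κ) s log N)`, since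
`c / 2 - c x₀ / 8 - 1 ≥ (c - 2) / 4 = 3 κ`. Finally `N.choose s ≤ N ^ s = exp (s log N)`
(`Nat.choose_le_pow`). The exponents add up to `(1 - (1 + 3 κ) + κ) s log N = - 2 κ s log N`.
-/

namespace Pool.Agent.Lib.Pa7c826n

theorem termA {c x₀ q : ℝ} (hc : 2 < c) (hx0 : 0 < x₀) (hx1 : x₀ ≤ 1)
    (hx : c * x₀ ≤ 2 * (c - 2)) {N s : ℕ} (hN : 1 ≤ N) (hq0 : 0 ≤ q)
    (hq : q ≤ 1 - c * Real.log N / N) (hs : c * s * Real.log N ≤ x₀ * N) :
    (N.choose s : ℝ) * (1 + q ^ s) ^ N * Real.exp ((c - 2) / 12 * (s * Real.log N)) ≤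
      2 ^ N * Real.exp (-(2 * ((c - 2) / 12) * (s * Real.log N))) := by
  have hNpos : (0 : ℝ) < N := by exact_mod_cast hN
  have hN1 : (1 : ℝ) ≤ N := by exact_mod_cast hN
  obtain ⟨L, hL⟩ : ∃ L, L = Real.log N := ⟨_, rfl⟩
  have hL0 : 0 ≤ L := by rw [hL]; exact Real.log_nonneg hN1
  rw [← hL] at hq hs ⊢
  have hs0 : (0 : ℝ) ≤ s := Nat.cast_nonneg s
  have hsL : 0 ≤ (s : ℝ) * L := mul_nonneg hs0 hL0
  obtain ⟨x, hxd⟩ : ∃ x, x = c * s * L / N := ⟨_, rfl⟩
  have hxn : x * N = c * s * L := by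
    rw [hxd]
    field_simp
  have hxle : x ≤ x₀ := by
    rw [hxd, div_le_iff₀ hNpos]
    exact hs
  have hx0' : 0 ≤ x := by
    rw [hxd]
    apply div_nonneg _ hNpos.le
    rw [mul_assoc]
    exact mul_nonneg (by linarith) hsL
  -- q ^ s
  have hqs : q ^ s ≤ Real.exp (-x) := by
    have h1 : q ≤ Real.exp (-(c * L / N)) := by
      have := Real.add_one_le_exp (-(c * L / N))
      linarith
    calc q ^ s ≤ (Real.exp (-(c * L / N))) ^ s := pow_le_pow_left₀ hq0 h1 s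
      _ = Real.exp (-x) := by
        rw [← Real.exp_nat_mul, hxd]
        congr 1
        ring
  have hcosh : (1 + Real.exp (-x)) / 2 ≤ Real.exp (-x / 2 + x ^ 2 / 8) := by
    have h1 := Real.cosh_le_exp_half_sq (x / 2)
    rw [Real.cosh_eq] at h1
    have h2 : (1 + Real.exp (-x)) / 2 =
        Real.exp (-x / 2) * ((Real.exp (x / 2) + Real.exp (-(x / 2))) / 2) := by
      have e1 : Real.exp (-x / 2) * Real.exp (x / 2) = 1 := by
        rw [← Real.exp_add]
        simp [neg_div]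
      have e2 : Real.exp (-x / 2) * Real.exp (-(x / 2)) = Real.exp (-x) := by
        rw [← Real.exp_add]
        congr 1
        ring
      rw [mul_div_assoc', mul_add, e1, e2]
    rw [h2, Real.exp_add]
    refine (mul_le_mul_of_nonneg_left h1 (Real.exp_pos _).le).trans (le_of_eq ?_)
    congr 2
    ring
  have hbase : (1 + q ^ s) / 2 ≤ Real.exp (-x / 2 + x ^ 2 / 8) := by
    refine le_trans ?_ hcosh
    linarith
  have hbase0 : 0 ≤ (1 + q ^ s) / 2 := by
    have := pow_nonneg hq0 s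
    linarith
  have hpow : ((1 + q ^ s) / 2) ^ N ≤ Real.exp (-((1 + (c - 2) / 4) * (s * L))) := by
    refine (pow_le_pow_left₀ hbase0 hbase N).trans ?_
    rw [← Real.exp_nat_mul]
    apply Real.exp_le_exp.2
    have e1 : (N : ℝ) * (-x / 2 + x ^ 2 / 8) = -(c / 2) * (s * L) + c * (s * L) * x / 8 := by
      have : (N : ℝ) * (-x / 2 + x ^ 2 / 8) = -(x * N) / 2 + (x * N) * x / 8 := by ring
      rw [this, hxn]
      ring
    rw [e1]
    have h3 : c * (s * L) * x ≤ c * (s * L) * x₀ :=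
      mul_le_mul_of_nonneg_left hxle (mul_nonneg (by linarith) hsL)
    have h4 : (c * x₀) * (s * L) ≤ (2 * (c - 2)) * (s * L) := mul_le_mul_of_nonneg_right hx hsL
    nlinarith
  have hchoose : (N.choose s : ℝ) ≤ Real.exp (s * L) := by
    have h1 : N.choose s ≤ N ^ s := Nat.choose_le_pow N s
    have h2 : (N.choose s : ℝ) ≤ (N : ℝ) ^ s := by exact_mod_cast h1
    refine h2.trans (le_of_eq ?_)
    rw [Real.exp_nat_mul, hL, Real.exp_log hNpos]
  have e2 : (1 + q ^ s) ^ N = 2 ^ N * ((1 + q ^ s) / 2) ^ N := by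
    rw [← mul_pow]
    congr 1
    ring
  rw [e2]
  have h5 : (N.choose s : ℝ) * (2 ^ N * ((1 + q ^ s) / 2) ^ N) ≤
      Real.exp (s * L) * (2 ^ N * Real.exp (-((1 + (c - 2) / 4) * (s * L)))) := by
    apply mul_le_mul hchoose _ _ (Real.exp_pos _).le
    · exact mul_le_mul_of_nonneg_left hpow (by positivity)
    · exact mul_nonneg (by positivity) (pow_nonneg hbase0 N)
  refine (mul_le_mul_of_nonneg_right h5 (Real.exp_pos _).le).trans (le_of_eq ?_)
  have h6 : Real.exp (s * L) * (2 ^ N * Real.exp (-((1 + (c - 2) / 4) * (s * L)))) *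
      Real.exp ((c - 2) / 12 * (s * L)) = 2 ^ N * (Real.exp (s * L) *
      Real.exp (-((1 + (c - 2) / 4) * (s * L))) * Real.exp ((c - 2) / 12 * (s * L))) := by ring
  rw [h6, ← Real.exp_add, ← Real.exp_add]
  congr 2
  ring

end Pool.Agent.Lib.Pa7c826n
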