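import Mathlib

/-!
Sets of intermediate size, and pairs of large sets.

`choose_le_exp`: `(N.choose s) * β ^ s ≤ (1 + β) ^ N ≤ exp (β N)` (a term of the binomial
expansion of `(β + 1) ^ N`, `add_pow`), so `N.choose s ≤ exp (s log (1 / β) + β N) ≤
exp (2 β N)` (`β ^ s = exp (- s log (1 / β))`).
`termB`: `(1 + q ^ s) ^ N ≤ (1 + exp (-x₀)) ^ N = 2 ^ N * exp (-4 β N)`, and `choose_le_exp`.
`termC`: `q ≤ exp (- c log N / N)`, so `q ^ (s t) ≤ exp (- c log N / N * (s t)) ≤
exp (- c η ^ 2 N log N)`, as `s t ≥ η ^ 2 N ^ 2`.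
-/

namespace Pool.Agent.Lib.Pa7c826n

theorem choose_le_exp {β : ℝ} (h0 : 0 < β) (h1 : β < 1) {N s : ℕ}
    (hs : s * Real.log (1 / β) ≤ β * N) : (N.choose s : ℝ) ≤ Real.exp (2 * β * N) := by
  have hterm : (N.choose s : ℝ) * β ^ s ≤ (β + 1) ^ N := by
    rcases le_or_gt s N with hsN | hsN
    · rw [add_pow]
      have h2 := Finset.single_le_sum
        (f := fun m => β ^ m * (1 : ℝ) ^ (N - m) * (N.choose m : ℝ))
        (fun m _ => by positivity) (Finset.mem_range.2 (Nat.lt_succ_of_le hsN))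
      simp only [one_pow, mul_one] at h2 ⊢
      calc (N.choose s : ℝ) * β ^ s = β ^ s * (N.choose s : ℝ) := mul_comm _ _
        _ ≤ _ := h2
    · rw [Nat.choose_eq_zero_of_lt hsN]
      simp only [Nat.cast_zero, zero_mul]
      positivity
  have hexp : (β + 1) ^ N ≤ Real.exp (β * N) := by
    calc (β + 1) ^ N ≤ (Real.exp β) ^ N :=
          pow_le_pow_left₀ (by linarith) (Real.add_one_le_exp β) N
      _ = Real.exp (β * N) := by rw [← Real.exp_nat_mul, mul_comm]
  have hβs : β ^ s = Real.exp (-(s * Real.log (1 / β))) := by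
    rw [one_div, Real.log_inv, mul_neg, neg_neg, Real.exp_nat_mul, Real.exp_log h0]
  have h3 : (N.choose s : ℝ) ≤ Real.exp (β * N) * Real.exp (s * Real.log (1 / β)) := by
    have h4 : (N.choose s : ℝ) = (N.choose s : ℝ) * β ^ s * Real.exp (s * Real.log (1 / β)) := by
      rw [hβs, mul_assoc, ← Real.exp_add, neg_add_cancel, Real.exp_zero, mul_one]
    rw [h4]
    exact mul_le_mul_of_nonneg_right (hterm.trans hexp) (Real.exp_pos _).le
  refine h3.trans ?_
  rw [← Real.exp_add]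
  apply Real.exp_le_exp.2
  linarith

theorem termB {β x₀ q : ℝ} (h0 : 0 < β) (h1 : β < 1)
    (hβ : Real.exp (-(4 * β)) = (1 + Real.exp (-x₀)) / 2) {N s : ℕ} (hq0 : 0 ≤ q)
    (hq : q ^ s ≤ Real.exp (-x₀)) (hs : s * Real.log (1 / β) ≤ β * N) :
    (N.choose s : ℝ) * (1 + q ^ s) ^ N ≤ 2 ^ N * Real.exp (-(2 * β * N)) := by
  have h2 : (1 + q ^ s) ^ N ≤ 2 ^ N * Real.exp (-(4 * β * N)) := by
    have h3 : 1 + q ^ s ≤ 2 * Real.exp (-(4 * β)) := by
      rw [hβ]
      linarith
    calc (1 + q ^ s) ^ N ≤ (2 * Real.exp (-(4 * β))) ^ N :=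
          pow_le_pow_left₀ (by positivity) h3 N
      _ = 2 ^ N * Real.exp (-(4 * β * N)) := by
          rw [mul_pow, ← Real.exp_nat_mul]
          congr 2
          ring
  calc (N.choose s : ℝ) * (1 + q ^ s) ^ N
      ≤ Real.exp (2 * β * N) * (2 ^ N * Real.exp (-(4 * β * N))) :=
        mul_le_mul (choose_le_exp h0 h1 hs) h2 (by positivity) (Real.exp_pos _).le
    _ = 2 ^ N * (Real.exp (2 * β * N) * Real.exp (-(4 * β * N))) := by ring
    _ = 2 ^ N * Real.exp (-(2 * β * N)) := by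
        rw [← Real.exp_add]
        congr 2
        ring

theorem termC {c η q : ℝ} (hc : 0 ≤ c) (hη : 0 ≤ η) {N s t : ℕ} (hN : 1 ≤ N) (hq0 : 0 ≤ q)
    (hq : q ≤ 1 - c * Real.log N / N) (hs : η * N ≤ s) (ht : η * N ≤ t) :
    q ^ (s * t) ≤ Real.exp (-(c * η ^ 2 * N * Real.log N)) := by
  have hN0 : (0 : ℝ) < N := by exact_mod_cast hN
  have hlog : 0 ≤ Real.log N := Real.log_nonneg (by exact_mod_cast hN)
  have h1 : q ≤ Real.exp (-(c * Real.log N / N)) := by
    have := Real.add_one_le_exp (-(c * Real.log N / N))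
    linarith
  calc q ^ (s * t) ≤ (Real.exp (-(c * Real.log N / N))) ^ (s * t) :=
        pow_le_pow_left₀ hq0 h1 _
    _ = Real.exp ((s * t : ℕ) * (-(c * Real.log N / N))) := by rw [← Real.exp_nat_mul]
    _ ≤ Real.exp (-(c * η ^ 2 * N * Real.log N)) := by
        apply Real.exp_le_exp.2
        rw [mul_neg, neg_le_neg_iff]
        have h2 : η * N * (η * N) ≤ (s : ℝ) * t :=
          mul_le_mul hs ht (by positivity) (by positivity)
        push_cast
        calc c * η ^ 2 * N * Real.log N = η * N * (η * N) * (c * Real.log N / N) := by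
              field_simp
          _ ≤ (s : ℝ) * t * (c * Real.log N / N) :=
              mul_le_mul_of_nonneg_right h2 (by positivity)

end Pool.Agent.Lib.Pa7c826n
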