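import Pool.Agent.Lib.Pa7c826n.Base
import Pool.Agent.Lib.Pa7c826n.ATermA
import Pool.Agent.Lib.Pa7c826n.ATermB

/-!
The weighted sum over pairs of sizes is small above the threshold.

Proof. `κ = (c - 2) / 12`, `x₀ = min 1 (2 (c - 2) / c)`, `β = - log ((1 + exp (-x₀)) / 2) / 4`
(positive, less than `1`: `(1 + exp (-x₀)) / 2` lies strictly between `1 / 2` and `1`),
`η₁ = β / log (1 / β)` (bound for the sizes of small sets), `η = β / κ`, `δ = κ`.
Write `w s t` for the exponential weight; `w ≤ exp (κ s log N)` if `min s t = s`, and always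
`w ≤ exp (κ η N) = exp (β N)`.
Split the double sum according to `min s t ≤ η₁ N` or not. By symmetry the first part is at most
`2 * ∑_{1 ≤ s ≤ η₁ N} C(N, s) * w * ∑_t C(N, t) q ^ (s t)`, and
`∑_t C(N, t) q ^ (s t) = (1 + q ^ s) ^ N` (over `0 ≤ t ≤ N`; `add_pow`). For
`c s log N ≤ x₀ N` use `termA`: the sum over `s ≥ 1` of `exp (- 2 κ s log N) = (N ^ (-2 κ)) ^ s` is
at most `2 N ^ (-2 κ)` when `N ^ (2 κ) ≥ 2`. For the other `s` use `termB` (`q ^ s ≤ exp (-x₀)` as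
`q ≤ exp (- c log N / N)`): each is at most `2 ^ N exp (- β N)`, at most `N` terms.
In the second part both `s, t ≥ η₁ N`: `termC`, and `∑_{s, t} C(N, s) C(N, t) ≤ 4 ^ N`: at most
`4 ^ N exp (- c η₁ ^ 2 N log N) exp (β N) ≤ 2 ^ N exp (- N)` when
`c η₁ ^ 2 log N ≥ log 2 + β + 1`.
Altogether `Phi / 2 ^ N ≤ 4 N ^ (-2 κ) + 2 N exp (- β N) + exp (- N) ≤ N ^ (- κ)` for large `N`.
-/

namespace Pool.Agent.Lib.Pa7c826n

open Finset

namespace ASumAux

private theorem geom {r : ℝ} (h0 : 0 ≤ r) (h1 : 2 * r ≤ 1) (n : ℕ) :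
    ∑ s ∈ Icc 1 n, r ^ s ≤ 2 * r - 2 * r ^ (n + 1) := by
  induction n with
  | zero => simp
  | succ n ih =>
    rw [Finset.sum_Icc_succ_top (by omega)]
    have h2 : r ^ (n + 1 + 1) * 2 ≤ r ^ (n + 1) := by
      rw [pow_succ r (n + 1)]
      have h3 : 0 ≤ r ^ (n + 1) := pow_nonneg h0 _
      nlinarith
    linarith

private theorem sumExp {κ : ℝ} {N : ℕ} (hN : 1 ≤ N) (h : (2 : ℝ) ≤ (N : ℝ) ^ (2 * κ)) :
    ∑ s ∈ Icc 1 N, Real.exp (-(2 * κ * (s * Real.log N))) ≤ 2 * (N : ℝ) ^ (-(2 * κ)) := by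
  have hN0 : (0 : ℝ) < N := by exact_mod_cast hN
  have h1 : ∀ s : ℕ, Real.exp (-(2 * κ * (s * Real.log N))) = ((N : ℝ) ^ (-(2 * κ))) ^ s := by
    intro s
    rw [Real.rpow_def_of_pos hN0, ← Real.exp_nat_mul]
    congr 1
    ring
  have h2 : (0 : ℝ) ≤ (N : ℝ) ^ (-(2 * κ)) := Real.rpow_nonneg hN0.le _
  have h3 : 2 * (N : ℝ) ^ (-(2 * κ)) ≤ 1 := by
    rw [Real.rpow_neg hN0.le]
    have h4 : (0 : ℝ) < (N : ℝ) ^ (2 * κ) := Real.rpow_pos_of_pos hN0 _
    rw [← div_eq_mul_inv, div_le_one h4]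
    exact h
  simp only [h1]
  have h5 := geom h2 h3 N
  have h6 : 0 ≤ ((N : ℝ) ^ (-(2 * κ))) ^ (N + 1) := pow_nonneg h2 _
  linarith

private theorem rowB {c x₀ β η q : ℝ} (hc : 2 < c) (hx0 : 0 < x₀) (hx1 : x₀ ≤ 1)
    (hx : c * x₀ ≤ 2 * (c - 2)) (h0 : 0 < β) (h1 : β < 1)
    (hβ : Real.exp (-(4 * β)) = (1 + Real.exp (-x₀)) / 2)
    (hη : (c - 2) / 12 * η = β) {N s : ℕ} (hN : 1 ≤ N) (hq0 : 0 ≤ q)
    (hq : q ≤ 1 - c * Real.log N / N) (hs : (s : ℝ) ≤ β / Real.log (1 / β) * N) :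
    (N.choose s : ℝ) * (1 + q ^ s) ^ N *
      Real.exp ((c - 2) / 12 * min (s * Real.log N) (η * N)) ≤
      2 ^ N * (Real.exp (-(2 * ((c - 2) / 12) * (s * Real.log N))) + Real.exp (-(β * N))) := by
  have hκ : 0 < (c - 2) / 12 := by linarith
  have hN0 : (0 : ℝ) < N := by exact_mod_cast hN
  have hP : 0 ≤ (N.choose s : ℝ) * (1 + q ^ s) ^ N := by positivity
  have h2N : (0 : ℝ) < 2 ^ N := by positivity
  by_cases hcs : c * s * Real.log N ≤ x₀ * N
  · have h2 := termA hc hx0 hx1 hx hN hq0 hq hcs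
    have h3 : Real.exp ((c - 2) / 12 * min (s * Real.log N) (η * N)) ≤
        Real.exp ((c - 2) / 12 * (s * Real.log N)) := by
      apply Real.exp_le_exp.2
      exact mul_le_mul_of_nonneg_left (min_le_left _ _) hκ.le
    have h4 := (mul_le_mul_of_nonneg_left h3 hP).trans h2
    have h5 : (0 : ℝ) ≤ 2 ^ N * Real.exp (-(β * N)) := by positivity
    rw [mul_add]
    linarith
  · push Not at hcs
    have hlog : 0 < Real.log (1 / β) := Real.log_pos (by rw [lt_div_iff₀ h0]; linarith)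
    have hs' : s * Real.log (1 / β) ≤ β * N := by
      have h3 := mul_le_mul_of_nonneg_right hs hlog.le
      have h4 : β / Real.log (1 / β) * N * Real.log (1 / β) = β * N := by
        field_simp
      linarith
    have hqs : q ^ s ≤ Real.exp (-x₀) := by
      have h3 : q ≤ Real.exp (-(c * Real.log N / N)) := by
        have h4 := Real.add_one_le_exp (-(c * Real.log N / N))
        linarith
      have h5 : q ^ s ≤ Real.exp (-(c * Real.log N / N)) ^ s := pow_le_pow_left₀ hq0 h3 s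
      rw [← Real.exp_nat_mul] at h5
      refine h5.trans (Real.exp_le_exp.2 ?_)
      have h6 : x₀ ≤ c * s * Real.log N / N := by
        rw [le_div_iff₀ hN0]
        exact hcs.le
      have h7 : (s : ℝ) * -(c * Real.log N / N) = -(c * s * Real.log N / N) := by ring
      rw [h7]
      linarith
    have h2 := termB (N := N) (s := s) h0 h1 hβ hq0 hqs hs'
    have h3 : Real.exp ((c - 2) / 12 * min (s * Real.log N) (η * N)) ≤ Real.exp (β * N) := by
      apply Real.exp_le_exp.2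
      have h4 := mul_le_mul_of_nonneg_left (min_le_right (s * Real.log N) (η * N)) hκ.le
      have h5 : (c - 2) / 12 * (η * N) = β * N := by rw [← mul_assoc, hη]
      linarith
    have h4 : (N.choose s : ℝ) * (1 + q ^ s) ^ N *
        Real.exp ((c - 2) / 12 * min (s * Real.log N) (η * N)) ≤
        2 ^ N * Real.exp (-(2 * β * N)) * Real.exp (β * N) :=
      mul_le_mul h2 h3 (Real.exp_pos _).le (by positivity)
    have h5 : 2 ^ N * Real.exp (-(2 * β * N)) * Real.exp (β * N) =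
        2 ^ N * Real.exp (-(β * N)) := by
      rw [mul_assoc, ← Real.exp_add]
      congr 2
      ring
    rw [h5] at h4
    have h6 : (0 : ℝ) ≤ 2 ^ N * Real.exp (-(2 * ((c - 2) / 12) * (s * Real.log N))) := by
      positivity
    rw [mul_add]
    linarith

private theorem sumT {q : ℝ} (hq0 : 0 ≤ q) (N s : ℕ) :
    ∑ t ∈ Icc 1 N, (N.choose t : ℝ) * q ^ (s * t) ≤ (1 + q ^ s) ^ N := by
  rw [add_comm, add_pow]
  have h1 : Icc 1 N ⊆ range (N + 1) := by
    intro t ht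
    rw [mem_Icc] at ht
    rw [mem_range]
    omega
  have h2 : ∀ t ∈ range (N + 1), (q ^ s) ^ t * 1 ^ (N - t) * (N.choose t : ℝ) =
      (N.choose t : ℝ) * q ^ (s * t) := by
    intro t _
    rw [one_pow, mul_one, ← pow_mul, mul_comm]
  rw [Finset.sum_congr rfl h2]
  exact Finset.sum_le_sum_of_subset_of_nonneg h1 fun t _ _ => by positivity

private theorem sumC (N : ℕ) : ∑ t ∈ Icc 1 N, (N.choose t : ℝ) ≤ 2 ^ N := by
  have h := sumT (q := 1) zero_le_one N 1
  simp only [one_pow, mul_one] at h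
  norm_num at h
  exact h

private theorem mainB {c x₀ β η q : ℝ} (hc : 2 < c) (hx0 : 0 < x₀) (hx1 : x₀ ≤ 1)
    (hx : c * x₀ ≤ 2 * (c - 2)) (h0 : 0 < β) (h1 : β < 1)
    (hβ : Real.exp (-(4 * β)) = (1 + Real.exp (-x₀)) / 2)
    (hη : (c - 2) / 12 * η = β) {N : ℕ} (hN : 1 ≤ N) (hq0 : 0 ≤ q)
    (hq : q ≤ 1 - c * Real.log N / N) (h2 : (2 : ℝ) ≤ (N : ℝ) ^ (2 * ((c - 2) / 12)))
    (h3 : Real.log 2 + β + 1 ≤ c * (β / Real.log (1 / β)) ^ 2 * Real.log N) :
    Phi ((c - 2) / 12) η q N ≤ 2 ^ N * (4 * (N : ℝ) ^ (-(2 * ((c - 2) / 12))) +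
      2 * (N * Real.exp (-(β * N))) + Real.exp (-(N : ℝ))) := by
  have hκ : 0 < (c - 2) / 12 := by linarith
  have hN0 : (0 : ℝ) < N := by exact_mod_cast hN
  have hlogN : 0 ≤ Real.log N := Real.log_natCast_nonneg N
  set κ := (c - 2) / 12 with hκd
  have hlog : 0 < Real.log (1 / β) := Real.log_pos (by rw [lt_div_iff₀ h0]; linarith)
  set η₁ := β / Real.log (1 / β) with hη₁
  have hη₁0 : 0 < η₁ := div_pos h0 hlog
  set E : ℝ := Real.exp (-(c * η₁ ^ 2 * N * Real.log N)) * Real.exp (β * N) with hE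
  have hE0 : 0 ≤ E := by positivity
  set X : ℕ → ℕ → ℝ := fun s t => if (s : ℝ) ≤ η₁ * N then
    (N.choose s : ℝ) * N.choose t * q ^ (s * t) *
      Real.exp (κ * min (s * Real.log N) (η * N)) else 0 with hX
  have hX0 : ∀ s t, 0 ≤ X s t := by
    intro s t
    simp only [hX]
    split_ifs
    · positivity
    · exact le_rfl
  have hterm : ∀ s t : ℕ, (N.choose s : ℝ) * N.choose t * q ^ (s * t) *
      Real.exp (κ * min ((min s t : ℕ) * Real.log N) (η * N)) ≤
      X s t + X t s + (N.choose s : ℝ) * N.choose t * E := by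
    intro s t
    have hP : 0 ≤ (N.choose s : ℝ) * N.choose t * q ^ (s * t) := by positivity
    have hw : ∀ m : ℕ, min s t ≤ m → Real.exp (κ * min ((min s t : ℕ) * Real.log N) (η * N)) ≤
        Real.exp (κ * min (m * Real.log N) (η * N)) := by
      intro m hm
      apply Real.exp_le_exp.2
      apply mul_le_mul_of_nonneg_left _ hκ.le
      apply min_le_min_right
      apply mul_le_mul_of_nonneg_right _ hlogN
      exact_mod_cast hm
    have hY : 0 ≤ (N.choose s : ℝ) * N.choose t * E := by positivity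
    by_cases hs : (s : ℝ) ≤ η₁ * N
    · have e1 : X s t = (N.choose s : ℝ) * N.choose t * q ^ (s * t) *
          Real.exp (κ * min (s * Real.log N) (η * N)) := by
        simp only [hX]
        rw [if_pos hs]
      have e2 := mul_le_mul_of_nonneg_left (hw s (min_le_left _ _)) hP
      have e3 := hX0 t s
      rw [e1]
      linarith
    · by_cases ht : (t : ℝ) ≤ η₁ * N
      · have e1 : X t s = (N.choose s : ℝ) * N.choose t * q ^ (s * t) *
            Real.exp (κ * min (t * Real.log N) (η * N)) := by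
          simp only [hX]
          rw [if_pos ht, mul_comm t s, mul_comm (N.choose t : ℝ)]
        have e2 := mul_le_mul_of_nonneg_left (hw t (min_le_right _ _)) hP
        have e3 := hX0 s t
        rw [e1]
        linarith
      · push Not at hs ht
        have e1 := termC (q := q) (by linarith : (0 : ℝ) ≤ c) hη₁0.le hN hq0 hq hs.le ht.le
        have e2 : Real.exp (κ * min ((min s t : ℕ) * Real.log N) (η * N)) ≤
            Real.exp (β * N) := by
          apply Real.exp_le_exp.2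
          have e4 := mul_le_mul_of_nonneg_left
            (min_le_right (((min s t : ℕ) : ℝ) * Real.log N) (η * N)) hκ.le
          have e5 : κ * (η * N) = β * N := by rw [← mul_assoc, hη]
          linarith
        have e3 : q ^ (s * t) * Real.exp (κ * min ((min s t : ℕ) * Real.log N) (η * N)) ≤ E :=
          mul_le_mul e1 e2 (Real.exp_pos _).le (Real.exp_pos _).le
        have e4 : 0 ≤ (N.choose s : ℝ) * N.choose t := by positivity
        have e5 := mul_le_mul_of_nonneg_left e3 e4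
        have e6 := hX0 s t
        have e7 := hX0 t s
        calc (N.choose s : ℝ) * N.choose t * q ^ (s * t) *
              Real.exp (κ * min ((min s t : ℕ) * Real.log N) (η * N))
            = (N.choose s : ℝ) * N.choose t * (q ^ (s * t) *
              Real.exp (κ * min ((min s t : ℕ) * Real.log N) (η * N))) := by ring
          _ ≤ (N.choose s : ℝ) * N.choose t * E := e5
          _ ≤ _ := by linarith
  have hrow : ∀ s ∈ Icc 1 N, ∑ t ∈ Icc 1 N, X s t ≤
      2 ^ N * (Real.exp (-(2 * κ * (s * Real.log N))) + Real.exp (-(β * N))) := by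
    intro s _
    by_cases hs : (s : ℝ) ≤ η₁ * N
    · have e1 : ∑ t ∈ Icc 1 N, X s t = (N.choose s : ℝ) *
          Real.exp (κ * min (s * Real.log N) (η * N)) *
            ∑ t ∈ Icc 1 N, (N.choose t : ℝ) * q ^ (s * t) := by
        rw [Finset.mul_sum]
        refine Finset.sum_congr rfl fun t _ => ?_
        simp only [hX]
        rw [if_pos hs]
        ring
      have e2 := mul_le_mul_of_nonneg_left (sumT hq0 N s)
        (by positivity : 0 ≤ (N.choose s : ℝ) * Real.exp (κ * min (s * Real.log N) (η * N)))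
      have e3 := rowB hc hx0 hx1 hx h0 h1 hβ hη hN hq0 hq hs
      rw [e1]
      refine e2.trans ?_
      calc (N.choose s : ℝ) * Real.exp (κ * min (s * Real.log N) (η * N)) * (1 + q ^ s) ^ N
          = (N.choose s : ℝ) * (1 + q ^ s) ^ N *
            Real.exp (κ * min (s * Real.log N) (η * N)) := by ring
        _ ≤ _ := e3
    · have e1 : ∑ t ∈ Icc 1 N, X s t = 0 := by
        refine Finset.sum_eq_zero fun t _ => ?_
        simp only [hX]
        rw [if_neg hs]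
      rw [e1]
      positivity
  have hXsum : ∑ s ∈ Icc 1 N, ∑ t ∈ Icc 1 N, X s t ≤
      2 ^ N * (2 * (N : ℝ) ^ (-(2 * κ)) + N * Real.exp (-(β * N))) := by
    refine (Finset.sum_le_sum hrow).trans ?_
    rw [← Finset.mul_sum]
    apply mul_le_mul_of_nonneg_left _ (by positivity)
    rw [Finset.sum_add_distrib]
    apply add_le_add (sumExp hN h2)
    rw [Finset.sum_const, Nat.card_Icc, nsmul_eq_mul]
    simp
  have hYsum : ∑ s ∈ Icc 1 N, ∑ t ∈ Icc 1 N, (N.choose s : ℝ) * N.choose t * E ≤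
      2 ^ N * Real.exp (-(N : ℝ)) := by
    have e1 : ∑ s ∈ Icc 1 N, ∑ t ∈ Icc 1 N, (N.choose s : ℝ) * N.choose t * E =
        (∑ s ∈ Icc 1 N, (N.choose s : ℝ)) * (∑ t ∈ Icc 1 N, (N.choose t : ℝ)) * E := by
      rw [Finset.sum_mul_sum, Finset.sum_mul]
      refine Finset.sum_congr rfl fun s _ => ?_
      rw [Finset.sum_mul]
    have e2 : 0 ≤ ∑ s ∈ Icc 1 N, (N.choose s : ℝ) := by positivity
    have e3 : (∑ s ∈ Icc 1 N, (N.choose s : ℝ)) * (∑ t ∈ Icc 1 N, (N.choose t : ℝ)) ≤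
        2 ^ N * 2 ^ N := mul_le_mul (sumC N) (sumC N) e2 (by positivity)
    have e4 : (2 : ℝ) ^ N * E ≤ Real.exp (-(N : ℝ)) := by
      have e5 : (2 : ℝ) ^ N = Real.exp (N * Real.log 2) := by
        rw [Real.exp_nat_mul, Real.exp_log (by norm_num)]
      rw [hE, e5, ← Real.exp_add, ← Real.exp_add]
      apply Real.exp_le_exp.2
      have e6 := mul_le_mul_of_nonneg_left h3 hN0.le
      nlinarith
    rw [e1]
    calc (∑ s ∈ Icc 1 N, (N.choose s : ℝ)) * (∑ t ∈ Icc 1 N, (N.choose t : ℝ)) * E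
        ≤ 2 ^ N * 2 ^ N * E := mul_le_mul_of_nonneg_right e3 hE0
      _ = 2 ^ N * (2 ^ N * E) := by ring
      _ ≤ 2 ^ N * Real.exp (-(N : ℝ)) := mul_le_mul_of_nonneg_left e4 (by positivity)
  have hcomm : ∑ s ∈ Icc 1 N, ∑ t ∈ Icc 1 N, X t s = ∑ s ∈ Icc 1 N, ∑ t ∈ Icc 1 N, X s t :=
    Finset.sum_comm
  have hfin : Phi κ η q N ≤ ∑ s ∈ Icc 1 N, ∑ t ∈ Icc 1 N,
      (X s t + X t s + (N.choose s : ℝ) * N.choose t * E) := by
    unfold Phi
    exact Finset.sum_le_sum fun s _ => Finset.sum_le_sum fun t _ => hterm s t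
  have hsplit : ∑ s ∈ Icc 1 N, ∑ t ∈ Icc 1 N,
      (X s t + X t s + (N.choose s : ℝ) * N.choose t * E) =
      (∑ s ∈ Icc 1 N, ∑ t ∈ Icc 1 N, X s t) + (∑ s ∈ Icc 1 N, ∑ t ∈ Icc 1 N, X t s) +
        ∑ s ∈ Icc 1 N, ∑ t ∈ Icc 1 N, (N.choose s : ℝ) * N.choose t * E := by
    simp only [Finset.sum_add_distrib]
  rw [hsplit, hcomm] at hfin
  have hR : 2 ^ N * (4 * (N : ℝ) ^ (-(2 * κ)) + 2 * (N * Real.exp (-(β * N))) +
      Real.exp (-(N : ℝ))) = 2 ^ N * (2 * (N : ℝ) ^ (-(2 * κ)) + N * Real.exp (-(β * N))) +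
      2 ^ N * (2 * (N : ℝ) ^ (-(2 * κ)) + N * Real.exp (-(β * N))) +
      2 ^ N * Real.exp (-(N : ℝ)) := by ring
  rw [hR]
  linarith

open Filter Topology in
private theorem largeN {κ β : ℝ} (hκ : 0 < κ) (hβ : 0 < β) :
    ∀ᶠ N : ℕ in atTop, 4 * (N : ℝ) ^ (-(2 * κ)) + 2 * (N * Real.exp (-(β * N))) +
      Real.exp (-(N : ℝ)) ≤ (N : ℝ) ^ (-κ) := by
  have t1 : Tendsto (fun x : ℝ => x ^ (-κ)) atTop (𝓝 0) := tendsto_rpow_neg_atTop hκ
  have t2 := tendsto_rpow_mul_exp_neg_mul_atTop_nhds_zero (1 + κ) β hβ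
  have t3 := tendsto_rpow_mul_exp_neg_mul_atTop_nhds_zero κ 1 one_pos
  have t4 : Tendsto (fun x : ℝ => 4 * x ^ (-κ) + 2 * (x ^ (1 + κ) * Real.exp (-β * x)) +
      x ^ κ * Real.exp (-1 * x)) atTop (𝓝 (4 * 0 + 2 * 0 + 0)) :=
    ((t1.const_mul 4).add (t2.const_mul 2)).add t3
  have t5 : (4 * 0 + 2 * 0 + 0 : ℝ) = 0 := by norm_num
  rw [t5] at t4
  have t6 := (t4.comp tendsto_natCast_atTop_atTop).eventually (gt_mem_nhds (zero_lt_one' ℝ))
  filter_upwards [t6, eventually_ge_atTop 1] with N hN hN1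
  have hN0 : (0 : ℝ) < N := by exact_mod_cast hN1
  simp only [Function.comp] at hN
  have hp : (0 : ℝ) < (N : ℝ) ^ (-κ) := Real.rpow_pos_of_pos hN0 _
  have e1 : (N : ℝ) ^ (-(2 * κ)) = (N : ℝ) ^ (-κ) * (N : ℝ) ^ (-κ) := by
    rw [← Real.rpow_add hN0]
    congr 1
    ring
  have e2 : (N : ℝ) * Real.exp (-(β * N)) =
      (N : ℝ) ^ (-κ) * ((N : ℝ) ^ (1 + κ) * Real.exp (-β * N)) := by
    rw [← mul_assoc, ← Real.rpow_add hN0]
    have : -κ + (1 + κ) = 1 := by ring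
    rw [this, Real.rpow_one, neg_mul]
  have e3 : Real.exp (-(N : ℝ)) = (N : ℝ) ^ (-κ) * ((N : ℝ) ^ κ * Real.exp (-1 * N)) := by
    rw [← mul_assoc, ← Real.rpow_add hN0, neg_add_cancel, Real.rpow_zero, one_mul, neg_mul,
      one_mul]
  rw [e1, e2, e3]
  calc 4 * ((N : ℝ) ^ (-κ) * (N : ℝ) ^ (-κ)) +
        2 * ((N : ℝ) ^ (-κ) * ((N : ℝ) ^ (1 + κ) * Real.exp (-β * N))) +
        (N : ℝ) ^ (-κ) * ((N : ℝ) ^ κ * Real.exp (-1 * N))
      = (N : ℝ) ^ (-κ) * (4 * (N : ℝ) ^ (-κ) + 2 * ((N : ℝ) ^ (1 + κ) * Real.exp (-β * N)) +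
        (N : ℝ) ^ κ * Real.exp (-1 * N)) := by ring
    _ ≤ (N : ℝ) ^ (-κ) * 1 := mul_le_mul_of_nonneg_left hN.le hp.le
    _ = (N : ℝ) ^ (-κ) := mul_one _

end ASumAux

open ASumAux

theorem Phi_small {c : ℝ} (hc : 2 < c) :
    ∃ κ η δ : ℝ, 0 < κ ∧ 0 < η ∧ 0 < δ ∧ ∃ N₀ : ℕ, ∀ N ≥ N₀, ∀ q : ℝ, 0 ≤ q →
      q ≤ 1 - c * Real.log N / N → Phi κ η q N ≤ 2 ^ N * (N : ℝ) ^ (-δ) := by
  have hκ : 0 < (c - 2) / 12 := by linarith
  have hc0 : 0 < c := by linarith
  set x₀ : ℝ := min 1 (2 * (c - 2) / c) with hx₀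
  have hx0 : 0 < x₀ := lt_min one_pos (div_pos (by linarith) hc0)
  have hx1 : x₀ ≤ 1 := min_le_left _ _
  have hx : c * x₀ ≤ 2 * (c - 2) := by
    have h1 : x₀ ≤ 2 * (c - 2) / c := min_le_right _ _
    rw [le_div_iff₀ hc0] at h1
    linarith
  have hy1 : (1 + Real.exp (-x₀)) / 2 < 1 := by
    have h1 : Real.exp (-x₀) < 1 := by
      rw [← Real.exp_zero]
      exact Real.exp_lt_exp.2 (by linarith)
    linarith
  have hy0 : 1 / 2 < (1 + Real.exp (-x₀)) / 2 := by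
    have h1 := Real.exp_pos (-x₀)
    linarith
  set β : ℝ := -Real.log ((1 + Real.exp (-x₀)) / 2) / 4 with hβd
  have h0 : 0 < β := by
    have h1 : Real.log ((1 + Real.exp (-x₀)) / 2) < 0 := Real.log_neg (by linarith) hy1
    rw [hβd]
    linarith
  have h1 : β < 1 := by
    have h2 : Real.log (1 / 2) ≤ Real.log ((1 + Real.exp (-x₀)) / 2) :=
      Real.log_le_log (by norm_num) hy0.le
    have h3 : Real.log (1 / 2) = -Real.log 2 := by rw [one_div, Real.log_inv]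
    have h4 : Real.log 2 ≤ 1 := by
      have := Real.log_two_lt_d9
      linarith
    rw [hβd]
    linarith
  have hβ : Real.exp (-(4 * β)) = (1 + Real.exp (-x₀)) / 2 := by
    have h2 : -(4 * β) = Real.log ((1 + Real.exp (-x₀)) / 2) := by
      rw [hβd]
      ring
    rw [h2, Real.exp_log (by linarith)]
  have hη : (c - 2) / 12 * (β / ((c - 2) / 12)) = β := mul_div_cancel₀ _ hκ.ne'
  refine ⟨(c - 2) / 12, β / ((c - 2) / 12), (c - 2) / 12, hκ, div_pos h0 hκ, hκ, ?_⟩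
  have hlog : 0 < Real.log (1 / β) := Real.log_pos (by rw [lt_div_iff₀ h0]; linarith)
  have hη₁ : 0 < c * (β / Real.log (1 / β)) ^ 2 := by positivity
  have f1 : ∀ᶠ N : ℕ in Filter.atTop, (2 : ℝ) ≤ (N : ℝ) ^ (2 * ((c - 2) / 12)) :=
    ((tendsto_rpow_atTop (by linarith : 0 < 2 * ((c - 2) / 12))).comp
      tendsto_natCast_atTop_atTop).eventually_ge_atTop 2
  have f2 : ∀ᶠ N : ℕ in Filter.atTop, Real.log 2 + β + 1 ≤
      c * (β / Real.log (1 / β)) ^ 2 * Real.log N :=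
    ((Real.tendsto_log_atTop.comp tendsto_natCast_atTop_atTop).const_mul_atTop
      hη₁).eventually_ge_atTop _
  have f3 := largeN hκ h0
  obtain ⟨N₀, hN₀⟩ := Filter.eventually_atTop.1 ((f1.and (f2.and f3)).and
    (Filter.eventually_ge_atTop 1))
  refine ⟨N₀, fun N hN q hq0 hq => ?_⟩
  obtain ⟨⟨g1, g2, g3⟩, g4⟩ := hN₀ N hN
  refine (mainB hc hx0 hx1 hx h0 h1 hβ hη g4 hq0 hq g1 g2).trans ?_
  exact mul_le_mul_of_nonneg_left g3 (by positivity)

end Pool.Agent.Lib.Pa7c826n
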