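import Pool.Agent.Lib.Pa7c826n.Base

/-!
The enumeration of all sets of at most `k` vertices, and the error of the algorithm.

`algB_eq`: as `algA_eq_sum` and `algA_eq` in Lib/Pa7c826y/Alg.lean (`sum_first`, `eqB_iff`,
`tup_subset`, `card_tup_le`, `exists_tup`, `exists_emb`, `emb_freeN`).
`error_bound'`: as `error_bound` there (`sum_fam`, `sum_fam'` with the families of all sets of at
most `k` vertices): if `A`, `B` are the independent pairs with `|S| ≤ k`, respectively
`|T| ≤ k`, then `|A| + |B| - |Ind| = |A ∩ B| - (number of pairs with both sizes > k)`, and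
`|A ∩ B| ≤ (N + 1) ^ k * (N + 1) ^ k`; the number of subsets of size `≤ k` of an `N`-set is at
most `(N + 1) ^ k` (see the last part of `card_Fam_le`).
-/

namespace Pool.Agent.Lib.Pa7c826n

open Pool.Agent.Lib.Pa7c826 Pool.Agent.Lib.Pa7c826y Finset

theorem algB_eq {n m k I : ℕ} {F : ℕ → ℕ → Bool} {E : Fin n → Fin m → Bool}
    (hF : ∀ (i : Fin n) (j : Fin m), F i j = E i j) (hI : (n + 1) ^ k ≤ I) :
    algB n m F k I =
      ∑ S ∈ (univ : Finset (Finset (Fin n))).filter (fun S => S.card ≤ k),
        2 ^ ((nb E S)ᶜ).card := by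
  classical
  have h1 : algB n m F k I = ∑ p ∈ range I,
      (if ∃ p' < p, tup n k p' = tup n k p then 0
        else 2 ^ (freeN n m F (tup n k p)).card) := by
    unfold algB
    refine sum_congr rfl fun p _ => ?_
    simp only [decide_eq_true_eq, eqB_iff (tup_subset k _) (tup_subset k _)]
  have h2 := sum_first I (fun p => tup n k p) (fun S => 2 ^ (freeN n m F S).card)
  have h3 : (∑ p ∈ range I, (if ∃ p' < p, tup n k p' = tup n k p then 0
        else 2 ^ (freeN n m F (tup n k p)).card)) =
      ∑ x ∈ (range I).image (fun p => tup n k p), 2 ^ (freeN n m F x).card := by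
    rw [← h2]
  rw [h1, h3]
  symm
  refine sum_bij (fun S _ => S.map Fin.valEmbedding) ?_ ?_ ?_ ?_
  · intro S hS
    rw [mem_filter] at hS
    obtain ⟨i, hi, hti⟩ := exists_tup k (S.map Fin.valEmbedding)
      (by
        intro v hv
        obtain ⟨i, _, rfl⟩ := mem_map.1 hv
        exact mem_range.2 i.2) (by rw [card_map]; exact hS.2)
    exact mem_image.2 ⟨i, mem_range.2 (hi.trans_le hI), hti⟩
  · intro S _ S' _ h
    exact map_injective _ h
  · intro S hS
    obtain ⟨i, _, rfl⟩ := mem_image.1 hS
    obtain ⟨S', hS'⟩ := exists_emb (tup_subset (n := n) k i)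
    refine ⟨S', ?_, hS'⟩
    rw [mem_filter]
    refine ⟨mem_univ _, ?_⟩
    have := card_tup_le (n := n) k i
    rw [← hS', card_map] at this
    exact this
  · intro S _
    rw [emb_freeN hF, card_map]

private theorem card_small (N k : ℕ) :
    ((univ : Finset (Finset (Fin N))).filter (fun S => S.card ≤ k)).card ≤ (N + 1) ^ k := by
  classical
  have h2 : ((univ : Finset (Finset (Fin N))).filter (fun S => S.card ≤ k)).image
      (fun T => T.map Fin.valEmbedding) ⊆ (range ((N + 1) ^ k)).image (tup N k) := by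
    intro S hS
    obtain ⟨T, hT, rfl⟩ := mem_image.1 hS
    simp only [mem_filter, mem_univ, true_and] at hT
    obtain ⟨i, hi, h⟩ := exists_tup (n := N) k (T.map Fin.valEmbedding)
      (by
        intro v hv
        obtain ⟨i, _, rfl⟩ := mem_map.1 hv
        exact mem_range.2 i.2) (by simpa using hT)
    exact mem_image.2 ⟨i, mem_range.2 hi, h⟩
  have h3 := card_le_card h2
  rw [card_image_of_injective] at h3
  · exact h3.trans (card_image_le.trans (by simp))
  · intro T T' h
    exact map_injective _ h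

theorem error_bound' {N : ℕ} (E : Fin N → Fin N → Bool) (k : ℕ) :
    |(((∑ S ∈ (univ : Finset (Finset (Fin N))).filter (fun S => S.card ≤ k),
          2 ^ ((nb E S)ᶜ).card : ℕ) : ℝ) +
        ((∑ S ∈ (univ : Finset (Finset (Fin N))).filter (fun S => S.card ≤ k),
          2 ^ ((nb (rev E) S)ᶜ).card : ℕ) : ℝ)) - (Ind E).card| ≤
      max (((N : ℝ) + 1) ^ (2 * k)) (Big E k).card := by
  classical
  rw [sum_fam, sum_fam']
  set 𝒮 : Finset (Finset (Fin N)) :=
    (univ : Finset (Finset (Fin N))).filter (fun S => S.card ≤ k) with h𝒮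
  set A := (Ind E).filter fun P => P.1 ∈ 𝒮 with hA
  set B := (Ind E).filter fun P => P.2 ∈ 𝒮 with hB
  have h1 : A.card + B.card = (A ∪ B).card + (A ∩ B).card := (card_union_add_card_inter A B).symm
  have h2 : (A ∪ B).card + (Big E k).card = (Ind E).card := by
    have h21 : A ∪ B = (Ind E).filter fun P => ¬ (k < P.1.card ∧ k < P.2.card) := by
      ext P
      simp only [hA, hB, h𝒮, mem_union, mem_filter, mem_univ, true_and, not_and_or, not_lt]
      tauto
    rw [h21, add_comm]
    exact card_filter_add_card_filter_not _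
  have h3 : (A ∩ B).card ≤ (N + 1) ^ k * (N + 1) ^ k := by
    have h31 : (A ∩ B).card ≤ 𝒮.card * 𝒮.card := by
      rw [← card_product]
      refine card_le_card ?_
      intro P hP
      have hP1 := (mem_filter.1 (mem_inter.1 hP).1).2
      have hP2 := (mem_filter.1 (mem_inter.1 hP).2).2
      exact mem_product.2 ⟨hP1, hP2⟩
    exact h31.trans (Nat.mul_le_mul (card_small N k) (card_small N k))
  have e : ((A.card : ℝ) + B.card) - (Ind E).card = (A ∩ B).card - (Big E k).card := by
    have h1' : (A.card : ℝ) + B.card = (A ∪ B).card + (A ∩ B).card := by exact_mod_cast h1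
    have h2' : ((A ∪ B).card : ℝ) + (Big E k).card = (Ind E).card := by exact_mod_cast h2
    linarith
  rw [e]
  have h3' : ((A ∩ B).card : ℝ) ≤ ((N : ℝ) + 1) ^ (2 * k) := by
    rw [two_mul, pow_add]
    exact_mod_cast h3
  have p1 : (0 : ℝ) ≤ (A ∩ B).card := Nat.cast_nonneg _
  have p2 : (0 : ℝ) ≤ (Big E k).card := Nat.cast_nonneg _
  rw [abs_le]
  constructor
  · have := le_max_right (((N : ℝ) + 1) ^ (2 * k)) ((Big E k).card : ℝ)
    linarith
  · have := le_max_left (((N : ℝ) + 1) ^ (2 * k)) ((Big E k).card : ℝ)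
    linarith

end Pool.Agent.Lib.Pa7c826n
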