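import Pool.Agent.Lib.Pa7c826n.ProbA
import Pool.Agent.Lib.Pa7c826n.Base

/-!
The random edges are read off uniformly distributed random bits.

Proof. Strings `r` of length `N * N * κ + m` correspond to pairs (string of length `N * N * κ`,
string of length `m`) (`Fin.appendEquiv`, see `card_prefix` in Lib/Pa7c826/Transfer.lean), and the
first part corresponds to functions `Fin N → Fin N → (Fin κ → Bool)` (`finProdFinEquiv` twice; the
position of the bit `k` of the pair `(i, j)` is `(i * N + j) * κ + k < N * N * κ`, so `nv` reads only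
the first part: `List.getD` of `List.ofFn`). For fixed `F` the number of first parts with
`nz … (i * N + j) = F i j` for all `i, j` is the product over all pairs of `X` or `2 ^ κ - X`,
according to `F i j`, because `nv` takes each value below `2 ^ κ` exactly once on `Fin κ → Bool`
(binary expansion; e.g. injective into `Finset.range (2 ^ κ)` by induction on `κ`, or
`Nat.ofBits` / `finFunctionFinEquiv`). Divide by `(2 ^ κ) ^ (N * N)`: this is `wt (X / 2 ^ κ) F`.
-/

namespace Pool.Agent.Lib.Pa7c826n

open Pool.Agent.Lib.Pa7c826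

namespace BitsAux

open Finset

/-- the value of a block of bits -/
def bv (κ : ℕ) (x : Fin κ → Bool) : ℕ := ∑ i : Fin κ, if x i = true then 2 ^ (i : ℕ) else 0

/-- blocks of bits as numbers -/
def bEquiv (κ : ℕ) : (Fin κ → Bool) ≃ Fin (2 ^ κ) :=
  (Equiv.arrowCongr (Equiv.refl _) finTwoEquiv.symm).trans finFunctionFinEquiv

theorem bEquiv_val (κ : ℕ) (x : Fin κ → Bool) : (bEquiv κ x : ℕ) = bv κ x := by
  unfold bEquiv bv
  rw [Equiv.trans_apply, finFunctionFinEquiv_apply]
  refine Finset.sum_congr rfl fun i _ => ?_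
  simp only [Equiv.arrowCongr_apply, Equiv.refl_symm, Equiv.coe_refl, Function.comp_apply, id]
  cases x i <;> simp [finTwoEquiv]

theorem card_lt {κ X : ℕ} (hX : X ≤ 2 ^ κ) :
    #{x : Fin κ → Bool | decide (bv κ x < X) = true} = X := by
  have h1 : #{x : Fin κ → Bool | decide (bv κ x < X) = true} =
      #{y : Fin (2 ^ κ) | (y : ℕ) < X} := by
    refine Finset.card_equiv (bEquiv κ) fun x => ?_
    simp [bEquiv_val]
  rw [h1]
  have h2 : #{y : Fin (2 ^ κ) | (y : ℕ) < X} = #(Finset.univ : Finset (Fin X)) := by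
    refine (Finset.card_bij (fun (y : Fin X) _ => (⟨y.1, y.2.trans_le hX⟩ : Fin (2 ^ κ)))
      ?_ ?_ ?_).symm
    · intro y _
      simp
    · intro y _ z _ h
      exact Fin.ext (Fin.mk.inj_iff.1 h)
    · intro y hy
      refine ⟨⟨y.1, (Finset.mem_filter.1 hy).2⟩, Finset.mem_univ _, rfl⟩
  rw [h2, Finset.card_univ, Fintype.card_fin]

theorem card_ge {κ X : ℕ} (hX : X ≤ 2 ^ κ) :
    #{x : Fin κ → Bool | decide (bv κ x < X) = false} = 2 ^ κ - X := by
  have h1 := Finset.card_filter_add_card_filter_not (s := (Finset.univ : Finset (Fin κ → Bool)))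
    (fun x => decide (bv κ x < X) = true)
  rw [card_lt hX] at h1
  simp only [Bool.not_eq_true, Finset.card_univ, Fintype.card_fun, Fintype.card_bool,
    Fintype.card_fin] at h1
  omega

theorem card_bit {κ X : ℕ} (hX : X ≤ 2 ^ κ) (c : Bool) :
    (#{x : Fin κ → Bool | decide (bv κ x < X) = c} : ℝ) / 2 ^ κ =
      if c = true then (X : ℝ) / 2 ^ κ else 1 - (X : ℝ) / 2 ^ κ := by
  cases c
  · rw [card_ge hX, Nat.cast_sub hX]
    push_cast
    have : (2 : ℝ) ^ κ ≠ 0 := by positivity
    rw [sub_div, div_self this]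
  · rw [card_lt hX]
    simp

/-- positions -/
def idx (N κ : ℕ) : (Fin N × Fin N) × Fin κ ≃ Fin (N * N * κ) :=
  (finProdFinEquiv.prodCongr (Equiv.refl _)).trans finProdFinEquiv

theorem idx_val (N κ : ℕ) (i j : Fin N) (t : Fin κ) :
    (idx N κ ((i, j), t) : ℕ) = ((i : ℕ) * N + j) * κ + t := by
  unfold idx
  simp [finProdFinEquiv]
  ring

/-- blocks -/
def blo (N κ : ℕ) : (Fin (N * N * κ) → Bool) ≃ (Fin N → Fin N → Fin κ → Bool) where
  toFun u := fun i j t => u (idx N κ ((i, j), t))
  invFun a := fun q => a ((idx N κ).symm q).1.1 ((idx N κ).symm q).1.2 ((idx N κ).symm q).2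
  left_inv u := by
    funext q
    show u (idx N κ ((idx N κ).symm q)) = u q
    rw [Equiv.apply_symm_apply]
  right_inv a := by
    funext i j t
    simp

theorem nv_append {N κ m : ℕ} (u : Fin (N * N * κ) → Bool) (v : Fin m → Bool) (i j : Fin N) :
    nv κ (List.ofFn u ++ List.ofFn v) (i * N + j) = bv κ (blo N κ u i j) := by
  unfold nv bv
  rw [Finset.sum_range]
  refine Finset.sum_congr rfl fun t _ => ?_
  have h1 : ((i : ℕ) * N + j) * κ + t < N * N * κ := by
    rw [← idx_val N κ i j t]
    exact (idx N κ ((i, j), t)).2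
  rw [List.getD_append _ _ _ _ (by simpa using h1), List.getD_eq_getElem _ _ (by simpa using h1)]
  rw [List.getElem_ofFn]
  have h2 : (⟨((i : ℕ) * N + j) * κ + t, h1⟩ : Fin (N * N * κ)) = idx N κ ((i, j), t) :=
    Fin.ext (idx_val N κ i j t).symm
  show (if u ⟨((i : ℕ) * N + j) * κ + t, _⟩ = true then _ else _) = _
  rw [h2]
  rfl

end BitsAux

open BitsAux in
theorem count_bits {N κ X m : ℕ} (hX : X ≤ 2 ^ κ)
    (Q : (Fin N → Fin N → Bool) → List Bool → Prop) :
    (Nat.card {r : Fin (N * N * κ + m) → Bool //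
      Q (fun i j => nz κ X (List.ofFn r) (i * N + j)) ((List.ofFn r).drop (N * N * κ))} : ℝ) /
        2 ^ (N * N * κ + m) =
      Ex ((X : ℝ) / 2 ^ κ) (fun F =>
        (Nat.card {s : Fin m → Bool // Q F (List.ofFn s)} : ℝ) / 2 ^ m) := by
  classical
  have e1 : {r : Fin (N * N * κ + m) → Bool //
      Q (fun i j => nz κ X (List.ofFn r) (i * N + j)) ((List.ofFn r).drop (N * N * κ))} ≃
      {p : (Fin N → Fin N → Fin κ → Bool) × (Fin m → Bool) //
        Q (fun i j => decide (bv κ (p.1 i j) < X)) (List.ofFn p.2)} := by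
    refine (Equiv.subtypeEquiv (((blo N κ).symm.prodCongr (Equiv.refl _)).trans
      (Fin.appendEquiv (N * N * κ) m)) ?_).symm
    rintro ⟨a, v⟩
    obtain ⟨u, rfl⟩ := (blo N κ).surjective a
    simp only [Equiv.trans_apply, Equiv.prodCongr_apply, Prod.map, Equiv.symm_apply_apply,
      Equiv.refl_apply, Fin.appendEquiv, Equiv.coe_fn_mk]
    rw [List.ofFn_fin_append, List.drop_left' (by simp)]
    have h1 : (fun i j => decide (bv κ (blo N κ u i j) < X)) =
        fun (i j : Fin N) => nz κ X (List.ofFn u ++ List.ofFn v) (i * N + j) := by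
      funext i j
      unfold nz
      rw [nv_append]
    rw [h1]
  rw [Nat.card_congr (e1.trans (Equiv.subtypeProdEquivSigmaSubtype
    (fun (a : Fin N → Fin N → Fin κ → Bool) (v : Fin m → Bool) =>
      Q (fun i j => decide (bv κ (a i j) < X)) (List.ofFn v)))), Nat.card_sigma]
  set g : (Fin N → Fin N → Bool) → ℕ := fun F =>
    Nat.card {s : Fin m → Bool // Q F (List.ofFn s)} with hg
  have h2 : ∑ a : Fin N → Fin N → Fin κ → Bool,
      Nat.card {s : Fin m → Bool // Q (fun i j => decide (bv κ (a i j) < X)) (List.ofFn s)} =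
      ∑ F : Fin N → Fin N → Bool,
        (∏ i, ∏ j, Finset.card {x : Fin κ → Bool | decide (bv κ x < X) = F i j}) * g F := by
    have h3 := Finset.sum_fiberwise (Finset.univ : Finset (Fin N → Fin N → Fin κ → Bool))
      (fun a => (fun i j => decide (bv κ (a i j) < X) : Fin N → Fin N → Bool))
      (fun a => g (fun i j => decide (bv κ (a i j) < X)))
    refine h3.symm.trans (Finset.sum_congr rfl fun F _ => ?_)
    have h4 : ∀ a ∈ Finset.univ.filter (fun a : Fin N → Fin N → Fin κ → Bool =>
        (fun i j => decide (bv κ (a i j) < X)) = F),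
        g (fun i j => decide (bv κ (a i j) < X)) = g F := by
      intro a ha
      rw [(Finset.mem_filter.1 ha).2]
    rw [Finset.sum_congr rfl h4, Finset.sum_const, smul_eq_mul]
    congr 1
    have h5 : Finset.univ.filter (fun a : Fin N → Fin N → Fin κ → Bool =>
        (fun i j => decide (bv κ (a i j) < X)) = F) =
        Fintype.piFinset (fun i => Fintype.piFinset (fun j =>
          Finset.univ.filter (fun x : Fin κ → Bool => decide (bv κ x < X) = F i j))) := by
      ext a
      simp only [Finset.mem_filter, Finset.mem_univ, true_and, Fintype.mem_piFinset]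
      constructor
      · intro h i j
        exact congrFun (congrFun h i) j
      · intro h
        funext i j
        exact h i j
    rw [h5, Fintype.card_piFinset]
    refine Finset.prod_congr rfl fun i _ => ?_
    rw [Fintype.card_piFinset]
  rw [h2]
  unfold Ex wt
  push_cast
  rw [Finset.sum_div]
  refine Finset.sum_congr rfl fun F _ => ?_
  have h6 : ∏ i, ∏ j, (if F i j = true then (X : ℝ) / 2 ^ κ else 1 - (X : ℝ) / 2 ^ κ) =
      (∏ i, ∏ j, (Finset.card {x : Fin κ → Bool | decide (bv κ x < X) = F i j} : ℝ)) /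
        2 ^ (N * N * κ) := by
    have h7 : ∀ i j, (if F i j = true then (X : ℝ) / 2 ^ κ else 1 - (X : ℝ) / 2 ^ κ) =
      (Finset.card {x : Fin κ → Bool | decide (bv κ x < X) = F i j} : ℝ) / 2 ^ κ :=
      fun i j => (card_bit hX (F i j)).symm
    simp only [h7, Finset.prod_div_distrib, Finset.prod_const, Finset.card_univ,
      Fintype.card_fin]
    congr 1
    rw [← pow_mul, ← pow_mul]
    congr 1
    ring
  rw [h6, pow_add]
  rw [div_mul_div_comm]

end Pool.Agent.Lib.Pa7c826n
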