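import Pool.Agent.Lib.Pa7c826n.ASpec
import Pool.Agent.Lib.Pa7c826n.APhi
import Pool.Agent.Lib.Pa7c826n.ASum

/-!
The scheme above the threshold.

Proof. `κ, η, δ` from `Phi_small` (with `q = 1 - p N`), `e` from `algoN_spec`. The machine outputs
`false :: u` with `u` the binary expansion of `algoN e`, as in `hasFPTAS_of_consts` (Lib
Pa7c826y/Main2.lean). The event `GoodNoise κ η` has probability at least
`1 - Phi κ η (1 - p N) N / 2 ^ N ≥ 1 - N ^ (-δ)` (`pr_goodNoise`) and implies the required event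
(`Pr_mono`, `algoN_spec`); `0 ≤ p N ≤ 1` for large `N`.
-/

namespace Pool.Agent.Lib.Pa7c826n

open Pool.Agent.Lib.Pa7c826 Pool.Agent.Lib.Pa7c826y
open Pool.Agent.Lib.PolyTime

theorem easy {c : ℝ} (hc : 2 < c) {p : ℕ → ℝ}
    (hp : ∃ N₁ : ℕ, ∀ N ≥ N₁, c * Real.log N / N ≤ p N ∧ p N ≤ 1) : NoisyFPTAS p := by
  obtain ⟨N₁, hN₁⟩ := hp
  obtain ⟨κ, η, δ, hκ, hη, hδ, N₂, hN₂⟩ := Phi_small hc
  obtain ⟨e, N₃, hN₃⟩ := algoN_spec hκ hη
  let D : BGraph × ℕ → Prop := fun x => x.1.a = x.1.b ∧ 1 ≤ x.2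
  let enc : BGraph × ℕ → List Bool := fun x => inCode x.1 x.2
  have hw : PolyC D [enc] enc := PolyC.var (by simp)
  obtain ⟨u, hu, hval⟩ := poly_algoN e hw
  have hout : PolyC D [enc] (fun x => false :: u x) := PolyC.cons false hu
  refine ⟨fun x => false :: u x.1, PolyC.toTM2 enc (fun x => false :: u x) id hout, δ, hδ,
    N₁ + N₂ + N₃ + 1, ?_⟩
  intro N hN
  obtain ⟨h1, h2⟩ := hN₁ N (by omega)
  have hN0 : (1 : ℝ) ≤ N := by exact_mod_cast (show 1 ≤ N by omega)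
  have h0 : 0 ≤ p N := by
    refine le_trans ?_ h1
    have := Real.log_nonneg hN0
    positivity
  have h3 := hN₂ N (by omega) (1 - p N) (by linarith) (by linarith)
  have h4 := pr_goodNoise hκ.le hη.le h0 h2 N
  have h5 : Phi κ η (1 - p N) N / 2 ^ N ≤ (N : ℝ) ^ (-δ) := by
    rw [div_le_iff₀ (by positivity)]
    linarith
  refine le_trans (by linarith) (h4.trans (Pr_mono h0 h2 ?_))
  intro F hF E t ht
  have h6 := hN₃ N (by omega) F hF E t ht
  have h7 : binVal (u (join E F, t)) = algoN e (inCode (join E F) t) := by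
    rw [binVal_eq_bval]
    exact hval (join E F, t) ⟨rfl, ht⟩
  unfold Good
  simp only [outVal, h7]
  have h8 : ((|((algoN e (inCode (join E F) t) : ℕ) : ℚ) - (numIndep (join E F).graph : ℚ)| :
      ℚ) : ℝ) ≤ (((numIndep (join E F).graph : ℚ) / (t : ℚ) : ℚ) : ℝ) := by
    push_cast
    exact h6
  exact Rat.cast_le.1 h8

end Pool.Agent.Lib.Pa7c826n
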