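import Pool.Agent.Lib.Pa7c826n.ProbA

/-!
The trivial direction below the threshold.

Proof. A scheme for all graphs, restricted to balanced graphs (as in `HasFPRAS.mono`, Lib
Pa7c826/Transfer.lean), succeeds on each graph with probability at least `3 / 4`
(`3 * 2 ^ m ≤ 4 * card`); average over `F`: `Ex_const`, `Ex_mono`. For large `N`:
`0 ≤ p N ≤ c log N / N ≤ 1` (`log N ≤ N / 2`, or `Real.log_le_sub_one_of_pos` for `N / 2`;
for `c < 0` the hypothesis is contradictory for `N ≥ 2`, or use `c log N / N ≤ 2 log N / N ≤ 1`).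
-/

namespace Pool.Agent.Lib.Pa7c826n

open Pool.Agent.Lib.Pa7c826

theorem noisy_of_all {c : ℝ} (hc : c < 2) {p : ℕ → ℝ}
    (hp : ∃ N₁ : ℕ, ∀ N ≥ N₁, 0 ≤ p N ∧ p N ≤ c * Real.log N / N)
    (h : HasFPRAS (fun _ => True)) : NoisyFPRAS p := by
  obtain ⟨N₁, hN₁⟩ := hp
  obtain ⟨m, f, ⟨⟨⟨tm, e0, e1⟩, time, hout⟩⟩, hgood⟩ := h
  refine ⟨m, f, ⟨⟨⟨tm, e0, e1⟩, time, fun x => hout ⟨x.1, trivial, x.2.2⟩⟩⟩, max N₁ 1,
    fun N hN E t ht => ?_⟩
  have hN1 : 1 ≤ N := le_trans (le_max_right _ _) hN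
  obtain ⟨h0, h2⟩ := hN₁ N (le_trans (le_max_left _ _) hN)
  have hNr : (1 : ℝ) ≤ (N : ℝ) := by exact_mod_cast hN1
  have hNpos : (0 : ℝ) < (N : ℝ) := by linarith
  have hlog0 : 0 ≤ Real.log (N : ℝ) := Real.log_nonneg hNr
  have hlog : 2 * Real.log (N : ℝ) ≤ (N : ℝ) := by
    have e1' : Real.log ((N : ℝ) / 2) ≤ (N : ℝ) / 2 - 1 :=
      Real.log_le_sub_one_of_pos (by positivity)
    have e2' : Real.log ((N : ℝ) / 2) = Real.log (N : ℝ) - Real.log 2 :=
      Real.log_div (ne_of_gt hNpos) (by norm_num)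
    have e3' : Real.log 2 < 1 := by
      have := Real.log_two_lt_d9
      linarith
    linarith
  have h1 : p N ≤ 1 := by
    refine le_trans h2 ?_
    rw [div_le_one hNpos]
    have : c * Real.log (N : ℝ) ≤ 2 * Real.log (N : ℝ) :=
      mul_le_mul_of_nonneg_right hc.le hlog0
    linarith
  have key : ∀ F : Fin N → Fin N → Bool, (3 / 4 : ℝ) ≤
      (Nat.card {r : Fin (m.eval (inCode (join E F) t).length) → Bool //
          Good (join E F) t (f (join E F) t (List.ofFn r))} : ℝ) /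
        2 ^ m.eval (inCode (join E F) t).length := by
    intro F
    have h3 := hgood (join E F) t trivial ht
    have h4 : (3 : ℝ) * 2 ^ m.eval (inCode (join E F) t).length ≤
        4 * (Nat.card {r : Fin (m.eval (inCode (join E F) t).length) → Bool //
          Good (join E F) t (f (join E F) t (List.ofFn r))} : ℝ) := by
      exact_mod_cast h3
    rw [le_div_iff₀ (by positivity)]
    linarith
  calc (3 / 4 : ℝ) = Ex (p N) (fun _ : Fin N → Fin N → Bool => (3 / 4 : ℝ)) :=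
        (Ex_const (p N) (3 / 4 : ℝ)).symm
    _ ≤ _ := Ex_mono h0 h1 key

end Pool.Agent.Lib.Pa7c826n
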