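import Pool.Agent.Lib.Pa7c826n.Easy
import Pool.Agent.Lib.Pa7c826n.Hard
import Pool.Agent.Lib.Pa7c826n.HardB

/-!
The smoothed threshold.
-/

namespace Pool.Agent.Lib.Pa7c826n

open Pool.Agent.Lib.Pa7c826

theorem threshold (c : ℝ) (p : ℕ → ℝ) :
    (2 < c → (∃ N₁ : ℕ, ∀ N ≥ N₁, c * Real.log N / N ≤ p N ∧ p N ≤ 1) → NoisyFPTAS p) ∧
    (c < 2 → (∃ N₁ : ℕ, ∀ N ≥ N₁, 0 ≤ p N ∧ p N ≤ c * Real.log N / N) →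
      (NoisyFPRAS p ↔ HasFPRAS (fun _ => True))) :=
  ⟨fun hc hp => easy hc hp, fun hc hp => ⟨all_of_noisy hc hp, noisy_of_all hc hp⟩⟩

end Pool.Agent.Lib.Pa7c826n
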