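import Pool.Agent.Lib.Pa7c826n.Base

/-!
The number of independent sets of the new graph, given the random edges.

Proof. Let `H = join E F`. By `card_Ind_eq` (Lib/Pa7c826y/Main2.lean) and `sum_fam` (Lib
Pa7c826y/Alg.lean, with all sets) the number of independent sets is
`∑_S 2 ^ ((nb H.E S)ᶜ).card` over all sets `S` of left vertices. If `S` contains a vertex that is
not a clone, all right vertices are neighbours (`hE2`) and the term is `1`; there are
`2 ^ N - 2 ^ (a s)` such sets (the others are the images of the sets of clones; a left vertex `i`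
is a clone iff `i < a s`: `i = (i / s) s + i % s`). If `S` is the image of a set `X` of clones, a
right vertex `j < b` is a neighbour iff `M u j` for some `u ∈ prA X` (`hE1`, `hF`), and the right
vertex `b + w` is a neighbour iff it is a random neighbour (`hE1`): the complement of the
neighbourhood has `(b - nbA M (prA X)) + ((N - b) - dgs (res F) X)` elements. Divide by
`2 ^ N = 2 ^ b * 2 ^ (N - b)`.
-/

namespace Pool.Agent.Lib.Pa7c826n

open Pool.Agent.Lib.Pa7c826 Pool.Agent.Lib.Pa7c826y Finset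

namespace HCountAux

variable {N a s b : ℕ}

theorem nb_join (has : a * s ≤ N) (hb : b ≤ N) (M : Fin a → Fin b → Bool)
    (E F : Fin N → Fin N → Bool)
    (hE1 : ∀ (v : Fin a × Fin s) (j : Fin N),
      E (cl has v) j = if h : (j : ℕ) < b then M v.1 ⟨j, h⟩ else false)
    (hF : ∀ (v : Fin a × Fin s) (j : Fin N), (j : ℕ) < b → F (cl has v) j = false)
    (X : Finset (Fin a × Fin s)) :
    nb (fun i j => E i j || F i j) (X.map (cl has)) =
      ((univ.filter fun j => ∃ u ∈ prA X, M u j = true).map (Fin.castLEEmb hb)) ∪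
      ((univ.filter fun w => ∃ v ∈ X, res has hb F v w = true).map (pd hb)) := by
  ext j
  simp only [mem_nb, mem_union, mem_map, mem_filter, mem_univ, true_and, prA, mem_image]
  constructor
  · rintro ⟨i, ⟨v, hv, rfl⟩, hj⟩
    by_cases hjb : (j : ℕ) < b
    · left
      rw [hF v j hjb, Bool.or_false, hE1 v j, dif_pos hjb] at hj
      exact ⟨⟨j, hjb⟩, ⟨v.1, ⟨v, hv, rfl⟩, hj⟩, Fin.ext rfl⟩
    · right
      rw [hE1 v j, dif_neg hjb, Bool.false_or] at hj
      have hjN := j.2
      refine ⟨⟨(j : ℕ) - b, by omega⟩, ⟨v, hv, ?_⟩, Fin.ext ?_⟩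
      · unfold res
        have e : pd hb ⟨(j : ℕ) - b, by omega⟩ = j := Fin.ext (by
          show b + ((j : ℕ) - b) = j
          omega)
        rw [e]
        exact hj
      · show b + ((j : ℕ) - b) = j
        omega
  · rintro (⟨j', ⟨u, ⟨v, hv, rfl⟩, hM⟩, rfl⟩ | ⟨w, ⟨v, hv, hw⟩, rfl⟩)
    · refine ⟨cl has v, ⟨v, hv, rfl⟩, ?_⟩
      have hlt : ((Fin.castLEEmb hb j' : Fin N) : ℕ) < b := j'.2
      rw [hE1 v, dif_pos hlt]
      have e : (⟨((Fin.castLEEmb hb j' : Fin N) : ℕ), hlt⟩ : Fin b) = j' := Fin.ext rfl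
      rw [e, hM, Bool.true_or]
    · refine ⟨cl has v, ⟨v, hv, rfl⟩, ?_⟩
      unfold res at hw
      rw [hw, Bool.or_true]

theorem card_nb_join (has : a * s ≤ N) (hb : b ≤ N) (M : Fin a → Fin b → Bool)
    (E F : Fin N → Fin N → Bool)
    (hE1 : ∀ (v : Fin a × Fin s) (j : Fin N),
      E (cl has v) j = if h : (j : ℕ) < b then M v.1 ⟨j, h⟩ else false)
    (hF : ∀ (v : Fin a × Fin s) (j : Fin N), (j : ℕ) < b → F (cl has v) j = false)
    (X : Finset (Fin a × Fin s)) :
    (nb (fun i j => E i j || F i j) (X.map (cl has)))ᶜ.card + nbA M (prA X) +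
      dgs (res has hb F) X = N := by
  have h1 : (nb (fun i j => E i j || F i j) (X.map (cl has))).card =
      nbA M (prA X) + dgs (res has hb F) X := by
    rw [nb_join has hb M E F hE1 hF X, card_union_of_disjoint, card_map, card_map]
    · rfl
    · rw [disjoint_left]
      intro j h2 h3
      simp only [mem_map] at h2 h3
      obtain ⟨j', -, rfl⟩ := h2
      obtain ⟨w, -, hw⟩ := h3
      have h4 : b + (w : ℕ) = j' := congrArg (fun z : Fin N => (z : ℕ)) hw
      have h5 := j'.2
      omega
  have h2 := card_compl (nb (fun i j => E i j || F i j) (X.map (cl has)))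
  rw [Fintype.card_fin] at h2
  have h3 : (nb (fun i j => E i j || F i j) (X.map (cl has))).card ≤ N := by
    have := card_le_univ (nb (fun i j => E i j || F i j) (X.map (cl has)))
    rwa [Fintype.card_fin] at this
  omega

theorem exists_cl {s : ℕ} (has : a * s ≤ N) (i : Fin N) (hi : (i : ℕ) < a * s) :
    ∃ v, cl has v = i := by
  have hs : 0 < s := by
    rcases Nat.eq_zero_or_pos s with rfl | h
    · simp at hi
    · exact h
  have h1 : (i : ℕ) / s < a := by
    rw [Nat.div_lt_iff_lt_mul hs]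
    exact hi
  refine ⟨(⟨(i : ℕ) / s, h1⟩, ⟨(i : ℕ) % s, Nat.mod_lt _ hs⟩), Fin.ext ?_⟩
  show (i : ℕ) / s * s + (i : ℕ) % s = i
  exact Nat.div_add_mod' _ _

end HCountAux

open HCountAux

theorem count_join {N a s b : ℕ} (has : a * s ≤ N) (hb : b ≤ N) (M : Fin a → Fin b → Bool)
    (E F : Fin N → Fin N → Bool)
    (hE1 : ∀ (v : Fin a × Fin s) (j : Fin N),
      E (cl has v) j = if h : (j : ℕ) < b then M v.1 ⟨j, h⟩ else false)
    (hE2 : ∀ i j : Fin N, a * s ≤ i → E i j = true)
    (hF : ∀ (v : Fin a × Fin s) (j : Fin N), (j : ℕ) < b → F (cl has v) j = false) :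
    (numIndep (join E F).graph : ℝ) / 2 ^ N =
      Yp M (res has hb F) + 1 - 2 ^ (a * s) / 2 ^ N := by
  classical
  have h0 : (numIndep (join E F).graph : ℕ) =
      ∑ S : Finset (Fin N), 2 ^ ((nb (fun i j => E i j || F i j) S)ᶜ).card := by
    rw [← card_Ind_eq (join E F)]
    have h1 := sum_fam (fun i j => E i j || F i j) (univ : Finset (Finset (Fin N)))
    rw [h1]
    refine congrArg _ ?_
    rw [filter_true_of_mem (fun P _ => mem_univ _)]
    rfl
  set C : Finset (Fin N) := univ.map (cl has) with hC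
  have hCc : C.card = a * s := by
    rw [hC, card_map, card_univ, Fintype.card_prod, Fintype.card_fin, Fintype.card_fin]
  have hsplit : ∑ S : Finset (Fin N), 2 ^ ((nb (fun i j => E i j || F i j) S)ᶜ).card =
      ∑ S ∈ C.powerset, 2 ^ ((nb (fun i j => E i j || F i j) S)ᶜ).card +
        ∑ S ∈ (C.powerset)ᶜ, 2 ^ ((nb (fun i j => E i j || F i j) S)ᶜ).card :=
    (sum_add_sum_compl C.powerset _).symm
  have hout : ∑ S ∈ (C.powerset)ᶜ, 2 ^ ((nb (fun i j => E i j || F i j) S)ᶜ).card =
      2 ^ N - 2 ^ (a * s) := by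
    have h1 : ∀ S ∈ (C.powerset)ᶜ, 2 ^ ((nb (fun i j => E i j || F i j) S)ᶜ).card = 1 := by
      intro S hS
      rw [mem_compl, mem_powerset, not_subset] at hS
      obtain ⟨i, hi, hiC⟩ := hS
      have hia : a * s ≤ i := by
        by_contra hcon
        obtain ⟨v, hv⟩ := exists_cl has i (not_le.1 hcon)
        exact hiC (by rw [hC, mem_map]; exact ⟨v, mem_univ _, hv⟩)
      have h2 : nb (fun i j => E i j || F i j) S = univ := by
        rw [eq_univ_iff_forall]
        intro j
        rw [mem_nb]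
        exact ⟨i, hi, by rw [hE2 i j hia, Bool.true_or]⟩
      rw [h2, compl_univ, card_empty, pow_zero]
    rw [sum_congr rfl h1, sum_const, smul_eq_mul, mul_one, card_compl, card_powerset, hCc,
      Fintype.card_finset, Fintype.card_fin]
  have hin : ∑ S ∈ C.powerset, 2 ^ ((nb (fun i j => E i j || F i j) S)ᶜ).card =
      ∑ X : Finset (Fin a × Fin s),
        2 ^ ((nb (fun i j => E i j || F i j) (X.map (cl has)))ᶜ).card := by
    symm
    refine sum_bij (fun X _ => X.map (cl has)) ?_ ?_ ?_ (fun _ _ => rfl)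
    · intro X _
      rw [mem_powerset, hC]
      exact map_subset_map.2 (subset_univ X)
    · intro X _ X' _ h
      exact map_injective _ h
    · intro S hS
      rw [mem_powerset] at hS
      refine ⟨univ.filter fun v => cl has v ∈ S, mem_univ _, ?_⟩
      ext i
      simp only [mem_map, mem_filter, mem_univ, true_and]
      constructor
      · rintro ⟨v, hv, rfl⟩
        exact hv
      · intro hi
        have := hS hi
        rw [hC, mem_map] at this
        obtain ⟨v, -, rfl⟩ := this
        exact ⟨v, hi, rfl⟩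
  have hle : 2 ^ (a * s) ≤ 2 ^ N := Nat.pow_le_pow_right (by norm_num) has
  rw [h0, hsplit, hout, hin]
  push_cast [Nat.cast_sub hle]
  have h2N : (0 : ℝ) < 2 ^ N := by positivity
  have hY : (∑ X : Finset (Fin a × Fin s),
      (2 : ℝ) ^ ((nb (fun i j => E i j || F i j) (X.map (cl has)))ᶜ).card) / 2 ^ N =
        Yp M (res has hb F) := by
    unfold Yp
    rw [sum_div]
    refine sum_congr rfl fun X _ => ?_
    have h3 := card_nb_join has hb M E F hE1 hF X
    have e2 : (2 : ℝ) ^ N = 2 ^ ((nb (fun i j => E i j || F i j) (X.map (cl has)))ᶜ).card *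
        2 ^ nbA M (prA X) * 2 ^ dgs (res has hb F) X := by
      rw [← pow_add, ← pow_add, h3]
    rw [div_eq_iff h2N.ne', e2]
    have h4 : ((1 : ℝ) / 2) ^ dgs (res has hb F) X * 2 ^ dgs (res has hb F) X = 1 := by
      rw [← mul_pow]
      norm_num
    have h5 : ((1 : ℝ) / 2) ^ nbA M (prA X) * 2 ^ nbA M (prA X) = 1 := by
      rw [← mul_pow]
      norm_num
    generalize (2 : ℝ) ^ ((nb (fun i j => E i j || F i j) (X.map (cl has)))ᶜ).card = z
    generalize ((1 : ℝ) / 2) ^ dgs (res has hb F) X = p1 at h4 ⊢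
    generalize (2 : ℝ) ^ dgs (res has hb F) X = p2 at h4 ⊢
    generalize ((1 : ℝ) / 2) ^ nbA M (prA X) = q1 at h5 ⊢
    generalize (2 : ℝ) ^ nbA M (prA X) = q2 at h5 ⊢
    linear_combination (-z * q1 * q2) * h4 - z * h5
  rw [add_div, hY, sub_div, div_self h2N.ne']
  ring

end Pool.Agent.Lib.Pa7c826n
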