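import Pool.Agent.Lib.Pa7c826n.MedV

/-!
Three independent runs: counting the random strings.

Proof. Strings of length `3 m` correspond to triples of strings of length `m`
(`Fin.appendEquiv`, as in `card_prefix` of Lib/Pa7c826/Transfer.lean; `finCongr` for
`3 * m = m + (m + m)`). With `M = 2 ^ m` and `x` the number of strings of length `m` satisfying `Q`
(`x ≤ M`, `7 M ≤ 10 x`), the number of triples at least two members of which satisfy `Q` is
`x ^ 3 + 3 x ^ 2 (M - x) = 3 x ^ 2 M - 2 x ^ 3`, which is nondecreasing in `x` on `[0, M]` and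
equals `0.784 M ^ 3 ≥ 3 / 4 M ^ 3` for `x = 7 M / 10`.
-/

namespace Pool.Agent.Lib.Pa7c826n

namespace MedCAux

/-- at least two of three members satisfy `P`: a lower bound for the number of triples -/
theorem count_triples {α : Type} [Finite α] (P : α → Prop) {x y : ℕ}
    (hx : Nat.card {a // P a} = x) (hy : Nat.card {a // ¬ P a} = y) (hM : Nat.card α = x + y) :
    x * (x * (x + y)) + (x * (y * x) + y * (x * x)) ≤
      Nat.card {p : α × α × α // Two (P p.1) (P p.2.1) (P p.2.2)} := by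
  have h : Nat.card (({a // P a} × {a // P a} × α) ⊕
      (({a // P a} × {a // ¬ P a} × {a // P a}) ⊕ ({a // ¬ P a} × {a // P a} × {a // P a}))) =
      x * (x * (x + y)) + (x * (y * x) + y * (x * x)) := by
    rw [Nat.card_sum, Nat.card_sum, Nat.card_prod, Nat.card_prod, Nat.card_prod, Nat.card_prod,
      Nat.card_prod, Nat.card_prod, hx, hy, hM]
  rw [← h]
  let F : (({a // P a} × {a // P a} × α) ⊕
      (({a // P a} × {a // ¬ P a} × {a // P a}) ⊕ ({a // ¬ P a} × {a // P a} × {a // P a}))) →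
      {p : α × α × α // Two (P p.1) (P p.2.1) (P p.2.2)} := fun s => match s with
    | Sum.inl p => ⟨(p.1.1, p.2.1.1, p.2.2), Or.inl ⟨p.1.2, p.2.1.2⟩⟩
    | Sum.inr (Sum.inl p) => ⟨(p.1.1, p.2.1.1, p.2.2.1), Or.inr (Or.inl ⟨p.1.2, p.2.2.2⟩)⟩
    | Sum.inr (Sum.inr p) => ⟨(p.1.1, p.2.1.1, p.2.2.1), Or.inr (Or.inr ⟨p.2.1.2, p.2.2.2⟩)⟩
  refine Nat.card_le_card_of_injective F ?_
  rintro (⟨⟨a, ha⟩, ⟨b, hb⟩, c⟩ | ⟨⟨a, ha⟩, ⟨b, hb⟩, ⟨c, hc⟩⟩ | ⟨⟨a, ha⟩, ⟨b, hb⟩, ⟨c, hc⟩⟩)
    (⟨⟨a', ha'⟩, ⟨b', hb'⟩, c'⟩ | ⟨⟨a', ha'⟩, ⟨b', hb'⟩, ⟨c', hc'⟩⟩ |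
      ⟨⟨a', ha'⟩, ⟨b', hb'⟩, ⟨c', hc'⟩⟩) hh <;>
  · have h0 := congrArg Subtype.val hh
    simp only [F, Prod.mk.injEq] at h0
    obtain ⟨h1, h2, h3⟩ := h0
    subst h1 h2 h3
    first
      | rfl
      | exact absurd hb hb'
      | exact absurd hb' hb
      | exact absurd ha ha'
      | exact absurd ha' ha

/-- strings of length `m + (m + m)` are triples of strings of length `m` -/
theorem card_three (m k : ℕ) (hk : k = m + (m + m)) (R : List Bool → List Bool → List Bool → Prop) :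
    Nat.card {r : Fin k → Bool //
      R ((List.ofFn r).take m) (((List.ofFn r).drop m).take m) ((List.ofFn r).drop (2 * m))} =
    Nat.card {p : (Fin m → Bool) × (Fin m → Bool) × (Fin m → Bool) //
      R (List.ofFn p.1) (List.ofFn p.2.1) (List.ofFn p.2.2)} := by
  subst hk
  refine Nat.card_congr (Equiv.subtypeEquiv
    (((Equiv.refl (Fin m → Bool)).prodCongr (Fin.appendEquiv m m)).trans
      (Fin.appendEquiv m (m + m))) ?_).symm
  rintro ⟨u, v, w⟩
  simp only [Equiv.trans_apply, Equiv.prodCongr_apply, Prod.map, Equiv.refl_apply,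
    Fin.appendEquiv, Equiv.coe_fn_mk]
  rw [List.ofFn_fin_append, List.ofFn_fin_append, List.take_left' (by simp),
    List.drop_left' (by simp), List.take_left' (by simp), two_mul, ← List.drop_drop,
    List.drop_left' (by simp), List.drop_left' (by simp)]

/-- the inequality between the numbers -/
theorem arith {x y : ℕ} (h : 7 * (x + y) ≤ 10 * x) :
    3 * ((x + y) * ((x + y) * (x + y))) ≤
      4 * (x * (x * (x + y)) + (x * (y * x) + y * (x * x))) := by
  have h1 : 7 * y ≤ 3 * x := by omega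
  have h2 : 7 * y * (x * y) ≤ 3 * x * (x * y) := Nat.mul_le_mul_right _ h1
  have h3 : 7 * y * (y * y) ≤ 3 * x * (y * y) := Nat.mul_le_mul_right _ h1
  have h4 : 7 * y * (x * x) ≤ 3 * x * (x * x) := Nat.mul_le_mul_right _ h1
  nlinarith [h2, h3, h4, Nat.zero_le (x * x * x), Nat.zero_le (x * x * y)]

end MedCAux

open MedCAux in
theorem count3 (m : ℕ) (Q : List Bool → Prop)
    (h : 7 * 2 ^ m ≤ 10 * Nat.card {r : Fin m → Bool // Q (List.ofFn r)}) :
    3 * 2 ^ (3 * m) ≤ 4 * Nat.card {r : Fin (3 * m) → Bool //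
      Two (Q ((List.ofFn r).take m)) (Q (((List.ofFn r).drop m).take m))
        (Q ((List.ofFn r).drop (2 * m)))} := by
  classical
  rw [card_three m (3 * m) (by ring) (fun a b c => Two (Q a) (Q b) (Q c))]
  have hM : Nat.card (Fin m → Bool) = 2 ^ m := by simp
  have hsum : Nat.card (Fin m → Bool) = Nat.card {r : Fin m → Bool // Q (List.ofFn r)} +
      Nat.card {r : Fin m → Bool // ¬ Q (List.ofFn r)} := by
    rw [← Nat.card_sum]
    exact Nat.card_congr (Equiv.sumCompl fun r : Fin m → Bool => Q (List.ofFn r)).symm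
  have h1 := count_triples (fun r : Fin m → Bool => Q (List.ofFn r)) rfl rfl hsum
  rw [hM] at hsum
  rw [hsum] at h
  have h2 := arith h
  have h3 : 2 ^ (3 * m) = (2 ^ m) * ((2 ^ m) * (2 ^ m)) := by
    rw [← pow_add, ← pow_add]
    congr 1
    ring
  rw [h3, hsum]
  exact h2.trans (Nat.mul_le_mul_left _ h1)

end Pool.Agent.Lib.Pa7c826n
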