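import Pool.Agent.Lib.Pa7c826n.MedC

/-!
From success probability `7 / 10` to `3 / 4`.

Proof. Given `m, f` put `m' = 3 * m` (so that `m'.eval n = 3 * m.eval n`) and
`f' G t r = med3 (f G t (r.take M)) (f G t ((r.drop M).take M)) (f G t (r.drop (2 M)))`,
`M = m.eval (inCode G t).length`. The machine: as in `HasFPRAS.transfer` (Lib
Pa7c826/Transfer.lean): from `enc x = inCode G t ++ r` compute the length of the code
(`lenOf_append`), the code, `M` (`PolyN.polyEval`), the three pieces of `r`, apply the given
machine three times (`PolyC.applyTM2`) and `poly_med3`. The count: `count3` with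
`Q s = Good G t (f G t s)` and `med3_good` (`Nat.card_le_card_of_injective` or `Nat.card_mono`).
-/

namespace Pool.Agent.Lib.Pa7c826n

open Pool.Agent.Lib.Pa7c826

open Pool.Agent.Lib.PolyTime in
theorem hasFPRAS_of_weak (h : WeakFPRAS) : HasFPRAS (fun _ => True) := by
  obtain ⟨m, f, hf, hgood⟩ := h
  let M : BGraph → ℕ → ℕ := fun G t => m.eval (inCode G t).length
  have h3m : ∀ n : ℕ, (Polynomial.C 3 * m).eval n = 3 * m.eval n := by
    intro n
    rw [Polynomial.eval_mul, Polynomial.eval_C]
  let f' : BGraph → ℕ → List Bool → List Bool := fun G t r =>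
    med3 (f G t (r.take (M G t))) (f G t ((r.drop (M G t)).take (M G t)))
      (f G t (r.drop (2 * M G t)))
  refine ⟨Polynomial.C 3 * m, f', ?_, ?_⟩
  · -- the machine
    let D : BGraph × ℕ × List Bool → Prop := fun x =>
      True ∧ 1 ≤ x.2.1 ∧ x.2.2.length = (Polynomial.C 3 * m).eval (inCode x.1 x.2.1).length
    let enc : BGraph × ℕ × List Bool → List Bool := fun x => inCode x.1 x.2.1 ++ x.2.2
    have hw : PolyC D [enc] enc := PolyC.var (by simp)
    have hlen : PolyN D [enc] (fun x => (inCode x.1 x.2.1).length) :=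
      (((poly_tOf hw).add ((poly_aOf hw).add ((poly_bOf hw).add
        ((poly_aOf hw).mul (poly_bOf hw))))).add (PolyN.const 3)).congr (fun x _ =>
          lenOf_append x.1 x.2.1 x.2.2)
    have hpre : PolyC D [enc] (fun x => inCode x.1 x.2.1) :=
      (PolyC.take hw hlen).congr (fun x _ => List.take_left)
    have hsuf : PolyC D [enc] (fun x => x.2.2) :=
      (PolyC.drop hw hlen).congr (fun x _ => List.drop_left)
    have hM : PolyN D [enc] (fun x => M x.1 x.2.1) := PolyN.polyEval hlen m
    have hM2 : PolyN D [enc] (fun x => 2 * M x.1 x.2.1) := (PolyN.const 2).mul hM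
    have hlen3 : ∀ x, D x → x.2.2.length = 3 * M x.1 x.2.1 := by
      rintro x ⟨_, _, hx⟩
      rw [hx, h3m]
    have call : ∀ (p : BGraph × ℕ × List Bool → List Bool), PolyC D [enc] p →
        (∀ x, D x → (p x).length = M x.1 x.2.1) →
        PolyC D [enc] (fun x => f x.1 x.2.1 (p x)) := by
      intro p hp hpl
      have hin : PolyC D [enc] (fun x => inCode x.1 x.2.1 ++ p x) := hpre.append hp
      refine PolyC.applyTM2 hf _ _ hin ?_
      rintro ⟨G, t, r⟩ hD
      exact ⟨⟨(G, t, p (G, t, r)), hD.2.1, hpl _ hD⟩, rfl, rfl⟩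
    have h1 := call (fun x => x.2.2.take (M x.1 x.2.1)) (PolyC.take hsuf hM) (by
      intro x hx
      show (x.2.2.take (M x.1 x.2.1)).length = _
      rw [List.length_take, hlen3 x hx]
      omega)
    have h2 := call (fun x => (x.2.2.drop (M x.1 x.2.1)).take (M x.1 x.2.1))
      (PolyC.take (PolyC.drop hsuf hM) hM) (by
      intro x hx
      show ((x.2.2.drop (M x.1 x.2.1)).take (M x.1 x.2.1)).length = _
      rw [List.length_take, List.length_drop, hlen3 x hx]
      omega)
    have h3 := call (fun x => x.2.2.drop (2 * M x.1 x.2.1)) (PolyC.drop hsuf hM2) (by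
      intro x hx
      show (x.2.2.drop (2 * M x.1 x.2.1)).length = _
      rw [List.length_drop, hlen3 x hx]
      omega)
    have hout : PolyC D [enc] (fun x => f' x.1 x.2.1 x.2.2) := poly_med3 h1 h2 h3
    exact PolyC.toTM2 enc (fun x => f' x.1 x.2.1 x.2.2) id hout
  · intro G t _ ht
    have hc := count3 (M G t) (fun s => Good G t (f G t s)) (hgood G t ht)
    rw [h3m]
    refine hc.trans (Nat.mul_le_mul_left _ ?_)
    refine Nat.card_le_card_of_injective (fun r => ⟨r.1, med3_good r.2⟩) ?_
    intro r r' hrr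
    simp only [Subtype.mk.injEq] at hrr
    exact Subtype.ext hrr

end Pool.Agent.Lib.Pa7c826n
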