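import Pool.Agent.Lib.Pa7c826n.Base

/-!
The median of the values of three outputs.

`outVal_eq`: induction on `o` (`binVal_eq_bval` in Lib/Pa7c826/Fptas.lean; for a string of ones
both sides are `0`). `leV_iff`: multiply by `2 ^ (exo x + exo y)` (`bval_append`,
`bval_replicate_false`). `med3_good`: `Good G t o` says that `outVal o` lies in a fixed interval; by
`leV_iff` the value of `med3 x y z` lies between the values of any two of the three outputs.
`poly_med3`: `bin_le` (Lib/P8e91ed/PolyBin.lean) for the numbers `bval (…)` (`PolyBin` with the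
strings themselves), `PolyC.replicateFalse`, `PolyC.afterTrue`, `PolyC.takeTrue` (see `poly_tOf`),
`PolyC.ite`.
-/

namespace Pool.Agent.Lib.Pa7c826n

open Pool.Agent.Lib.Pa7c826 Pool.Agent.Lib.Pa7c826y
open Pool.Agent.Lib.PolyTime

/-- at least two of three statements hold -/
def Two (A B C : Prop) : Prop := (A ∧ B) ∨ (A ∧ C) ∨ (B ∧ C)

theorem outVal_eq (o : List Bool) :
    outVal o = (bval (PolyTime.afterTrue o) : ℚ) / 2 ^ exo o :=
  afterTrue_outVal o

theorem leV_iff (x y : List Bool) : leV x y = true ↔ outVal x ≤ outVal y := by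
  rw [outVal_eq, outVal_eq, div_le_div_iff₀ (by positivity) (by positivity)]
  unfold leV
  rw [decide_eq_true_iff, bval_append, bval_append, bval_replicate_false, bval_replicate_false,
    List.length_replicate, List.length_replicate, zero_add, zero_add]
  constructor
  · intro h
    have h1 : ((2 ^ exo y * bval (PolyTime.afterTrue x) : ℕ) : ℚ) ≤
        ((2 ^ exo x * bval (PolyTime.afterTrue y) : ℕ) : ℚ) := by exact_mod_cast h
    push_cast at h1
    rw [mul_comm, mul_comm (bval (PolyTime.afterTrue y) : ℚ)]
    exact h1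
  · intro h
    rw [mul_comm, mul_comm (bval (PolyTime.afterTrue y) : ℚ)] at h
    exact_mod_cast h

theorem med3_good {G : BGraph} {t : ℕ} {x y z : List Bool}
    (h : Two (Good G t x) (Good G t y) (Good G t z)) : Good G t (med3 x y z) := by
  have key : ∀ o : List Bool, Good G t o ↔
      ((numIndep G.graph : ℚ) - (numIndep G.graph : ℚ) / t ≤ outVal o ∧
        outVal o ≤ (numIndep G.graph : ℚ) + (numIndep G.graph : ℚ) / t) := by
    intro o
    unfold Good
    rw [abs_le]
    constructor
    · rintro ⟨h1, h2⟩
      constructor <;> linarith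
    · rintro ⟨h1, h2⟩
      constructor <;> linarith
  rw [key]
  unfold Two at h
  rw [key, key, key] at h
  unfold med3
  by_cases h1 : leV x y = true
  · rw [if_pos h1]
    rw [leV_iff] at h1
    by_cases h2 : leV y z = true
    · rw [if_pos h2]
      rw [leV_iff] at h2
      rcases h with ⟨h3, h4⟩ | ⟨h3, h4⟩ | ⟨h3, h4⟩
      · exact h4
      · exact ⟨h3.1.trans h1, h2.trans h4.2⟩
      · exact h3
    · rw [if_neg h2]
      rw [leV_iff, not_le] at h2
      by_cases h5 : leV x z = true
      · rw [if_pos h5]
        rw [leV_iff] at h5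
        rcases h with ⟨h3, h4⟩ | ⟨h3, h4⟩ | ⟨h3, h4⟩
        · exact ⟨h3.1.trans h5, h2.le.trans h4.2⟩
        · exact h4
        · exact h4
      · rw [if_neg h5]
        rw [leV_iff, not_le] at h5
        rcases h with ⟨h3, h4⟩ | ⟨h3, h4⟩ | ⟨h3, h4⟩
        · exact h3
        · exact h3
        · exact ⟨h4.1.trans h5.le, h1.trans h3.2⟩
  · rw [if_neg h1]
    rw [leV_iff, not_le] at h1
    by_cases h5 : leV x z = true
    · rw [if_pos h5]
      rw [leV_iff] at h5
      rcases h with ⟨h3, h4⟩ | ⟨h3, h4⟩ | ⟨h3, h4⟩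
      · exact h3
      · exact h3
      · exact ⟨h3.1.trans h1.le, h5.trans h4.2⟩
    · rw [if_neg h5]
      rw [leV_iff, not_le] at h5
      by_cases h2 : leV y z = true
      · rw [if_pos h2]
        rw [leV_iff] at h2
        rcases h with ⟨h3, h4⟩ | ⟨h3, h4⟩ | ⟨h3, h4⟩
        · exact ⟨h4.1.trans h2, h5.le.trans h3.2⟩
        · exact h4
        · exact h4
      · rw [if_neg h2]
        rw [leV_iff, not_le] at h2
        rcases h with ⟨h3, h4⟩ | ⟨h3, h4⟩ | ⟨h3, h4⟩
        · exact h4
        · exact ⟨h4.1.trans h2.le, h1.le.trans h3.2⟩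
        · exact h3

theorem poly_med3 {α : Type} {D : α → Prop} {ctx : List (α → List Bool)}
    {x y z : α → List Bool} (hx : PolyC D ctx x) (hy : PolyC D ctx y) (hz : PolyC D ctx z) :
    PolyC D ctx (fun a => med3 (x a) (y a) (z a)) := by
  have hle : ∀ {u v : α → List Bool}, PolyC D ctx u → PolyC D ctx v →
      PolyB D ctx (fun a => leV (u a) (v a)) := by
    intro u v hu hv
    have hnu : PolyN D ctx (fun a => exo (u a)) := PolyN.length hu.takeTrue
    have hnv : PolyN D ctx (fun a => exo (v a)) := PolyN.length hv.takeTrue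
    have h1 : PolyBin D ctx
        (fun a => bval (List.replicate (exo (v a)) false ++ PolyTime.afterTrue (u a))) :=
      ⟨_, (PolyC.replicateFalse hnv).append hu.afterTrue, fun a _ => rfl⟩
    have h2 : PolyBin D ctx
        (fun a => bval (List.replicate (exo (u a)) false ++ PolyTime.afterTrue (v a))) :=
      ⟨_, (PolyC.replicateFalse hnu).append hv.afterTrue, fun a _ => rfl⟩
    exact P8e91ed.PT.bin_le h1 h2
  have hm : ∀ {ψ : α → Prop} {t : α → List Bool}, PolyC D ctx t →
      PolyC (fun a => D a ∧ ψ a) ctx t := fun h => h.mono fun _ h' => h'.1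
  have h1 := hle hx hy
  have h2 := hle hy hz
  have h3 := hle hx hz
  have e1 : PolyC D ctx (fun a => if leV (x a) (z a) = true then z a else x a) :=
    PolyC.ite h3 (hm hz) (hm hx)
  have e2 : PolyC D ctx (fun a => if leV (y a) (z a) = true then y a else
      (if leV (x a) (z a) = true then z a else x a)) :=
    PolyC.ite h2 (hm hy) (hm e1)
  have e3 : PolyC D ctx (fun a => if leV (y a) (z a) = true then z a else y a) :=
    PolyC.ite h2 (hm hz) (hm hy)
  have e4 : PolyC D ctx (fun a => if leV (x a) (z a) = true then x a else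
      (if leV (y a) (z a) = true then z a else y a)) :=
    PolyC.ite h3 (hm hx) (hm e3)
  exact PolyC.ite h1 (hm e2) (hm e4)

end Pool.Agent.Lib.Pa7c826n
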