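import Pool.Agent.Lib.Pa7c826n.LnN

/-!
The weights of the clones.

Write `L = Lx e l`, `J = Jx u l` (so `J ≤ L`), `N = 2 ^ L`, `n = N - b`, `p = px e u l
= 2 J lnN L / 4 ^ L`, `y = lnN L / 2 ^ L`, so `log 2 - (L + 1) / 2 ^ L ≤ y ≤ log 2` (`lnN_le`,
`lnN_ge`) and `n p / 2 = J y (1 - b / N)`. Hence `J log 2 - J (L + 1 + b) / 2 ^ L ≤ n p / 2 ≤
J log 2`.
`beta_le`: `(1 - p / 2) ^ n ≤ exp (- n p / 2) ≤ (1 / 2) ^ J * exp (J (L + 1 + b) / 2 ^ L)`.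
`beta_ge`: `1 - x ≥ exp (- x - x ^ 2)` for `0 ≤ x ≤ 1 / 2`, with `x = p / 2 ≤ J / 2 ^ L`
(`px_le`); `n x ^ 2 ≤ J ^ 2 / 2 ^ L`; so `(1 - p / 2) ^ n ≥ (1 / 2) ^ J * exp (- J ^ 2 / 2 ^ L)`.
Both errors are at most `1 / 2 ^ l` by `hC`.
`gamma_le`: `(1 - 3 p / 4) ^ n ≤ exp (- (3 / 2) (n p / 2)) ≤ (1 / 2) ^ (3 u l) *
exp (3 / 2 * (1 / 2 ^ l))`, as `(3 / 2) J = 3 u l`; and `exp (3 / 2 * (1 / 2 ^ l)) ≤ exp (3 / 8)
≤ 2` for `l ≥ 2`.
-/

namespace Pool.Agent.Lib.Pa7c826n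

set_option linter.unusedVariables false

namespace NumAAux

theorem one_sub_ge {x : ℝ} (h0 : 0 ≤ x) (h1 : x ≤ 1 / 2) :
    Real.exp (-(x + x ^ 2)) ≤ 1 - x := by
  have hz : 0 ≤ x + x ^ 2 := by positivity
  have h2 := Real.quadratic_le_exp_of_nonneg hz
  have h3 : 1 ≤ (1 - x) * Real.exp (x + x ^ 2) := by
    have h4 : (1 - x) * (1 + (x + x ^ 2) + (x + x ^ 2) ^ 2 / 2) ≤
        (1 - x) * Real.exp (x + x ^ 2) := mul_le_mul_of_nonneg_left h2 (by linarith)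
    have h5 : (1 - x) * (1 + (x + x ^ 2) + (x + x ^ 2) ^ 2 / 2) =
        1 + x ^ 2 * (1 - x - x ^ 2 - x ^ 3) / 2 := by ring
    have h6 : 0 ≤ 1 - x - x ^ 2 - x ^ 3 := by
      have : x ^ 2 ≤ 1 / 4 := by nlinarith
      have : x ^ 3 ≤ 1 / 8 := by
        calc x ^ 3 ≤ (1 / 2) ^ 3 := pow_le_pow_left₀ h0 h1 3
          _ = 1 / 8 := by norm_num
      linarith
    have h7 : 0 ≤ x ^ 2 * (1 - x - x ^ 2 - x ^ 3) := by positivity
    linarith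
  rw [Real.exp_neg, inv_le_iff_one_le_mul₀ (Real.exp_pos _)]
  exact h3

/-- `px / 2 = J y / 2 ^ L` -/
theorem px_half (e u l : ℕ) : px e u l / 2 =
    (Jx u l : ℝ) * ((lnN (Lx e l) : ℝ) / 2 ^ Lx e l) / 2 ^ Lx e l := by
  unfold px Xx
  rw [two_mul (Lx e l), pow_add]
  push_cast
  have : (2 : ℝ) ^ Lx e l ≠ 0 := by positivity
  field_simp

theorem y_le (k : ℕ) : (lnN k : ℝ) / 2 ^ k ≤ Real.log 2 := by
  rw [div_le_iff₀ (by positivity)]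
  have := lnN_le k
  linarith

theorem y_ge (k : ℕ) : Real.log 2 - (k + 1) / 2 ^ k ≤ (lnN k : ℝ) / 2 ^ k := by
  rw [le_div_iff₀ (by positivity), sub_mul, div_mul_cancel₀ _ (by positivity)]
  have := lnN_ge k
  linarith

theorem y_nonneg (k : ℕ) : 0 ≤ (lnN k : ℝ) / 2 ^ k := by positivity

theorem err_le {l L J b : ℕ} (hC : J * (L + 1 + b + J) * 2 ^ l ≤ 2 ^ L) :
    (J : ℝ) * (L + 1 + b + J) / 2 ^ L ≤ 1 / 2 ^ l := by
  rw [div_le_div_iff₀ (by positivity) (by positivity), one_mul]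
  exact_mod_cast hC

theorem cast_n {L b : ℕ} (hb : b ≤ 2 ^ L) : ((2 ^ L - b : ℕ) : ℝ) = 2 ^ L - b := by
  rw [Nat.cast_sub hb]
  push_cast
  ring

/-- lower bound for `n p / 2` -/
theorem np_ge {e u l b : ℕ} (hC : Jx u l * (Lx e l + 1 + b + Jx u l) * 2 ^ l ≤ 2 ^ Lx e l)
    (hb : b ≤ 2 ^ Lx e l) :
    (Jx u l : ℝ) * Real.log 2 - 1 / 2 ^ l ≤ ((2 ^ Lx e l - b : ℕ) : ℝ) * (px e u l / 2) := by
  have herr := err_le hC
  rw [cast_n hb, px_half]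
  set J : ℝ := (Jx u l : ℝ) with hJ
  set y : ℝ := (lnN (Lx e l) : ℝ) / 2 ^ Lx e l with hy
  set N : ℝ := (2 : ℝ) ^ Lx e l with hN
  have hJ0 : 0 ≤ J := by positivity
  have hN0 : 0 < N := by positivity
  have h1 : Real.log 2 - ((Lx e l : ℝ) + 1) / N ≤ y := y_ge (Lx e l)
  have h2 : y ≤ 1 := by
    have := y_le (Lx e l)
    have h3 := Real.log_two_lt_d9
    linarith
  have hb0 : (0 : ℝ) ≤ b := by positivity
  have h4 : (N - b) * (J * y / N) = J * (y - y * (b / N)) := by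
    field_simp
  have h5 : y * ((b : ℝ) / N) ≤ (b : ℝ) / N := mul_le_of_le_one_left (by positivity) h2
  have h6 : Real.log 2 - ((Lx e l : ℝ) + 1) / N - (b : ℝ) / N ≤ y - y * (b / N) := by linarith
  have h7 := mul_le_mul_of_nonneg_left h6 hJ0
  have h8 : J * (Real.log 2 - ((Lx e l : ℝ) + 1) / N - (b : ℝ) / N) =
      J * Real.log 2 - J * ((Lx e l : ℝ) + 1 + b + J) / N + J ^ 2 / N := by
    field_simp
    ring
  have h9 : 0 ≤ J ^ 2 / N := by positivity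
  rw [h4]
  linarith

/-- upper bound for `n p / 2` -/
theorem np_le {e u l b : ℕ} (hb : b ≤ 2 ^ Lx e l) :
    ((2 ^ Lx e l - b : ℕ) : ℝ) * (px e u l / 2) ≤ (Jx u l : ℝ) * Real.log 2 := by
  rw [cast_n hb, px_half]
  set J : ℝ := (Jx u l : ℝ) with hJ
  set y : ℝ := (lnN (Lx e l) : ℝ) / 2 ^ Lx e l with hy
  set N : ℝ := (2 : ℝ) ^ Lx e l with hN
  have hJ0 : 0 ≤ J := by positivity
  have hN0 : 0 < N := by positivity
  have h1 : y ≤ Real.log 2 := y_le (Lx e l)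
  have h0 : 0 ≤ y := y_nonneg (Lx e l)
  have hb0 : (0 : ℝ) ≤ b := by positivity
  have h4 : (N - b) * (J * y / N) = J * y - J * y * (b / N) := by
    field_simp
  have h5 : 0 ≤ J * y * ((b : ℝ) / N) := by positivity
  have h6 := mul_le_mul_of_nonneg_left h1 hJ0
  rw [h4]
  linarith

theorem x_le (e u l : ℕ) : px e u l / 2 ≤ (Jx u l : ℝ) / 2 ^ Lx e l := by
  have h := px_le e u l
  rw [mul_div_assoc] at h
  linarith

theorem J_le {e u l b : ℕ} (hC : Jx u l * (Lx e l + 1 + b + Jx u l) * 2 ^ l ≤ 2 ^ Lx e l) :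
    (Jx u l : ℝ) / 2 ^ Lx e l ≤ 1 := by
  rw [div_le_one (by positivity)]
  have h1 : Jx u l ≤ Jx u l * (Lx e l + 1 + b + Jx u l) * 2 ^ l := by
    rw [mul_assoc]
    refine Nat.le_mul_of_pos_right _ ?_
    positivity
  exact_mod_cast h1.trans hC

theorem half_pow (J : ℕ) : ((1 : ℝ) / 2) ^ J = Real.exp (-((J : ℝ) * Real.log 2)) := by
  rw [Real.exp_neg, ← Real.log_pow, Real.exp_log (by positivity), one_div, inv_pow]

end NumAAux

open NumAAux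

theorem beta_le {e u l b : ℕ} (hue : u ≤ e) (hb : b ≤ 2 ^ Lx e l)
    (hC : Jx u l * (Lx e l + 1 + b + Jx u l) * 2 ^ l ≤ 2 ^ Lx e l) :
    (1 - px e u l / 2) ^ (2 ^ Lx e l - b) ≤ (1 / 2) ^ Jx u l * Real.exp (1 / 2 ^ l) := by
  have h1 : 0 ≤ 1 - px e u l / 2 := by
    have := x_le e u l
    have := J_le hC
    linarith
  have h2 : 1 - px e u l / 2 ≤ Real.exp (-(px e u l / 2)) := by
    have := Real.add_one_le_exp (-(px e u l / 2))
    linarith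
  refine (pow_le_pow_left₀ h1 h2 _).trans ?_
  rw [← Real.exp_nat_mul, half_pow, ← Real.exp_add]
  apply Real.exp_le_exp.2
  have := np_ge (u := u) hC hb
  linarith

theorem beta_ge {e u l b : ℕ} (hue : u ≤ e) (hb : b ≤ 2 ^ Lx e l)
    (hC : Jx u l * (Lx e l + 1 + b + Jx u l) * 2 ^ l ≤ 2 ^ Lx e l) (hp : px e u l ≤ 1) :
    (1 / 2) ^ Jx u l * Real.exp (-(1 / 2 ^ l)) ≤ (1 - px e u l / 2) ^ (2 ^ Lx e l - b) := by
  have hx0 : 0 ≤ px e u l / 2 := by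
    have := px_nonneg e u l
    linarith
  have h2 := one_sub_ge hx0 (by linarith)
  refine le_trans ?_ (pow_le_pow_left₀ (Real.exp_pos _).le h2 _)
  rw [← Real.exp_nat_mul, half_pow, ← Real.exp_add]
  apply Real.exp_le_exp.2
  have h3 := np_le (u := u) hb
  have h4 : ((2 ^ Lx e l - b : ℕ) : ℝ) * (px e u l / 2) ^ 2 ≤ 1 / 2 ^ l := by
    have h5 : ((2 ^ Lx e l - b : ℕ) : ℝ) ≤ 2 ^ Lx e l := by
      rw [cast_n hb]
      have : (0 : ℝ) ≤ b := by positivity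
      linarith
    have h6 : (px e u l / 2) ^ 2 ≤ ((Jx u l : ℝ) / 2 ^ Lx e l) ^ 2 :=
      pow_le_pow_left₀ hx0 (x_le e u l) 2
    have h7 : (2 : ℝ) ^ Lx e l * ((Jx u l : ℝ) / 2 ^ Lx e l) ^ 2 =
        (Jx u l : ℝ) * Jx u l / 2 ^ Lx e l := by
      field_simp
    have h8 : (Jx u l : ℝ) * Jx u l / 2 ^ Lx e l ≤
        (Jx u l : ℝ) * (Lx e l + 1 + b + Jx u l) / 2 ^ Lx e l := by
      apply div_le_div_of_nonneg_right _ (by positivity)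
      apply mul_le_mul_of_nonneg_left _ (by positivity)
      have : (0 : ℝ) ≤ (Lx e l : ℝ) + 1 + b := by positivity
      linarith
    calc ((2 ^ Lx e l - b : ℕ) : ℝ) * (px e u l / 2) ^ 2
        ≤ 2 ^ Lx e l * ((Jx u l : ℝ) / 2 ^ Lx e l) ^ 2 :=
          mul_le_mul h5 h6 (by positivity) (by positivity)
      _ = _ := h7
      _ ≤ _ := h8
      _ ≤ _ := err_le hC
  have h9 : ((2 ^ Lx e l - b : ℕ) : ℝ) * -(px e u l / 2 + (px e u l / 2) ^ 2) =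
      -(((2 ^ Lx e l - b : ℕ) : ℝ) * (px e u l / 2)) -
        ((2 ^ Lx e l - b : ℕ) : ℝ) * (px e u l / 2) ^ 2 := by ring
  rw [h9]
  linarith

theorem gamma_le {e u l b : ℕ} (hue : u ≤ e) (hl : 2 ≤ l) (hb : b ≤ 2 ^ Lx e l)
    (hC : Jx u l * (Lx e l + 1 + b + Jx u l) * 2 ^ l ≤ 2 ^ Lx e l) (hp : px e u l ≤ 1) :
    (1 - 3 * px e u l / 4) ^ (2 ^ Lx e l - b) ≤ 2 * (1 / 2) ^ (3 * u * l) := by
  have h1 : 0 ≤ 1 - 3 * px e u l / 4 := by linarith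
  have h2 : 1 - 3 * px e u l / 4 ≤ Real.exp (-(3 * px e u l / 4)) := by
    have := Real.add_one_le_exp (-(3 * px e u l / 4))
    linarith
  refine (pow_le_pow_left₀ h1 h2 _).trans ?_
  rw [← Real.exp_nat_mul, half_pow]
  have h3 : (2 : ℝ) * Real.exp (-(((3 * u * l : ℕ) : ℝ) * Real.log 2)) =
      Real.exp (Real.log 2 + -(((3 * u * l : ℕ) : ℝ) * Real.log 2)) := by
    rw [Real.exp_add, Real.exp_log (by norm_num)]
  rw [h3]
  apply Real.exp_le_exp.2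
  have h4 := np_ge (u := u) hC hb
  have h5 : ((3 * u * l : ℕ) : ℝ) = 3 / 2 * (Jx u l : ℝ) := by
    unfold Jx
    push_cast
    ring
  have h6 : (1 : ℝ) / 2 ^ l ≤ 1 / 4 := by
    have h7 : (2 : ℝ) ^ 2 ≤ 2 ^ l := pow_le_pow_right₀ (by norm_num) hl
    rw [div_le_div_iff₀ (by positivity) (by norm_num)]
    linarith
  have h8 := Real.log_two_gt_d9
  rw [h5]
  have h9 : ((2 ^ Lx e l - b : ℕ) : ℝ) * -(3 * px e u l / 4) =
      -(3 / 2 * (((2 ^ Lx e l - b : ℕ) : ℝ) * (px e u l / 2))) := by ring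
  rw [h9]
  linarith

end Pool.Agent.Lib.Pa7c826n
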