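import Pool.Agent.Lib.Pa7c826n.Base

/-!
The new graph is computed in polynomial time.

`poly_ll`: `poly_lg` (Lib/Pa7c826y/Main2.lean). `poly_Nx`: `2 ^ Lx e (ll l₀ G t) =
2 ^ (2 e l₀) * (2 ^ lg (nn G t)) ^ (80 e)`, and `2 ^ lg (nn G t) ≤ 2 * nn G t` (`lg_upper`): `n_pow`,
`Bdd.ofN` (Lib/P8e91ed/PolyBin.lean; see Lib/Pa7c826q/SPolyA.lean for examples).
`poly_lnN`: `nSum` of quotients (`PolyN.div` by `i + 1`), where `2 ^ (k - 1 - i) ≤ 2 ^ k` is computed by
`n_pow` (the hypothesis bounds it); see `poly_mS` in SPolyA.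
`poly_KN`, `poly_RN`: immediate. `poly_redN`: `poly_inCode` (Lib/Pa7c826/Transfer.lean); the
adjacency bit is `e0` (`PolyB.ite`, `poly_F`, `PolyN.div` by `s`, which is positive in the first
branch: use the domain-sensitive `PolyB.ite`, or `Pool.Agent.Lib.Pa7c826t.PolyN.divz` if imported) or
`nz`, where `nv` is `nSum` over `i < κ` of `if r.getD (k * κ + i) false = true then 2 ^ i else 0`
(`PolyB.getD`, `PolyN.ite`; `2 ^ i ≤ 2 ^ κ = N * N` for `κ = 2 L` by `n_pow`).
See `poly_red2` in Lib/Pa7c826/BISRed.lean for the pattern of `poly_inCode`.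
-/

namespace Pool.Agent.Lib.Pa7c826n

open Pool.Agent.Lib.Pa7c826 Pool.Agent.Lib.Pa7c826y
open Pool.Agent.Lib.PolyTime

variable {α : Type} {D : α → Prop} {ctx : List (α → List Bool)} {G : α → BGraph} {t : α → ℕ}
  {r : α → List Bool}

namespace RPolyAux

theorem poly_nn (hw : PolyC D ctx (fun x => inCode (G x) (t x))) :
    PolyN D ctx (fun x => nn (G x) (t x)) := by
  have ha : PolyN D ctx (fun x => (G x).a) :=
    (poly_aOf hw).congr (fun x _ => by rw [aOf_inCode])
  have hb : PolyN D ctx (fun x => (G x).b) :=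
    (poly_bOf hw).congr (fun x _ => by rw [bOf_inCode])
  have ht : PolyN D ctx t :=
    (poly_tOf hw).congr (fun x _ => by rw [tOf_inCode])
  exact ((ha.add hb).add ht).add (PolyN.const 16)

end RPolyAux

open RPolyAux

theorem poly_ll (l₀ : ℕ) (hw : PolyC D ctx (fun x => inCode (G x) (t x))) :
    PolyN D ctx (fun x => ll l₀ (G x) (t x)) :=
  ((PolyN.const 40).mul (poly_lg (poly_nn hw))).add (PolyN.const l₀)

theorem poly_Nx (e l₀ : ℕ) (hw : PolyC D ctx (fun x => inCode (G x) (t x))) :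
    PolyN D ctx (fun x => 2 ^ Lx e (ll l₀ (G x) (t x))) := by
  have hs : PolyN D ctx (fun x => 2 * nn (G x) (t x)) := (PolyN.const 2).mul (poly_nn hw)
  have h1 : PolyN D ctx (fun x => 2 ^ lg (nn (G x) (t x))) := by
    refine Pool.Agent.Lib.P8e91ed.PT.n_pow (PolyN.const 2) (poly_lg (poly_nn hw))
      ((Pool.Agent.Lib.P8e91ed.PT.Bdd.ofN hs).le fun x _ => ?_)
    exact lg_upper (by unfold nn; omega)
  refine ((PolyN.const (2 ^ (2 * e * l₀))).mul (PolyN.pow h1 (80 * e))).congr fun x _ => ?_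
  rw [← pow_mul, ← pow_add]
  congr 1
  unfold Lx ll
  ring

theorem poly_KN (e l₀ : ℕ) (hw : PolyC D ctx (fun x => inCode (G x) (t x))) :
    PolyN D ctx (fun x => KN e l₀ (G x) (t x)) := by
  have hb : PolyN D ctx (fun x => (G x).b) :=
    (poly_bOf hw).congr (fun x _ => by rw [bOf_inCode])
  have ht : PolyN D ctx t :=
    (poly_tOf hw).congr (fun x _ => by rw [tOf_inCode])
  exact (PolyN.sub (poly_Nx e l₀ hw) hb).add (ht.add (PolyN.const 4))

theorem poly_RN (e l₀ : ℕ) (hw : PolyC D ctx (fun x => inCode (G x) (t x))) :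
    PolyN D ctx (fun x => RN e l₀ (G x) (t x)) :=
  ((poly_Nx e l₀ hw).mul (poly_Nx e l₀ hw)).mul
    ((PolyN.const 2).mul ((PolyN.const (2 * e)).mul (poly_ll l₀ hw)))

theorem poly_MN (e l₀ : ℕ) (m : Polynomial ℕ)
    (hw : PolyC D ctx (fun x => inCode (G x) (t x))) :
    PolyN D ctx (fun x => MN e l₀ m (G x) (t x)) := by
  have ht : PolyN D ctx t :=
    (poly_tOf hw).congr (fun x _ => by rw [tOf_inCode])
  have hN := poly_Nx e l₀ hw
  exact PolyN.polyEval ((((PolyN.const 2).mul ht).add (hN.add (hN.add (hN.mul hN)))).add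
    (PolyN.const 3)) m

end Pool.Agent.Lib.Pa7c826n
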