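import Pool.Agent.Lib.Pa7c826n.RPoly

/-!
The new graph is computed in polynomial time, continued. See the header of RPoly.lean.
-/

namespace Pool.Agent.Lib.Pa7c826n

open Pool.Agent.Lib.Pa7c826 Pool.Agent.Lib.Pa7c826y
open Pool.Agent.Lib.PolyTime

variable {α : Type} {D : α → Prop} {ctx : List (α → List Bool)} {G : α → BGraph} {t : α → ℕ}
  {r : α → List Bool}

namespace RPolyGAux

open Pool.Agent.Lib.P8e91ed

theorem poly_lnN {k : α → ℕ} (hk : PolyN D ctx k) (h2 : PolyN D ctx (fun x => 2 ^ k x)) :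
    PolyN D ctx (fun x => lnN (k x)) := by
  have h2' := PT.nU (n := k) h2
  have hk' := PT.nU (n := k) hk
  have hi := PT.nL (D := D) (ctx := ctx) (n := k)
  have hp := PT.n_pow (PolyN.const 2) (PolyN.sub (PolyN.sub hk' (PolyN.const 1)) hi)
    ((PT.Bdd.ofN h2').le fun x _ => Nat.pow_le_pow_right (by norm_num) (by omega))
  exact PT.nSum hk (PolyN.div hp (hi.add (PolyN.const 1)) (fun _ _ => Nat.succ_pos _))

theorem n_iteB {φ : α → Bool} {f g : α → ℕ} (hφ : PolyB D ctx φ) (hf : PolyN D ctx f)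
    (hg : PolyN D ctx g) : PolyN D ctx (fun a => if φ a = true then f a else g a) := by
  have := PolyC.ite hφ (PolyC.mono hf (fun a (h : D a ∧ φ a = true) => h.1))
    (PolyC.mono hg (fun a (h : D a ∧ φ a = false) => h.1))
  refine PolyC.congr this (fun a _ => ?_)
  show (if φ a = true then un (f a) else un (g a)) = un (if φ a = true then f a else g a)
  split_ifs <;> rfl

theorem poly_nv {κ k : α → ℕ} (hκ : PolyN D ctx κ) (h2 : PolyN D ctx (fun x => 2 ^ κ x))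
    (hr : PolyC D ctx r) (hk : PolyN D ctx k) :
    PolyN D ctx (fun x => nv (κ x) (r x) (k x)) := by
  have h2' := PT.nU (n := κ) h2
  have hi := PT.nL (D := D) (ctx := ctx) (n := κ)
  have hp := PT.n_pow (PolyN.const 2) hi
    ((PT.Bdd.ofN h2').le fun x hx => Nat.pow_le_pow_right (by norm_num) hx.2.le)
  exact PT.nSum hκ (n_iteB (φ := fun p : α × ℕ =>
      (r p.1).getD (k p.1 * κ p.1 + p.2) false)
    (PolyB.getD (PT.cU (n := κ) hr) (((PT.nU (n := κ) hk).mul (PT.nU (n := κ) hκ)).add hi)) hp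
    (PolyN.const 0))

theorem poly_Jx (u l₀ : ℕ) (hw : PolyC D ctx (fun x => inCode (G x) (t x))) :
    PolyN D ctx (fun x => Jx u (ll l₀ (G x) (t x))) :=
  (PolyN.const (2 * u)).mul (poly_ll l₀ hw)

theorem poly_Lx (e l₀ : ℕ) (hw : PolyC D ctx (fun x => inCode (G x) (t x))) :
    PolyN D ctx (fun x => Lx e (ll l₀ (G x) (t x))) :=
  (PolyN.const (2 * e)).mul (poly_ll l₀ hw)

end RPolyGAux

open RPolyGAux

theorem poly_sx {e u : ℕ} (h : u ≤ e) (l₀ : ℕ)
    (hw : PolyC D ctx (fun x => inCode (G x) (t x))) :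
    PolyN D ctx (fun x => sx u (ll l₀ (G x) (t x))) := by
  refine poly_lnN (poly_Jx u l₀ hw) (Pool.Agent.Lib.P8e91ed.PT.n_pow (PolyN.const 2)
    (poly_Jx u l₀ hw) ((Pool.Agent.Lib.P8e91ed.PT.Bdd.ofN (poly_Nx e l₀ hw)).le fun x _ => ?_))
  exact Nat.pow_le_pow_right (by norm_num)
    (Nat.mul_le_mul_right _ (Nat.mul_le_mul_left _ h))

theorem poly_Xx {e u : ℕ} (h : u ≤ e) (l₀ : ℕ)
    (hw : PolyC D ctx (fun x => inCode (G x) (t x))) :
    PolyN D ctx (fun x => Xx e u (ll l₀ (G x) (t x))) := by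
  exact ((PolyN.const 2).mul (poly_Jx u l₀ hw)).mul (poly_lnN (poly_Lx e l₀ hw)
    (poly_Nx e l₀ hw))

theorem poly_redN {e u : ℕ} (h : u ≤ e) (l₀ : ℕ)
    (hw : PolyC D ctx (fun x => inCode (G x) (t x))) (hr : PolyC D ctx r) :
    PolyC D ctx (fun x => inCode (redN e u l₀ (G x) (t x) (r x)) (2 * t x)) := by
  have hN := poly_Nx e l₀ hw
  refine poly_inCode hN hN ((PolyN.const 2).mul (poly_s hw)) ?_
  have hκ : PolyN D ctx (fun x => 2 * Lx e (ll l₀ (G x) (t x))) :=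
    (PolyN.const 2).mul (poly_Lx e l₀ hw)
  have h2κ : PolyN D ctx (fun x => 2 ^ (2 * Lx e (ll l₀ (G x) (t x)))) :=
    (hN.mul hN).congr (fun x _ => by rw [← pow_add, ← two_mul])
  set N : α → ℕ := fun x => 2 ^ Lx e (ll l₀ (G x) (t x)) with hNd
  have up2 : ∀ {f : α → ℕ}, PolyN D ctx f →
      PolyN (Pool.Agent.Lib.P8e91ed.PT.Dx (Pool.Agent.Lib.P8e91ed.PT.Dx D N)
        (fun p : α × ℕ => N p.1)) (Pool.Agent.Lib.P8e91ed.PT.cx
        (Pool.Agent.Lib.P8e91ed.PT.cx ctx)) (fun q => f q.1.1) := fun hf =>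
    Pool.Agent.Lib.P8e91ed.PT.nU (Pool.Agent.Lib.P8e91ed.PT.nU hf)
  have W2 := Pool.Agent.Lib.P8e91ed.PT.cU (n := fun p : α × ℕ => N p.1)
    (Pool.Agent.Lib.P8e91ed.PT.cU (n := N) hw)
  have R2 := Pool.Agent.Lib.P8e91ed.PT.cU (n := fun p : α × ℕ => N p.1)
    (Pool.Agent.Lib.P8e91ed.PT.cU (n := N) hr)
  have I2 := Pool.Agent.Lib.P8e91ed.PT.nU (n := fun p : α × ℕ => N p.1)
    (Pool.Agent.Lib.P8e91ed.PT.nL (D := D) (ctx := ctx) (n := N))
  have J2 := Pool.Agent.Lib.P8e91ed.PT.nL (D := Pool.Agent.Lib.P8e91ed.PT.Dx D N)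
    (ctx := Pool.Agent.Lib.P8e91ed.PT.cx ctx) (n := fun p : α × ℕ => N p.1)
  have hs := up2 (poly_sx h l₀ hw)
  have hX := up2 (poly_Xx h l₀ hw)
  have ha := poly_a W2
  have ht := poly_s W2
  have hφ := PolyB.lt I2 (((ha.add ht).add (PolyN.const 4)).mul hs)
  refine PolyB.or ?_ ?_
  · refine PolyB.ite hφ ?_ (PolyB.const true)
    refine poly_F (PolyC.mono W2 fun _ h => h.1) (PolyN.div (PolyC.mono I2 fun _ h => h.1)
      (PolyC.mono hs fun _ h => h.1) ?_) (PolyC.mono J2 fun _ h => h.1)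
    rintro q ⟨_, hq⟩
    rw [decide_eq_true_eq] at hq
    rcases Nat.eq_zero_or_pos (sx u (ll l₀ (G q.1.1) (t q.1.1))) with h0 | h0
    · rw [h0, mul_zero] at hq
      exact absurd hq (Nat.not_lt_zero _)
    · exact h0
  · exact PolyB.lt (poly_nv (up2 hκ) (up2 h2κ) R2 ((I2.mul (up2 hN)).add J2)) hX

end Pool.Agent.Lib.Pa7c826n
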