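import Pool.Agent.Lib.Pa7c826n.ProbA
import Pool.Agent.Lib.Pa7c826n.WLin

/-!
Expectations of the partition functions.

`Ex_dgs`: `2 ^ n (1 / 2) ^ dgs F X` is the number of sets `T` of right vertices without random
neighbours in `X`, i.e. the sum over `T` of the indicator of `∀ v ∈ X, ∀ w ∈ T, F v w = false`
(the sets `T` are the subsets of the complement of the neighbourhood, which has
`n - dgs F X` elements). By `Ex_sum`, `Ex_rect` the expectation is
`∑_T (1 - p) ^ (|X| |T|) = (1 + (1 - p) ^ |X|) ^ n` (`Finset.sum_powerset` over cardinalities,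
`Finset.prod_one_add`, or `Fintype.sum_pow_mul_eq_add_pow`).
`Ex_dgc`: `(1 / 2) ^ (∑ v ∈ X, dgc F v) = ∏ v, ∏ w, if v ∈ X ∧ F v w = true then 1 / 2 else 1`;
`Ex_prod`: a pair with `v ∈ X` contributes `p / 2 + (1 - p) = 1 - p / 2`.
`Ex_Yp`, `Ex_Lp`: linearity. `Ex_Lp'`: `Ex_Lp` and the grouping of `Lp_eq` (`sum_over` with the
constant weight `(1 - p / 2) ^ n`).
-/

namespace Pool.Agent.Lib.Pa7c826n

open Finset

variable {a s n b : ℕ}

theorem Ex_dgs (p : ℝ) (X : Finset (Fin a × Fin s)) :
    Ex p (fun F : Fin a × Fin s → Fin n → Bool => (1 / 2 : ℝ) ^ dgs F X) =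
      ((1 + (1 - p) ^ X.card) / 2) ^ n := by
  classical
  have key : ∀ F : Fin a × Fin s → Fin n → Bool, (1 / 2 : ℝ) ^ dgs F X =
      (1 / 2) ^ n * ∑ T : Finset (Fin n),
        (if ∀ i ∈ X, ∀ j ∈ T, F i j = false then (1 : ℝ) else 0) := by
    intro F
    have h1 : (1 / 2 : ℝ) ^ dgs F X =
        ∏ w : Fin n, (if ∃ v ∈ X, F v w = true then (1 / 2 : ℝ) else 1) := by
      unfold dgs
      rw [Finset.prod_ite, Finset.prod_const, Finset.prod_const_one, mul_one]
    have h2 : ∀ w : Fin n, (if ∃ v ∈ X, F v w = true then (1 / 2 : ℝ) else 1) =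
        1 / 2 * (1 + if ∀ v ∈ X, F v w = false then (1 : ℝ) else 0) := by
      intro w
      by_cases h : ∃ v ∈ X, F v w = true
      · have h' : ¬ ∀ v ∈ X, F v w = false := by
          obtain ⟨v, hv, hv'⟩ := h
          intro hc
          have := hc v hv
          rw [hv'] at this
          exact absurd this (by decide)
        rw [if_pos h, if_neg h']
        norm_num
      · have h' : ∀ v ∈ X, F v w = false := by
          intro v hv
          by_contra hc
          exact h ⟨v, hv, by simpa using hc⟩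
        rw [if_neg h, if_pos h']
        norm_num
    rw [h1, Finset.prod_congr rfl (fun w _ => h2 w), Finset.prod_mul_distrib, Finset.prod_const,
      Finset.card_univ, Fintype.card_fin]
    congr 1
    rw [Finset.prod_one_add, Finset.powerset_univ]
    apply Finset.sum_congr rfl
    intro T _
    by_cases h : ∀ i ∈ X, ∀ j ∈ T, F i j = false
    · rw [if_pos h]
      apply Finset.prod_eq_one
      intro w hw
      rw [if_pos]
      intro v hv
      exact h v hv w hw
    · rw [if_neg h]
      have h4 : ∃ j ∈ T, ∃ i ∈ X, ¬ F i j = false := by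
        by_contra hc
        apply h
        intro i hi j hj
        by_contra hc2
        exact hc ⟨j, hj, i, hi, hc2⟩
      obtain ⟨j, hj, i, hi, hij⟩ := h4
      apply Finset.prod_eq_zero hj
      rw [if_neg]
      intro hc
      exact hij (hc i hi)
  have e1 : (fun F : Fin a × Fin s → Fin n → Bool => (1 / 2 : ℝ) ^ dgs F X) =
      fun F => (1 / 2) ^ n * ∑ T : Finset (Fin n),
        (if ∀ i ∈ X, ∀ j ∈ T, F i j = false then (1 : ℝ) else 0) := funext key
  rw [e1, Ex_mul, Ex_sum]
  have e2 : ∀ T : Finset (Fin n),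
      Ex p (fun F : Fin a × Fin s → Fin n → Bool =>
        if ∀ i ∈ X, ∀ j ∈ T, F i j = false then (1 : ℝ) else 0) =
      (1 - p) ^ (X.card * T.card) := by
    intro T
    convert Ex_rect p X T
  rw [Finset.sum_congr rfl (fun T _ => e2 T)]
  have e3 : ∑ T : Finset (Fin n), (1 - p) ^ (X.card * T.card) = (1 + (1 - p) ^ X.card) ^ n := by
    have h5 := Finset.prod_one_add (s := (Finset.univ : Finset (Fin n)))
      (f := fun _ => (1 - p) ^ X.card)
    rw [Finset.powerset_univ, Finset.prod_const, Finset.card_univ, Fintype.card_fin] at h5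
    rw [h5]
    apply Finset.sum_congr rfl
    intro T _
    rw [Finset.prod_const, pow_mul]
  rw [e3, ← mul_pow]
  congr 1
  ring

theorem Ex_dgc (p : ℝ) (X : Finset (Fin a × Fin s)) :
    Ex p (fun F : Fin a × Fin s → Fin n → Bool => (1 / 2 : ℝ) ^ (∑ v ∈ X, dgc F v)) =
      ((1 - p / 2) ^ n) ^ X.card := by
  classical
  have key : ∀ F : Fin a × Fin s → Fin n → Bool, (1 / 2 : ℝ) ^ (∑ v ∈ X, dgc F v) =
      ∏ v, ∏ w, (fun (v : Fin a × Fin s) (_ : Fin n) (x : Bool) =>
        if v ∈ X ∧ x = true then (1 / 2 : ℝ) else 1) v w (F v w) := by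
    intro F
    rw [← Finset.prod_pow_eq_pow_sum]
    have h1 : ∀ v, (∏ w : Fin n, (if v ∈ X ∧ F v w = true then (1 / 2 : ℝ) else 1)) =
        if v ∈ X then (1 / 2 : ℝ) ^ dgc F v else 1 := by
      intro v
      by_cases hv : v ∈ X
      · rw [if_pos hv]
        unfold dgc
        simp only [hv, true_and]
        rw [Finset.prod_ite, Finset.prod_const, Finset.prod_const_one, mul_one]
      · rw [if_neg hv]
        apply Finset.prod_eq_one
        intro w _
        rw [if_neg (fun h => hv h.1)]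
    rw [Finset.prod_congr rfl (fun v _ => h1 v), Finset.prod_ite_mem, Finset.univ_inter]
  have e1 : (fun F : Fin a × Fin s → Fin n → Bool => (1 / 2 : ℝ) ^ (∑ v ∈ X, dgc F v)) =
      fun F => ∏ v, ∏ w, (fun (v : Fin a × Fin s) (_ : Fin n) (x : Bool) =>
        if v ∈ X ∧ x = true then (1 / 2 : ℝ) else 1) v w (F v w) := funext key
  rw [e1]
  refine (Ex_prod p (fun (v : Fin a × Fin s) (_ : Fin n) (x : Bool) =>
        if v ∈ X ∧ x = true then (1 / 2 : ℝ) else 1)).trans ?_
  have h2 : ∀ v : Fin a × Fin s, (∏ _w : Fin n,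
      (p * (if v ∈ X ∧ (true : Bool) = true then (1 / 2 : ℝ) else 1) +
        (1 - p) * (if v ∈ X ∧ (false : Bool) = true then (1 / 2 : ℝ) else 1))) =
      if v ∈ X then (1 - p / 2) ^ n else 1 := by
    intro v
    by_cases hv : v ∈ X
    · rw [if_pos hv, Finset.prod_const, Finset.card_univ, Fintype.card_fin]
      congr 1
      rw [if_pos ⟨hv, rfl⟩, if_neg (fun h => absurd h.2 (by decide))]
      ring
    · rw [if_neg hv]
      apply Finset.prod_eq_one
      intro w _
      rw [if_neg (fun h => hv h.1), if_neg (fun h => hv h.1)]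
      ring
  rw [Finset.prod_congr rfl (fun v _ => h2 v), Finset.prod_ite_mem, Finset.univ_inter,
    Finset.prod_const]

private theorem Ex_mul_const {c : ℝ} (p : ℝ) (f : (Fin a × Fin s → Fin n → Bool) → ℝ) :
    Ex p (fun F => f F * c) = Ex p f * c := by
  have h : (fun F => f F * c) = fun F => c * f F := funext fun F => mul_comm _ _
  rw [h, Ex_mul, mul_comm]

theorem Ex_Yp (p : ℝ) (M : Fin a → Fin b → Bool) :
    Ex p (fun F : Fin a × Fin s → Fin n → Bool => Yp M F) =
      ∑ X : Finset (Fin a × Fin s), ((1 + (1 - p) ^ X.card) / 2) ^ n * (1 / 2) ^ nbA M (prA X) := by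
  unfold Yp
  rw [Ex_sum]
  apply Finset.sum_congr rfl
  intro X _
  rw [Ex_mul_const, Ex_dgs]

theorem Ex_Lp (p : ℝ) (M : Fin a → Fin b → Bool) :
    Ex p (fun F : Fin a × Fin s → Fin n → Bool => Lp M F) =
      ∑ X : Finset (Fin a × Fin s), ((1 - p / 2) ^ n) ^ X.card * (1 / 2) ^ nbA M (prA X) := by
  unfold Lp
  rw [Ex_sum]
  apply Finset.sum_congr rfl
  intro X _
  rw [Ex_mul_const, Ex_dgc]

theorem Ex_Lp' (p : ℝ) (M : Fin a → Fin b → Bool) :
    Ex p (fun F : Fin a × Fin s → Fin n → Bool => Lp M F) =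
      ∑ A : Finset (Fin a), (1 / 2) ^ nbA M A * ((1 + (1 - p / 2) ^ n) ^ s - 1) ^ A.card := by
  rw [Ex_Lp]
  rw [← Finset.sum_fiberwise (s := (Finset.univ : Finset (Finset (Fin a × Fin s))))
    (g := fun X => prA X)]
  apply Finset.sum_congr rfl
  intro A _
  have h1 := sum_over (a := a) (s := s) (fun _ => (1 - p / 2) ^ n) A
  have h2 : ∏ _u ∈ A, (∏ _i : Fin s, (1 + (1 - p / 2) ^ n) - 1) =
      ((1 + (1 - p / 2) ^ n) ^ s - 1) ^ A.card := by
    rw [Finset.prod_const, Finset.prod_const, Finset.card_univ, Fintype.card_fin]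
  rw [← h2, ← h1, Finset.mul_sum]
  apply Finset.sum_congr rfl
  intro X hX
  rw [(Finset.mem_filter.1 hX).2, Finset.prod_const]
  ring

end Pool.Agent.Lib.Pa7c826n
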